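import Pool.Agent.Lib.MP_64d6f1_an.II.Defs

/-! Elementary estimates for the trace. -/

namespace Pool.Agent.Lib.MP_64d6f1_an.II

variable {A : Type} [CStarAlgebra A] (F : Fac A)

theorem Fac.t_one : F.t 1 = 1 := by
  rw [F.t_apply, F.one, Complex.one_re]

theorem Fac.t_comm (a b : A) : F.t (a * b) = F.t (b * a) := by
  rw [F.t_apply, F.comm, F.t_apply]

theorem Fac.t_star (a : A) : F.t (star a) = F.t a := by
  rw [F.t_apply, F.herm, Complex.conj_re, F.t_apply]

theorem Fac.t_pos (a : A) : 0 ≤ F.t (star a * a) := F.pos a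

theorem basic_sa {x : A} (h : star x = x) : F.τ x = (F.t x : ℂ) := by
  have h1 := F.herm x
  rw [h] at h1
  exact (Complex.conj_eq_iff_re.1 h1.symm).symm

theorem Fac.τ_star_mul_self (a : A) : F.τ (star a * a) = (F.t (star a * a) : ℂ) :=
  basic_sa F (by rw [star_mul, star_star])

theorem Fac.eq_zero_of_t {a : A} (h : F.t (star a * a) = 0) : a = 0 :=
  F.faith a (by rw [F.τ_star_mul_self, h, Complex.ofReal_zero])

theorem basic_swap (a b : A) : F.t (star b * a) = F.t (star a * b) := by
  rw [← F.t_star, star_mul, star_star]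

theorem Fac.t_cs (a b : A) : F.t (star a * b) ^ 2 ≤ F.t (star a * a) * F.t (star b * b) := by
  have h := discrim_le_zero (a := F.t (star a * a)) (b := 2 * F.t (star a * b))
    (c := F.t (star b * b)) fun x => by
      have h := F.t_pos (x • a + b)
      simp only [star_add, star_smul, star_trivial, add_mul, mul_add, smul_mul_assoc,
        mul_smul_comm, map_add, map_smul, smul_eq_mul, basic_swap F a b] at h
      linarith
  rw [discrim] at h
  linarith

theorem Fac.cs (a b : A) : ‖F.τ (star a * b)‖ ^ 2 ≤ F.t (star a * a) * F.t (star b * b) := by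
  obtain ⟨c, h1, h2⟩ := Complex.exists_norm_eq_mul_self (F.τ (star a * b))
  have h := F.t_cs a (c • b)
  have e1 : F.t (star a * c • b) = ‖F.τ (star a * b)‖ := by
    rw [F.t_apply, mul_smul_comm, map_smul, smul_eq_mul, ← h2, Complex.ofReal_re]
  have e2 : star (c • b) * c • b = star b * b := by
    rw [star_smul, smul_mul_smul_comm, Complex.star_def, Complex.conj_mul', h1]
    simp
  rwa [e1, e2] at h

theorem basic_mul (c y : A) :
    F.t (star (star y * star c) * (star y * star c)) ≤ ‖y‖ ^ 2 * F.t (star c * c) := by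
  let _ := CStarAlgebra.spectralOrder A
  have := CStarAlgebra.spectralOrderedRing A
  obtain ⟨w, hw⟩ := CStarAlgebra.nonneg_iff_eq_star_mul_self.1
    (sub_nonneg.2 (CStarAlgebra.mul_star_le_algebraMap_norm_sq (a := y)))
  have h := F.t_pos (w * star c)
  have e : star (w * star c) * (w * star c) =
      (‖y‖ ^ 2) • (c * star c) - star (star y * star c) * (star y * star c) := by
    rw [star_mul, star_star, mul_assoc, ← mul_assoc (star w), ← hw, star_mul, star_star,
      star_star, sub_mul, mul_sub, ← Algebra.smul_def, mul_smul_comm]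
    simp only [mul_assoc]
  rw [e, map_sub, map_smul, F.t_comm c, smul_eq_mul] at h
  linarith

theorem Fac.bound (c y : A) : ‖F.τ (star c * c * y)‖ ≤ ‖y‖ * F.t (star c * c) := by
  have h := F.cs (star y * star c) (star c)
  have e : F.τ (star (star y * star c) * star c) = F.τ (star c * c * y) := by
    rw [star_mul, star_star, star_star, F.comm, mul_assoc]
  rw [e, star_star c, F.t_comm c] at h
  have h0 := F.t_pos c
  refine le_of_sq_le_sq ?_ (by positivity)
  refine h.trans ((mul_le_mul_of_nonneg_right (basic_mul F c y) h0).trans_eq ?_)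
  ring

theorem Fac.t_bound (c y : A) : |F.t (star c * c * y)| ≤ ‖y‖ * F.t (star c * c) :=
  (Complex.abs_re_le_norm _).trans (F.bound c y)

theorem Fac.norm_τ_le (y : A) : ‖F.τ y‖ ≤ ‖y‖ := by
  have h := F.bound 1 y
  rwa [star_one, one_mul, one_mul, F.t_one, mul_one] at h

theorem basic_two (a b : A) : 2 * F.t (star a * b) ≤ F.t (star a * a) + F.t (star b * b) := by
  have h := F.t_pos (a - b)
  simp only [star_sub, sub_mul, mul_sub, map_sub, basic_swap F a b] at h
  linarith

theorem Fac.tri (a b : A) :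
    F.t (star (a + b) * (a + b)) ≤ 2 * F.t (star a * a) + 2 * F.t (star b * b) := by
  have h := basic_two F a b
  simp only [star_add, add_mul, mul_add, map_add, basic_swap F a b]
  linarith

theorem Fac.tri_sum {ι : Type} [Fintype ι] (a : ι → A) :
    F.t (star (∑ i, a i) * ∑ i, a i) ≤ Fintype.card ι * ∑ i, F.t (star (a i) * a i) := by
  have h := Finset.sum_le_sum (s := Finset.univ) fun i _ =>
    Finset.sum_le_sum (s := Finset.univ) fun j _ => basic_two F (a i) (a j)
  simp only [Finset.sum_add_distrib, Finset.sum_const, Finset.card_univ, nsmul_eq_mul,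
    ← Finset.mul_sum] at h
  rw [star_sum, Finset.sum_mul_sum]
  simp only [map_sum]
  linarith

theorem basic_proj {r : A} (hr : IsStarProjection r) : star r * r = r := by
  rw [hr.isSelfAdjoint.star_eq, hr.isIdempotentElem.eq]

theorem Fac.t_proj_nonneg {r : A} (hr : IsStarProjection r) : 0 ≤ F.t r := by
  have h := F.t_pos r
  rwa [basic_proj hr] at h

theorem Fac.t_proj_le_one {r : A} (hr : IsStarProjection r) : F.t r ≤ 1 := by
  have h := F.t_proj_nonneg hr.one_sub
  rw [map_sub, F.t_one] at h
  linarith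

theorem Fac.t_proj_eq_zero {r : A} (hr : IsStarProjection r) (h : F.t r = 0) : r = 0 :=
  F.eq_zero_of_t (by rw [basic_proj hr, h])

theorem Fac.proj_bound {r : A} (hr : IsStarProjection r) (y : A) :
    ‖F.τ (r * y)‖ ≤ ‖y‖ * F.t r := by
  have h := F.bound r y
  rwa [basic_proj hr] at h

theorem Fac.t_proj_bound {r : A} (hr : IsStarProjection r) (y : A) :
    |F.t (r * y)| ≤ ‖y‖ * F.t r :=
  (Complex.abs_re_le_norm _).trans (F.proj_bound hr y)

theorem Fac.τ_proj_mul {p q : A} (hp : IsStarProjection p) (hq : IsStarProjection q) :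
    F.τ (p * q) = (F.t (p * q) : ℂ) ∧ 0 ≤ F.t (p * q) := by
  have e : F.τ (star (p * q) * (p * q)) = F.τ (p * q) := by
    rw [star_mul, mul_assoc, ← mul_assoc (star p), basic_proj hp, F.comm, mul_assoc,
      hq.isSelfAdjoint.star_eq, hq.isIdempotentElem.eq]
  have e' : F.t (star (p * q) * (p * q)) = F.t (p * q) := congrArg Complex.re e
  exact ⟨by rw [← e, ← e', F.τ_star_mul_self], e' ▸ F.t_pos _⟩

theorem proj_comm_of_mul {r e : A} (hr : IsStarProjection r) (he : IsStarProjection e)
    (h : r * e = e) : e * r = e := by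
  have h1 := congrArg star h
  rwa [star_mul, hr.isSelfAdjoint.star_eq, he.isSelfAdjoint.star_eq] at h1

theorem proj_sum {ι : Type} [Fintype ι] {e : ι → A} (he : ∀ a, IsStarProjection (e a))
    (ho : ∀ a b, a ≠ b → e a * e b = 0) : IsStarProjection (∑ a, e a) := by
  refine isStarProjection_iff'.2 ⟨?_, ?_⟩
  · rw [Finset.sum_mul_sum]
    refine Finset.sum_congr rfl fun a _ => ?_
    rw [Finset.sum_eq_single a (fun b _ hb => ho a b hb.symm)
      (fun h => absurd (Finset.mem_univ _) h), (he a).isIdempotentElem.eq]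
  · rw [star_sum]
    exact Finset.sum_congr rfl fun a _ => (he a).isSelfAdjoint.star_eq

theorem pi_norm_le {v e : A} (he : IsStarProjection e) (h : star v * v = e) :
    ‖v‖ ≤ 1 ∧ v * e = v := by
  refine ⟨?_, ?_⟩
  · have h1 := he.norm_le
    rw [← h, CStarRing.norm_star_mul_self] at h1
    nlinarith [norm_nonneg v]
  · have h1 : star (v * (1 - e)) * (v * (1 - e)) = 0 := by
      rw [star_mul, mul_assoc, ← mul_assoc (star v), h, he.mul_one_sub_self, mul_zero]
    have h2 := (CStarRing.star_mul_self_eq_zero_iff _).1 h1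
    rw [mul_sub, mul_one, sub_eq_zero] at h2
    exact h2.symm

theorem exists_pm {z : A} (hz : IsSelfAdjoint z) : ∃ c d : A, IsSelfAdjoint c ∧ IsSelfAdjoint d ∧
    z = c * c - d * d ∧ c * d = 0 ∧ d * c = 0 ∧ ‖c * c‖ ≤ ‖z‖ ∧ ‖d * d‖ ≤ ‖z‖ := by
  let _ := CStarAlgebra.spectralOrder A
  have := CStarAlgebra.spectralOrderedRing A
  obtain ⟨c, hc, e1⟩ := CStarAlgebra.nonneg_iff_exists_isSelfAdjoint_and_eq_mul_self.1
    (CFC.posPart_nonneg z)
  obtain ⟨d, hd, e2⟩ := CStarAlgebra.nonneg_iff_exists_isSelfAdjoint_and_eq_mul_self.1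
    (CFC.negPart_nonneg z)
  have h0 : c * c * (d * d) = 0 := by rw [← e1, ← e2, CFC.posPart_mul_negPart]
  have h1 : c * d = 0 := by
    refine (CStarRing.star_mul_self_eq_zero_iff _).1
      ((CStarRing.star_mul_self_eq_zero_iff _).1 ?_)
    have e : star (star (c * d) * (c * d)) * (star (c * d) * (c * d)) =
        d * (c * c * (d * d)) * (c * c * d) := by
      simp only [star_mul, hc.star_eq, hd.star_eq, mul_assoc]
    rw [e, h0, mul_zero, zero_mul]
  have h2 := congrArg star h1
  rw [star_mul, hc.star_eq, hd.star_eq, star_zero] at h2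
  exact ⟨c, d, hc, hd, by rw [← e1, ← e2, CFC.posPart_sub_negPart z hz], h1, h2,
    e1 ▸ CStarAlgebra.norm_posPart_le z, e2 ▸ CStarAlgebra.norm_negPart_le z⟩

end Pool.Agent.Lib.MP_64d6f1_an.II
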