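import Pool.Agent.Lib.MP_64d6f1_an.II.Rng

/-! Division and comparison of projections. -/

open Filter Topology

namespace Pool.Agent.Lib.MP_64d6f1_an.II

variable {H : Type} [NormedAddCommGroup H] [InnerProductSpace ℂ H] [CompleteSpace H]
  {N : VonNeumannAlgebra H} {ξ : ℕ → H} {τ : (H →L[ℂ] H) → ℂ}

theorem cmp_add (h : II1 N ξ τ) (x y : H →L[ℂ] H) : (τ (x + y)).re = (τ x).re + (τ y).re := by
  obtain ⟨T, hT⟩ := h.lin
  rw [hT, hT, hT, map_add, Complex.add_re]

theorem cmp_sub (h : II1 N ξ τ) (x y : H →L[ℂ] H) : (τ (x - y)).re = (τ x).re - (τ y).re := by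
  obtain ⟨T, hT⟩ := h.lin
  rw [hT, hT, hT, map_sub, Complex.sub_re]

theorem cmp_zero (h : II1 N ξ τ) : (τ 0).re = 0 := by
  obtain ⟨T, hT⟩ := h.lin
  rw [hT, map_zero, Complex.zero_re]

theorem cmp_flip {p q : H →L[ℂ] H} (hp : IsStarProjection p) (hq : IsStarProjection q)
    (h : p * q = q) : q * p = q := by
  have := congrArg star h
  rwa [star_mul, hp.isSelfAdjoint.star_eq, hq.isSelfAdjoint.star_eq] at this

theorem cmp_half (h : II1 N ξ τ) {p : H →L[ℂ] H} (hp : p ∈ N) (hp' : IsStarProjection p)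
    (h0 : p ≠ 0) : ∃ q ∈ N, IsStarProjection q ∧ p * q = q ∧ q ≠ 0 ∧
      (τ q).re ≤ (τ p).re * (1 / 2) := by
  obtain ⟨q, hq, hq', hpq, q0, qp⟩ := h.diffuse p hp hp' h0
  by_cases hc : (τ q).re ≤ (τ p).re * (1 / 2)
  · exact ⟨q, hq, hq', hpq, q0, hc⟩
  · refine ⟨p - q, sub_mem hp hq, hq'.sub_of_mul_eq_right hp' hpq, ?_,
      sub_ne_zero.2 qp.symm, ?_⟩
    · rw [mul_sub, hp'.isIdempotentElem.eq, hpq]
    · rw [cmp_sub h]
      linarith [not_le.1 hc]

theorem cmp_small (h : II1 N ξ τ) {p : H →L[ℂ] H} (hp : p ∈ N) (hp' : IsStarProjection p)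
    (h0 : p ≠ 0) {δ : ℝ} (hδ : 0 < δ) :
    ∃ q ∈ N, IsStarProjection q ∧ p * q = q ∧ q ≠ 0 ∧ (τ q).re ≤ δ := by
  have key : ∀ n : ℕ, ∃ q ∈ N, IsStarProjection q ∧ p * q = q ∧ q ≠ 0 ∧
      (τ q).re ≤ (τ p).re * (1 / 2) ^ n := fun n => by
    induction n with
    | zero => exact ⟨p, hp, hp', hp'.isIdempotentElem.eq, h0, by simp⟩
    | succ n ih =>
      obtain ⟨q, hq, hq', hpq, q0, hle⟩ := ih
      obtain ⟨u, hu, hu', hqu, u0, hle'⟩ := cmp_half h hq hq' q0
      refine ⟨u, hu, hu', by rw [← hqu, ← mul_assoc, hpq], u0, hle'.trans ?_⟩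
      rw [pow_succ, ← mul_assoc]
      linarith
  have ht : Tendsto (fun n : ℕ => (τ p).re * (1 / 2 : ℝ) ^ n) atTop (𝓝 ((τ p).re * 0)) :=
    (tendsto_pow_atTop_nhds_zero_of_lt_one (by norm_num) (by norm_num)).const_mul _
  rw [mul_zero] at ht
  obtain ⟨n, hn⟩ := (ht.eventually (gt_mem_nhds hδ)).exists
  obtain ⟨q, hq, hq', hpq, q0, hle⟩ := key n
  exact ⟨q, hq, hq', hpq, q0, hle.trans hn.le⟩

omit [CompleteSpace H] in
theorem cmp_left {v : ℕ → H →L[ℂ] H} {w r : H →L[ℂ] H} (hv : ∀ n, r * v n = v n)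
    (hw : ∀ ζ, Tendsto (fun n => v n ζ) atTop (𝓝 (w ζ))) : r * w = w := by
  ext ζ
  have h1 : Tendsto (fun n => r (v n ζ)) atTop (𝓝 (r (w ζ))) :=
    (r.continuous.tendsto _).comp (hw ζ)
  exact tendsto_nhds_unique (h1.congr fun n => DFunLike.congr_fun (hv n) ζ) (hw ζ)

omit [CompleteSpace H] in
theorem cmp_right {v : ℕ → H →L[ℂ] H} {w r : H →L[ℂ] H} (hv : ∀ n, v n * r = v n)
    (hw : ∀ ζ, Tendsto (fun n => v n ζ) atTop (𝓝 (w ζ))) : w * r = w := by
  ext ζ
  exact tendsto_nhds_unique ((hw (r ζ)).congr fun n => DFunLike.congr_fun (hv n) ζ) (hw ζ)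

theorem cmp_proj {v : ℕ → H →L[ℂ] H} {w : H →L[ℂ] H} (hv : ∀ n, IsStarProjection (v n))
    (hw : ∀ ζ, Tendsto (fun n => v n ζ) atTop (𝓝 (w ζ))) : IsStarProjection w := by
  have h1 : star w * w = w := by
    ext ζ
    refine ext_inner_left ℂ fun η => ?_
    have e1 : ∀ n, inner ℂ (v n η) (v n ζ) = inner ℂ η (v n ζ) := fun n => by
      rw [← ContinuousLinearMap.adjoint_inner_right, ← ContinuousLinearMap.star_eq_adjoint,
        (hv n).isSelfAdjoint.star_eq, ← mul_apply_eq_comp,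
        (hv n).isIdempotentElem.eq]
    rw [mul_apply_eq_comp, ContinuousLinearMap.star_eq_adjoint,
      ContinuousLinearMap.adjoint_inner_right]
    exact tendsto_nhds_unique (((hw η).inner (hw ζ)).congr e1) (tendsto_const_nhds.inner (hw ζ))
  have h2 : star w = w := by rw [← h1, star_mul, star_star]
  exact ⟨by rw [h2] at h1; exact h1, h2⟩

theorem cmp_conn (h : II1 N ξ τ) {e f : H →L[ℂ] H} (he : e ∈ N) (he0 : e ≠ 0) (hf0 : f ≠ 0) :
    ∃ a ∈ N, e * a * f ≠ 0 := by
  by_contra hc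
  push Not at hc
  let K : Submodule ℂ H :=
    { carrier := {ζ | ∀ a ∈ N, e (a ζ) = 0}
      add_mem' := fun {x y} hx hy a ha => by rw [map_add, map_add, hx a ha, hy a ha, add_zero]
      zero_mem' := fun a _ => by rw [map_zero, map_zero]
      smul_mem' := fun c x hx a ha => by rw [map_smul, map_smul, hx a ha, smul_zero] }
  have hm : ∀ ζ, ζ ∈ K ↔ ∀ a ∈ N, e (a ζ) = 0 := fun _ => Iff.rfl
  have hK : IsClosed (K : Set H) := by
    have : (K : Set H) = ⋂ a ∈ N, {ζ | e (a ζ) = 0} := by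
      ext ζ
      simp only [SetLike.mem_coe, hm, Set.mem_iInter, Set.mem_ofPred_eq]
    rw [this]
    exact isClosed_biInter fun a _ =>
      isClosed_eq (e.continuous.comp a.continuous) continuous_const
  have : CompleteSpace K := hK.completeSpace_coe
  have hP : IsStarProjection K.starProjection := isStarProjection_starProjection
  have h1 : K.starProjection ∈ N :=
    (VonNeumannAlgebra.IsStarProjection.mem_iff hP N).2 fun y hy => by
      rw [Submodule.range_starProjection, Module.End.mem_invtSubmodule]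
      intro ζ hζ a ha
      have h2 : e (a (y ζ)) = y (e (a ζ)) :=
        DFunLike.congr_fun (VonNeumannAlgebra.mem_commutant_iff.1 hy _ (mul_mem he ha)) ζ
      exact h2.trans (by rw [hζ a ha, map_zero])
  have h2 : K.starProjection ∈ N.commutant :=
    (VonNeumannAlgebra.IsStarProjection.mem_iff hP _).2 fun y hy => by
      rw [VonNeumannAlgebra.commutant_commutant] at hy
      rw [Submodule.range_starProjection, Module.End.mem_invtSubmodule]
      intro ζ hζ a ha
      exact hζ (a * y) (mul_mem ha hy)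
  obtain ⟨c, hc'⟩ := h.factor _ h1 fun x hx =>
    (VonNeumannAlgebra.mem_commutant_iff.1 h2 x hx).symm
  obtain ⟨ζ, hζ⟩ : ∃ ζ, f ζ ≠ 0 := by
    by_contra h3
    push Not at h3
    exact hf0 (ContinuousLinearMap.ext h3)
  have h3 : K.starProjection (f ζ) = f ζ :=
    Submodule.starProjection_eq_self_iff.2 fun a ha => DFunLike.congr_fun (hc a ha) ζ
  have h4 : c = 1 := by
    rw [hc'] at h3
    exact smul_left_injective ℂ hζ (h3.trans (one_smul ℂ _).symm)
  refine he0 (ContinuousLinearMap.ext fun η => ?_)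
  have h5 : η ∈ K := Submodule.starProjection_eq_self_iff.1 (by rw [hc', h4, one_smul]; rfl)
  exact h5 1 (one_mem N)

theorem cmp_piece (h : II1 N ξ τ) {e f : H →L[ℂ] H} (he : e ∈ N) (hf : f ∈ N)
    (he' : IsStarProjection e) (hf' : IsStarProjection f) (he0 : e ≠ 0) (hf0 : f ≠ 0) :
    ∃ u ∈ N, u * star u * u = u ∧ u * e = u ∧ f * u = u ∧ u ≠ 0 := by
  obtain ⟨a, ha, hx⟩ := cmp_conn h he he0 hf0
  have hn : 0 < ‖e * a * f‖ ^ 2 := pow_pos (norm_pos_iff.2 hx) 2
  obtain ⟨s, -, v, hv, hs, hvs, h1, h2, h3⟩ :=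
    exists_cut (mul_mem (mul_mem he ha) hf) (half_pos hn)
  have e1 : e * s = s := by
    have := h1 (1 - e) (by rw [← mul_assoc, ← mul_assoc, he'.one_sub_mul_self, zero_mul, zero_mul])
    rw [sub_mul, one_mul, sub_eq_zero] at this
    exact this.symm
  have e2 : f * v = v := by
    have := h2 (1 - f) (by
      rw [star_mul, hf'.isSelfAdjoint.star_eq, ← mul_assoc, hf'.one_sub_mul_self, zero_mul])
    rw [sub_mul, one_mul, sub_eq_zero] at this
    exact this.symm
  have e3 : v * s = v := by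
    have : star (v * (1 - s)) * (v * (1 - s)) = 0 := by
      rw [star_mul, mul_assoc, ← mul_assoc (star v), hvs, hs.mul_one_sub_self, mul_zero]
    have := (CStarRing.star_mul_self_eq_zero_iff _).1 this
    rw [mul_sub, mul_one, sub_eq_zero] at this
    exact this.symm
  refine ⟨v, hv, by rw [mul_assoc, hvs, e3], ?_, e2, fun h0 => ?_⟩
  · rw [← e3, mul_assoc, cmp_flip he' hs e1]
  · rw [h0, mul_zero] at hvs
    rw [← hvs, sub_zero, one_mul] at h3
    linarith

theorem II1.div (h : II1 N ξ τ) {r : H →L[ℂ] H} (hr : r ∈ N) (hr' : IsStarProjection r) {s : ℝ}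
    (h0 : 0 ≤ s) (h1 : s ≤ (τ r).re) :
    ∃ e ∈ N, IsStarProjection e ∧ r * e = e ∧ (τ e).re = s := by
  obtain ⟨e, ⟨he, he', hre, hle⟩, hmax⟩ := h.exists_max
    {e | e ∈ N ∧ IsStarProjection e ∧ r * e = e ∧ (τ e).re ≤ s}
    ⟨0, zero_mem N, IsStarProjection.zero _, mul_zero r, (cmp_zero h).trans_le h0⟩
    (fun v hv => ⟨hv.1, by
      rw [hv.2.1.isSelfAdjoint.star_eq, hv.2.1.isIdempotentElem.eq, hv.2.1.isIdempotentElem.eq]⟩)
    (fun v w hv hw _ hl _ => ⟨hw, cmp_proj (fun n => (hv n).2.1) hl,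
      cmp_left (fun n => (hv n).2.2.1) hl,
      le_of_tendsto' ((Complex.continuous_re.tendsto _).comp
        (h.normal v 1 (fun n => (hv n).2.1.norm_le _) w hl)) fun n => (hv n).2.2.2⟩)
  refine ⟨e, he, he', hre, le_antisymm hle (not_lt.1 fun hlt => ?_)⟩
  have hd : IsStarProjection (r - e) := he'.sub_of_mul_eq_right hr' hre
  have hd0 : r - e ≠ 0 := fun h2 => by
    rw [sub_eq_zero.1 h2] at h1
    linarith
  obtain ⟨q, hq, hq', hdq, q0, hqle⟩ := cmp_small h (sub_mem hr he) hd hd0 (sub_pos.2 hlt)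
  have e1 : e * q = 0 := by
    rw [← hdq, ← mul_assoc, mul_sub, cmp_flip hr' he' hre, he'.isIdempotentElem.eq, sub_self,
      zero_mul]
  have e2 : q * e = 0 := by
    have := congrArg star e1
    rwa [star_mul, he'.isSelfAdjoint.star_eq, hq'.isSelfAdjoint.star_eq, star_zero] at this
  have e3 : r * q = q := by rwa [sub_mul, e1, sub_zero] at hdq
  have := hmax (e + q) ⟨add_mem he hq, he'.add hq' e1, by rw [mul_add, hre, e3], by
    rw [cmp_add h]; linarith⟩ (by
      rw [he'.isSelfAdjoint.star_eq, he'.isIdempotentElem.eq, add_mul, he'.isIdempotentElem.eq,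
        e2, add_zero])
  exact q0 (add_eq_left.1 this)

theorem II1.cmp (h : II1 N ξ τ) {e f : H →L[ℂ] H} (he : e ∈ N) (hf : f ∈ N)
    (he' : IsStarProjection e) (hf' : IsStarProjection f) (hef : (τ e).re = (τ f).re) :
    ∃ v ∈ N, star v * v = e ∧ v * star v = f := by
  obtain ⟨v, ⟨hv, hvv, hve, hfv⟩, hmax⟩ := h.exists_max
    {v | v ∈ N ∧ v * star v * v = v ∧ v * e = v ∧ f * v = v}
    ⟨0, zero_mem N, mul_zero _, zero_mul e, mul_zero f⟩ (fun v hv => ⟨hv.1, hv.2.1⟩)
    (fun v w hv hw hww hl _ => ⟨hw, hww, cmp_right (fun n => (hv n).2.2.1) hl,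
      cmp_left (fun n => (hv n).2.2.2) hl⟩)
  have hp : IsStarProjection (star v * v) :=
    ⟨by rw [IsIdempotentElem, mul_assoc, ← mul_assoc v, hvv], IsSelfAdjoint.star_mul_self v⟩
  have hq : IsStarProjection (v * star v) :=
    ⟨by rw [IsIdempotentElem, ← mul_assoc, hvv], IsSelfAdjoint.mul_star_self v⟩
  have hpe : star v * v * e = star v * v := by rw [mul_assoc, hve]
  have hfq : f * (v * star v) = v * star v := by rw [← mul_assoc, hfv]
  have hE : IsStarProjection (e - star v * v) := hp.sub_of_mul_eq_left he' hpe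
  have hF : IsStarProjection (f - v * star v) := hq.sub_of_mul_eq_right hf' hfq
  have hEN := sub_mem he (mul_mem (star_mem hv) hv)
  have hFN := sub_mem hf (mul_mem hv (star_mem hv))
  have ht : (τ (e - star v * v)).re = (τ (f - v * star v)).re := by
    rw [cmp_sub h, cmp_sub h, hef, h.comm _ (star_mem hv) _ hv]
  have hE0 : e - star v * v = 0 := by
    by_contra hE0
    have hF0 : f - v * star v ≠ 0 := fun h0 =>
      hE0 (h.proj_zero hEN hE (by rw [ht, h0, cmp_zero h]))
    obtain ⟨u, hu, huu, hue, hfu, u0⟩ := cmp_piece h hEN hFN hE hF hE0 hF0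
    have a1 : u * e = u := by
      rw [← hue, mul_assoc, sub_mul, he'.isIdempotentElem.eq, hpe]
    have a2 : f * u = u := by
      rw [← hfu, ← mul_assoc, mul_sub, hf'.isIdempotentElem.eq, hfq]
    have a3 : u * (star v * v) = 0 := by rwa [mul_sub, a1, sub_eq_self] at hue
    have a4 : v * star v * u = 0 := by rwa [sub_mul, a2, sub_eq_self] at hfu
    have hs : star v * (v * star v) = star v := by
      have := congrArg star hvv
      rwa [star_mul, star_mul, star_star] at this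
    have a5 : u * star v = 0 := by rw [← hs, ← mul_assoc (star v), ← mul_assoc, a3, zero_mul]
    have a6 : star v * u = 0 := by rw [← hs, mul_assoc, a4, mul_zero]
    have a7 : v * star u = 0 := by
      have := congrArg star a5
      rwa [star_mul, star_star, star_zero] at this
    have a8 : star u * v = 0 := by
      have := congrArg star a6
      rwa [star_mul, star_star, star_zero] at this
    have := hmax (v + u) ⟨add_mem hv hu, by
      rw [star_add, add_mul v, mul_add v, mul_add u, a7, a5, add_zero, zero_add, add_mul,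
        mul_add, mul_add, hvv, huu, a4, mul_assoc u, a8, mul_zero, add_zero, zero_add],
      by rw [add_mul, hve, a1], by rw [mul_add, hfv, a2]⟩
      (by rw [add_mul, a3, add_zero, ← mul_assoc, hvv])
    exact u0 (add_eq_left.1 this)
  have hF0 : f - v * star v = 0 := h.proj_zero hFN hF (by rw [← ht, hE0, cmp_zero h])
  exact ⟨v, hv, (sub_eq_zero.1 hE0).symm, (sub_eq_zero.1 hF0).symm⟩

end Pool.Agent.Lib.MP_64d6f1_an.II
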