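import Pool.Agent.Lib.MP_64d6f1_an.II.Step

/-! Almost independent partitions are close to independent ones. -/

namespace Pool.Agent.Lib.MP_64d6f1_an.II

/-- The potential estimate for one step. -/
theorem core_pot {ι κ : Type} [Fintype ι] [Fintype κ] (γ γ' w : ι → κ → ℝ) {n η E : ℝ}
    (hn : 0 < n) (hη : 0 < η) (hw : ∀ a b, 0 ≤ w a b ∧ w a b ≤ 1)
    (h5 : ∀ a b, |γ a b - γ' a b| ≤ 5 * η)
    (h : 2 / n * ∑ a, ∑ b, (γ a b - n * η * w a b) * γ a b
        - η * ∑ a, ∑ b, (γ a b - n * η * w a b) * w a b - E ≤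
      ∑ a, ∑ b, (γ a b - n * η * w a b) * (γ a b - γ' a b)) :
    ∑ a, ∑ b, (γ' a b - (n - 1) * η * w a b) ^ 2 ≤
      ∑ a, ∑ b, (γ a b - n * η * w a b) ^ 2 +
        (2 * E + 36 * Fintype.card ι * Fintype.card κ * η ^ 2) := by
  have e1 : 2 / n * ∑ a, ∑ b, (γ a b - n * η * w a b) * γ a b =
      2 / n * ∑ a, ∑ b, (γ a b - n * η * w a b) ^ 2 +
        2 * η * ∑ a, ∑ b, (γ a b - n * η * w a b) * w a b := by
    simp only [Finset.mul_sum, ← Finset.sum_add_distrib]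
    refine Finset.sum_congr rfl fun a _ => Finset.sum_congr rfl fun b _ => ?_
    field_simp
    ring
  have e2 : 0 ≤ 2 / n * ∑ a, ∑ b, (γ a b - n * η * w a b) ^ 2 := by positivity
  have e3 : ∑ a, ∑ b, (γ' a b - (n - 1) * η * w a b) ^ 2 ≤
      ∑ a, ∑ b, ((γ a b - n * η * w a b) ^ 2
        - 2 * ((γ a b - n * η * w a b) * (γ a b - γ' a b))
        + 2 * η * ((γ a b - n * η * w a b) * w a b) + 36 * η ^ 2) := by
    refine Finset.sum_le_sum fun a _ => Finset.sum_le_sum fun b _ => ?_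
    have h1 := abs_le.1 (h5 a b)
    have h2 : 0 ≤ η * w a b := mul_nonneg hη.le (hw a b).1
    have h3 : η * w a b ≤ η := mul_le_of_le_one_right hη.le (hw a b).2
    have h4 : (γ a b - γ' a b - η * w a b) ^ 2 ≤ (6 * η) ^ 2 :=
      sq_le_sq' (by linarith [h1.1]) (by linarith [h1.2])
    nlinarith [h4]
  simp only [Finset.sum_add_distrib, Finset.sum_sub_distrib, ← Finset.mul_sum, Finset.sum_const,
    Finset.card_univ, nsmul_eq_mul] at e3
  rw [e1] at h
  nlinarith [e3, e2, h]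

theorem core_le_one {A ι : Type} [CStarAlgebra A] [Fintype ι] (F : Fac A) {p : ι → A}
    (hp : PVM p) : (∀ a, 0 ≤ F.t (p a) ∧ F.t (p a) ≤ 1) ∧ ∑ a, F.t (p a) = 1 :=
  ⟨fun a => ⟨F.t_proj_nonneg (hp.proj a), F.t_proj_le_one (hp.proj a)⟩, by
    rw [← map_sum, hp.sum, F.t_one]⟩

/-- The iteration of the step. -/
theorem core_iter {A ι κ : Type} [CStarAlgebra A] [Fintype ι] [Fintype κ] (F : Fac A)
    {p : ι → A} {q : κ → A} (hp : PVM p) (hq : PVM q) {j N K : ℕ} {η S C : ℝ} (hη : 0 < η)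
    (hN : (N : ℝ) * η = 1) (hK : 2 * K ≤ N) (hj : j < K)
    (hc : ∀ b, F.t (q b) = 0 ∨ 1 ≤ j * F.t (q b))
    (hC : C = 4 * (4 * Fintype.card ι * j + 1) + 36 * Fintype.card ι * Fintype.card κ)
    (h0 : ∑ a, ∑ b, (F.t (p a * q b) - F.t (p a) * F.t (q b)) ^ 2 ≤ S)
    (h1 : S + K * C * η ^ 2 ≤ 1) :
    ∀ k : ℕ, k ≤ K → ∃ (g : A) (q' : κ → A),
      St F p (fun a => F.t (p a)) (fun b => F.t (q b)) (((N : ℝ) - k) * η) g q' ∧
      (∀ b y, |F.t (y * (q' b - q b))| ≤ 8 * k * η * ‖y‖) ∧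
      ∑ a, ∑ b, (F.t (g * p a * q' b) - ((N : ℝ) - k) * η * (F.t (p a) * F.t (q b))) ^ 2 ≤
        S + k * C * η ^ 2 := by
  obtain ⟨hα, sα⟩ := core_le_one F hp
  obtain ⟨hβ, sβ⟩ := core_le_one F hq
  have hC0 : 0 ≤ C := by rw [hC]; positivity
  intro k
  induction k with
  | zero =>
    intro _
    refine ⟨1, q, ⟨hq, IsStarProjection.one A, fun a => by simp, fun b => by simp,
      fun a => by simp [hN], fun b => by simp [hN]⟩, fun b y => by simp, ?_⟩
    simpa [hN] using h0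
  | succ k ih =>
    intro hk
    obtain ⟨g, q', hst, hmv, hD⟩ := ih (by omega)
    have hn : ((N - k : ℕ) : ℝ) = (N : ℝ) - k := Nat.cast_sub (by omega)
    have hn0 : (0 : ℝ) < ((N - k : ℕ) : ℝ) := by
      have : 0 < N - k := by omega
      exact_mod_cast this
    rw [← hn] at hst hD
    have hkK : (k : ℝ) ≤ K := by exact_mod_cast (by omega : k ≤ K)
    have hle : S + k * C * η ^ 2 ≤ 1 := by
      have : (k : ℝ) * C * η ^ 2 ≤ K * C * η ^ 2 := by gcongr
      linarith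
    have hD1 : ∀ a b, |F.t (g * p a * q' b) -
        ((N - k : ℕ) : ℝ) * η * (F.t (p a) * F.t (q b))| ≤ 1 := by
      intro a b
      rw [← sq_le_one_iff_abs_le_one]
      refine le_trans ?_ (hD.trans hle)
      refine le_trans ?_ (Finset.single_le_sum (f := fun a => ∑ b, (F.t (g * p a * q' b) -
        ((N - k : ℕ) : ℝ) * η * (F.t (p a) * F.t (q b))) ^ 2)
        (fun a _ => Finset.sum_nonneg fun b _ => sq_nonneg _) (Finset.mem_univ a))
      exact Finset.single_le_sum (f := fun b => (F.t (g * p a * q' b) -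
        ((N - k : ℕ) : ℝ) * η * (F.t (p a) * F.t (q b))) ^ 2)
        (fun b _ => sq_nonneg _) (Finset.mem_univ b)
    obtain ⟨g', q'', hst', hmv', h5, hmain⟩ := F.step hp (fun a => (hα a).1) (fun b => (hβ b).1)
      sα sβ hη (n := N - k) (j := j) (by omega) hc hst _ hD1
    have hpot := core_pot (fun a b => F.t (g * p a * q' b)) (fun a b => F.t (g' * p a * q'' b))
      (fun a b => F.t (p a) * F.t (q b)) hn0 hη
      (fun a b => ⟨mul_nonneg (hα a).1 (hβ b).1, mul_le_one₀ (hα a).2 (hβ b).1 (hβ b).2⟩) h5 hmain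
    have e : ((N - k : ℕ) : ℝ) - 1 = (N : ℝ) - ((k + 1 : ℕ) : ℝ) := by
      rw [hn]
      push_cast
      ring
    rw [e] at hst' hpot
    refine ⟨g', q'', hst', fun b y => ?_, hpot.trans ?_⟩
    · have e2 : y * (q'' b - q b) = y * (q'' b - q' b) + y * (q' b - q b) := by
        rw [← mul_add, sub_add_sub_cancel]
      rw [e2, map_add]
      refine (abs_add_le _ _).trans ?_
      have a1 := hmv' b y
      have a2 := hmv b y
      push_cast
      linarith
    · have hNK : 2 * (K : ℝ) ≤ N := by exact_mod_cast hK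
      have hinv : 1 ≤ 2 * η * ((N - k : ℕ) : ℝ) := by
        rw [hn]
        nlinarith
      have hE : (4 * (Fintype.card ι : ℝ) * j + 1) * η / ((N - k : ℕ) : ℝ) ≤
          (4 * (Fintype.card ι : ℝ) * j + 1) * (2 * η ^ 2) := by
        rw [div_le_iff₀ hn0, mul_assoc (4 * (Fintype.card ι : ℝ) * j + 1)]
        refine mul_le_mul_of_nonneg_left ?_ (by positivity)
        nlinarith
      push_cast
      rw [hC] at hD ⊢
      linarith

theorem core0 (ι κ : Type) [Fintype ι] [Fintype κ] (j : ℕ) {ρ : ℝ} (hρ : 0 < ρ) :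
    ∃ ε : ℝ, 0 < ε ∧ ∀ (A : Type) [CStarAlgebra A] (F : Fac A) (p : ι → A) (q : κ → A),
      PVM p → PVM q → (∀ a, F.t (p a) = 0 ∨ 1 ≤ j * F.t (p a)) →
      (∀ b, F.t (q b) = 0 ∨ 1 ≤ j * F.t (q b)) →
      (∀ a b, |F.t (p a * q b) - F.t (p a) * F.t (q b)| ≤ ε) →
      ∃ (P : ι → A) (Q : κ → A), PVM P ∧ PVM Q ∧
        (∀ a b, F.t (P a * Q b) = F.t (P a) * F.t (Q b)) ∧
        (∀ a, F.t (star (P a - p a) * (P a - p a)) ≤ ρ) ∧
        ∀ b, F.t (star (Q b - q b) * (Q b - q b)) ≤ ρ := by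
  obtain ⟨L, hL2, hLρ⟩ : ∃ L : ℕ, 2 ≤ L ∧ 40 / (L : ℝ) ≤ ρ := by
    obtain ⟨L, hL⟩ := exists_nat_ge (40 / ρ)
    refine ⟨L + 2, by omega, ?_⟩
    rw [div_le_iff₀ (by positivity)]
    rw [div_le_iff₀ hρ] at hL
    push_cast
    nlinarith
  have hL0 : (0 : ℝ) < L := by exact_mod_cast (by omega : 0 < L)
  have hL1 : (2 : ℝ) ≤ L := by exact_mod_cast hL2
  obtain ⟨C, hC⟩ : ∃ C : ℝ,
      C = 4 * (4 * Fintype.card ι * j + 1) + 36 * Fintype.card ι * Fintype.card κ := ⟨_, rfl⟩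
  obtain ⟨δ, hδ⟩ : ∃ δ : ℝ, δ = 1 / (L * ((j : ℝ) + 1) ^ 2) := ⟨_, rfl⟩
  have hδ0 : 0 < δ := by rw [hδ]; positivity
  have hj0 : (0 : ℝ) ≤ j := Nat.cast_nonneg j
  have hδ1 : δ ≤ 1 := by
    rw [hδ, div_le_one (by positivity)]
    nlinarith [sq_nonneg (j : ℝ)]
  obtain ⟨K, hKj, hKC⟩ : ∃ K : ℕ, j < K ∧ C / (K * L ^ 2) ≤ δ ^ 2 / 2 := by
    obtain ⟨K, hK⟩ := exists_nat_ge (C / (δ ^ 2 / 2 * L ^ 2))
    refine ⟨K + j + 1, by omega, ?_⟩
    rw [div_le_iff₀ (by positivity)] at hK ⊢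
    have : (0 : ℝ) ≤ δ ^ 2 / 2 * L ^ 2 := by positivity
    push_cast
    nlinarith
  have hK0 : (0 : ℝ) < K := by exact_mod_cast (by omega : 0 < K)
  obtain ⟨c, hc⟩ : ∃ c : ℝ, c = Fintype.card ι * Fintype.card κ := ⟨_, rfl⟩
  have hc0 : 0 ≤ c := by rw [hc]; positivity
  refine ⟨δ / (c + 1), by positivity, fun A _ F p q hp hq hcp hcq hε => ?_⟩
  obtain ⟨hα, sα⟩ := core_le_one F hp
  obtain ⟨hβ, sβ⟩ := core_le_one F hq
  have h0 : ∑ a, ∑ b, (F.t (p a * q b) - F.t (p a) * F.t (q b)) ^ 2 ≤ δ ^ 2 / 2 := by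
    have a1 : ∑ a, ∑ b, (F.t (p a * q b) - F.t (p a) * F.t (q b)) ^ 2 ≤
        ∑ _a : ι, ∑ _b : κ, (δ / (c + 1)) ^ 2 :=
      Finset.sum_le_sum fun a _ => Finset.sum_le_sum fun b _ =>
        sq_le_sq' (abs_le.1 (hε a b)).1 (abs_le.1 (hε a b)).2
    simp only [Finset.sum_const, Finset.card_univ, nsmul_eq_mul] at a1
    rw [← mul_assoc, ← hc] at a1
    refine a1.trans ?_
    rw [div_pow, ← mul_div_assoc, div_le_div_iff₀ (by positivity) (by positivity)]
    have : c * 2 ≤ (c + 1) ^ 2 := by nlinarith [sq_nonneg c]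
    nlinarith [sq_nonneg δ]
  have hη : (0 : ℝ) < 1 / (K * L) := by positivity
  have e1 : (K : ℝ) * C * (1 / (K * L)) ^ 2 = C / (K * L ^ 2) := by field_simp
  have hS : δ ^ 2 / 2 + K * C * (1 / ((K : ℝ) * L)) ^ 2 ≤ δ ^ 2 := by
    rw [e1]
    linarith
  obtain ⟨g, q', hst, hmv, hD⟩ := core_iter F hp hq (j := j) (N := K * L) (K := K) hη
    (by push_cast; field_simp) (by nlinarith) hKj hcq hC h0 (hS.trans (by nlinarith)) K le_rfl
  have e2 : (((K * L : ℕ) : ℝ) - K) * (1 / (K * L)) = 1 - 1 / L := by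
    push_cast
    field_simp
  rw [e2] at hst hD
  have hle : ∀ a b, F.t (g * p a * q' b) ≤ F.t (p a) * F.t (q b) := by
    intro a b
    rcases hcp a with ha | ha
    · have : g * p a = 0 := F.t_proj_eq_zero (hst.hg.mul (hp.proj a) (hst.gp a))
        (by rw [hst.tp a, ha, mul_zero])
      rw [this, ha, zero_mul, zero_mul, map_zero]
    rcases hcq b with hb | hb
    · have : g * q' b = 0 := F.t_proj_eq_zero (hst.hg.mul (hst.hq.proj b) (hst.gq b))
        (by rw [hst.tq b, hb, mul_zero])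
      rw [hst.gp a, mul_assoc, this, hb, mul_zero, mul_zero, map_zero]
    have a1 : (F.t (g * p a * q' b) - (1 - 1 / L) * (F.t (p a) * F.t (q b))) ^ 2 ≤ δ ^ 2 := by
      refine le_trans ?_ (hD.trans hS)
      refine le_trans ?_ (Finset.single_le_sum (f := fun a => ∑ b, (F.t (g * p a * q' b) -
        (1 - 1 / L) * (F.t (p a) * F.t (q b))) ^ 2)
        (fun a _ => Finset.sum_nonneg fun b _ => sq_nonneg _) (Finset.mem_univ a))
      exact Finset.single_le_sum (f := fun b => (F.t (g * p a * q' b) -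
        (1 - 1 / L) * (F.t (p a) * F.t (q b))) ^ 2)
        (fun b _ => sq_nonneg _) (Finset.mem_univ b)
    have a2 := (abs_le_of_sq_le_sq' a1 hδ0.le).2
    have a3 : 1 ≤ (j * F.t (p a)) * (j * F.t (q b)) := one_le_mul_of_one_le_of_one_le ha hb
    have a4 : 0 ≤ F.t (p a) * F.t (q b) := mul_nonneg (hα a).1 (hβ b).1
    have a5 : δ ≤ 1 / L * (F.t (p a) * F.t (q b)) := by
      rw [hδ, div_le_iff₀ (by positivity)]
      have : 1 / (L : ℝ) * (F.t (p a) * F.t (q b)) * (L * ((j : ℝ) + 1) ^ 2) =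
          F.t (p a) * F.t (q b) * ((j : ℝ) + 1) ^ 2 := by field_simp
      rw [this]
      nlinarith
    linarith
  have hg : F.t (1 - g) = 1 / L := by
    have : F.t g = 1 - 1 / L := by
      rw [← mul_one g, ← hp.sum, Finset.mul_sum, map_sum]
      simp only [hst.tp]
      rw [← Finset.mul_sum, sα, mul_one]
    rw [map_sub, F.t_one, this]
    ring
  obtain ⟨P, Q, hP, hQ, hind, dP, dQ⟩ := F.fill hp hst.hq hst.hg hst.gp hst.gq _ _ sα sβ hle
  have e3 : 40 / (L : ℝ) = 40 * (1 / L) := by ring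
  have e4 : (0 : ℝ) < 1 / L := by positivity
  refine ⟨P, Q, hP, hQ, hind, fun a => ?_, fun b => ?_⟩
  · have := dP a
    rw [hg] at this
    linarith
  · have a1 := dQ b
    rw [hg] at a1
    have a2 := F.tri (Q b - q' b) (q' b - q b)
    rw [sub_add_sub_cancel] at a2
    have a3 := (abs_le.1 (hmv b (star (q' b - q b)))).2
    have a4 : ‖star (q' b - q b)‖ ≤ 2 := by
      rw [norm_star]
      refine (norm_sub_le _ _).trans ?_
      linarith [(hst.hq.proj b).norm_le, (hq.proj b).norm_le]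
    have a5 : 8 * (K : ℝ) * (1 / (K * L)) = 8 * (1 / L) := by field_simp
    rw [a5] at a3
    have a6 : 8 * (1 / (L : ℝ)) * ‖star (q' b - q b)‖ ≤ 8 * (1 / L) * 2 :=
      mul_le_mul_of_nonneg_left a4 (by positivity)
    linarith

theorem core (ι κ : Type) [Fintype ι] [Fintype κ] {ρ : ℝ} (hρ : 0 < ρ) :
    ∃ ε : ℝ, 0 < ε ∧ ∀ (A : Type) [CStarAlgebra A] (F : Fac A) (p : ι → A) (q : κ → A),
      PVM p → PVM q → (∀ a b, |F.t (p a * q b) - F.t (p a) * F.t (q b)| ≤ ε) →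
      ∃ (P : ι → A) (Q : κ → A), PVM P ∧ PVM Q ∧
        (∀ a b, F.t (P a * Q b) = F.t (P a) * F.t (Q b)) ∧
        (∀ a, F.t (star (P a - p a) * (P a - p a)) ≤ ρ) ∧
        ∀ b, F.t (star (Q b - q b) * (Q b - q b)) ≤ ρ := by
  classical
  obtain ⟨j, j1, j2, j3, j4⟩ : ∃ j : ℕ, Fintype.card ι ≤ j ∧ Fintype.card κ ≤ j ∧
      (Fintype.card ι : ℝ) / j ≤ ρ / 4 ∧ (Fintype.card κ : ℝ) / j ≤ ρ / 4 := by
    obtain ⟨j, hj⟩ := exists_nat_ge ((Fintype.card ι + Fintype.card κ : ℝ) / (ρ / 4))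
    rw [div_le_iff₀ (by positivity)] at hj
    have a1 : (0 : ℝ) ≤ Fintype.card ι := Nat.cast_nonneg _
    have a2 : (0 : ℝ) ≤ Fintype.card κ := Nat.cast_nonneg _
    have a3 : (0 : ℝ) ≤ j := Nat.cast_nonneg _
    refine ⟨j + Fintype.card ι + Fintype.card κ + 1, by omega, by omega, ?_, ?_⟩
    · rw [div_le_iff₀ (by positivity)]
      push_cast
      nlinarith
    · rw [div_le_iff₀ (by positivity)]
      push_cast
      nlinarith
  obtain ⟨ε, hε, H⟩ := core0 ι κ j (ρ := ρ / 4) (by positivity)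
  obtain ⟨c, hc⟩ : ∃ c : ℝ, c = Fintype.card ι * Fintype.card κ := ⟨_, rfl⟩
  have hc0 : 0 ≤ c := by rw [hc]; positivity
  refine ⟨ε / (c + 1), by positivity, fun A _ F p q hp hq h => ?_⟩
  obtain ⟨π, p', hp', ep, cp, dp⟩ := F.merge hp j1
  obtain ⟨σ, q', hq', eq, cq, dq⟩ := F.merge hq j2
  obtain ⟨P, Q, hP, hQ, hind, dP, dQ⟩ := H A F p' q' hp' hq' cp cq (by
    intro a b
    have e : F.t (p' a * q' b) - F.t (p' a) * F.t (q' b) =
        ∑ a' with π a' = a, ∑ b' with σ b' = b,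
          (F.t (p a' * q b') - F.t (p a') * F.t (q b')) := by
      rw [ep a, eq b, Finset.sum_mul_sum, map_sum, map_sum, map_sum, Finset.sum_mul_sum]
      simp only [map_sum, Finset.sum_sub_distrib]
    rw [e]
    have hη : 0 ≤ ε / (c + 1) := by positivity
    calc _ ≤ ∑ a' with π a' = a, ∑ b' with σ b' = b, ε / (c + 1) :=
          (Finset.abs_sum_le_sum_abs _ _).trans (Finset.sum_le_sum fun a' _ =>
            (Finset.abs_sum_le_sum_abs _ _).trans (Finset.sum_le_sum fun b' _ => h a' b'))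
      _ ≤ ∑ _a' : ι, ∑ _b' : κ, ε / (c + 1) :=
          (Finset.sum_le_sum fun _ _ => Finset.sum_le_sum_of_subset_of_nonneg
            (Finset.subset_univ _) fun _ _ _ => hη).trans
            (Finset.sum_le_sum_of_subset_of_nonneg (Finset.subset_univ _) fun _ _ _ =>
              Finset.sum_nonneg fun _ _ => hη)
      _ ≤ ε := by
          simp only [Finset.sum_const, Finset.card_univ, nsmul_eq_mul]
          rw [← mul_assoc, ← hc, ← mul_div_assoc, div_le_iff₀ (by positivity)]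
          nlinarith)
  refine ⟨P, Q, hP, hQ, hind, fun a => ?_, fun b => ?_⟩
  · have a1 := F.tri (P a - p' a) (p' a - p a)
    rw [sub_add_sub_cancel] at a1
    linarith [dP a, dp a]
  · have a1 := F.tri (Q b - q' b) (q' b - q b)
    rw [sub_add_sub_cancel] at a1
    linarith [dQ b, dq b]

end Pool.Agent.Lib.MP_64d6f1_an.II
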