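import Mathlib

/-! Tracial algebras with division and comparison of projections; factors of type two. -/

open scoped ComplexConjugate InnerProductSpace

namespace Pool.Agent.Lib.MP_64d6f1_an.II

/-- A faithful tracial state with division, comparison and range projections. -/
structure Fac (A : Type) [CStarAlgebra A] where
  /-- the trace -/
  τ : A →ₗ[ℂ] ℂ
  one : τ 1 = 1
  comm : ∀ a b, τ (a * b) = τ (b * a)
  herm : ∀ a, τ (star a) = conj (τ a)
  pos : ∀ a, 0 ≤ (τ (star a * a)).re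
  faith : ∀ a, τ (star a * a) = 0 → a = 0
  div : ∀ r, IsStarProjection r → ∀ s : ℝ, 0 ≤ s → s ≤ (τ r).re →
    ∃ e, IsStarProjection e ∧ r * e = e ∧ (τ e).re = s
  cmp : ∀ e f, IsStarProjection e → IsStarProjection f → (τ e).re = (τ f).re →
    ∃ v, star v * v = e ∧ v * star v = f
  rng : ∀ x, ∃ R, IsStarProjection R ∧ R * x = x ∧ (∀ y, y * x = 0 → y * R = 0) ∧
    ∀ e, IsStarProjection e → x * e = x → (τ R).re ≤ (τ e).re

/-- The real part of the trace. -/
noncomputable def Fac.t {A : Type} [CStarAlgebra A] (F : Fac A) : A →ₗ[ℝ] ℝ where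
  toFun x := (F.τ x).re
  map_add' x y := by rw [map_add, Complex.add_re]
  map_smul' c x := by
    rw [← Complex.coe_smul, map_smul, smul_eq_mul, Complex.re_ofReal_mul]
    rfl

theorem Fac.t_apply {A : Type} [CStarAlgebra A] (F : Fac A) (x : A) : F.t x = (F.τ x).re := rfl

/-- A finite partition of unity into projections. -/
structure PVM {A ι : Type} [CStarAlgebra A] [Fintype ι] (p : ι → A) : Prop where
  proj : ∀ a, IsStarProjection (p a)
  orth : ∀ a b, a ≠ b → p a * p b = 0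
  sum : ∑ a, p a = 1

/-- Continuous functions on the circle. -/
abbrev CT : Type := C(AddCircle (1 : ℝ), ℂ)

/-- A von Neumann algebra with a normal faithful tracial state, trivial centre and no minimal
projection. -/
structure II1 {H : Type} [NormedAddCommGroup H] [InnerProductSpace ℂ H] [CompleteSpace H]
    (N : VonNeumannAlgebra H) (ξ : ℕ → H) (τ : (H →L[ℂ] H) → ℂ) : Prop where
  summ : Summable fun i => ‖ξ i‖ ^ 2
  eq : ∀ x : H →L[ℂ] H, τ x = ∑' i, ⟪ξ i, x (ξ i)⟫_ℂ
  one : τ 1 = 1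
  comm : ∀ x ∈ N, ∀ y ∈ N, τ (x * y) = τ (y * x)
  faith : ∀ x ∈ N, τ (star x * x) = 0 → x = 0
  factor : ∀ z ∈ N, (∀ x ∈ N, z * x = x * z) → ∃ c : ℂ, z = c • 1
  diffuse : ∀ p ∈ N, IsStarProjection p → p ≠ 0 →
    ∃ q ∈ N, IsStarProjection q ∧ p * q = q ∧ q ≠ 0 ∧ q ≠ p

end Pool.Agent.Lib.MP_64d6f1_an.II
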