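import Pool.Agent.Lib.MP_64d6f1_an.II.Basic

/-! Averaging over the unitaries of a corner. -/

namespace Pool.Agent.Lib.MP_64d6f1_an.II

variable {A : Type} [CStarAlgebra A] (F : Fac A)

theorem dix_left {e u : A} (he : IsStarProjection e) (h : u * star u = e) : e * u = u := by
  have h1 : star u * e = star u := (pi_norm_le he (v := star u) (by rw [star_star, h])).2
  have h2 := congrArg star h1
  rwa [star_mul, star_star, he.isSelfAdjoint.star_eq] at h2

theorem dix_right {e w : A} (he : IsStarProjection e) (hw : IsSelfAdjoint w) (h : e * w = w) :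
    w * e = w := by
  have h2 := congrArg star h
  rwa [star_mul, hw.star_eq, he.isSelfAdjoint.star_eq] at h2

theorem dix_mul {e u v : A} (he : IsStarProjection e) (hu : star u * u = e ∧ u * star u = e)
    (hv : star v * v = e ∧ v * star v = e) :
    star (u * v) * (u * v) = e ∧ u * v * star (u * v) = e := by
  constructor
  · calc star (u * v) * (u * v) = star v * (star u * u * v) := by
          rw [star_mul]; noncomm_ring
      _ = e := by rw [hu.1, dix_left he hv.2, hv.1]
  · calc u * v * star (u * v) = u * (v * star v) * star u := by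
          rw [star_mul]; noncomm_ring
      _ = e := by rw [hv.2, (pi_norm_le he hu.1).2, hu.2]

theorem Fac.dix_t {e u w : A} (hu : u * star u = e) (h : e * w = w) :
    F.t (star u * w * u) = F.t w := by
  rw [F.t_comm, ← mul_assoc, hu, h]

theorem Fac.dix_sq {e u w : A} (hu : u * star u = e) (h : e * w = w) :
    F.t (star u * w * u * (star u * w * u)) = F.t (w * w) := by
  have h1 : star u * w * u * (star u * w * u) = star u * (w * (u * star u * w)) * u := by
    noncomm_ring
  rw [h1, hu, h, F.t_comm, ← mul_assoc, hu, ← mul_assoc, h]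

theorem Fac.dix_cs {e u w : A} (hu : u * star u = e)
    (hw : IsSelfAdjoint w) (h : e * w = w) : F.t (w * (star u * w * u)) ≤ F.t (w * w) := by
  have h0 := F.t_pos (w - star u * w * u)
  have h1 : star (w - star u * w * u) = w - star u * w * u := by
    rw [star_sub, star_mul, star_mul, star_star, hw.star_eq, mul_assoc]
  rw [h1, sub_mul, mul_sub, mul_sub, map_sub, map_sub, map_sub, F.dix_sq hu h,
    F.t_comm (star u * w * u) w] at h0
  linarith

theorem Fac.dix_half {e c d s : A} (he : IsStarProjection e) (hc : IsSelfAdjoint c)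
    (hd : IsSelfAdjoint d) (hs : IsStarProjection s) (hsc : s * (c * c) = c * c)
    (hes : e * s = s) (hed : e * (d * d) = d * d) (ht : 2 * F.t s ≤ F.t e) :
    ∃ u, (star u * u = e ∧ u * star u = e) ∧
      F.t ((c * c - d * d) * (star u * (c * c - d * d) * u)) ≤ F.t (d * d * (d * d)) := by
  have hse : s * e = s := dix_right he hs.isSelfAdjoint hes
  have hr : IsStarProjection (e - s) := hs.sub_of_mul_eq_left he hse
  have hss : s * s = s := hs.isIdempotentElem
  have hee : e * e = e := he.isIdempotentElem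
  obtain ⟨f, hf, hrf, htf⟩ := F.div (e - s) hr (F.t s) (F.t_proj_nonneg hs) (by
    rw [← F.t_apply, map_sub]; linarith)
  obtain ⟨v, hv1, hv2⟩ := F.cmp s f hs hf htf.symm
  have hff : f * f = f := hf.isIdempotentElem
  have hsf : s * f = 0 := by
    rw [← hrf, ← mul_assoc, mul_sub, hse, hss, sub_self, zero_mul]
  have hef : e * f = f := by
    have h := hrf
    rwa [sub_mul, hsf, sub_zero] at h
  have hfs : f * s = 0 := by
    have h := congrArg star hsf
    rwa [star_mul, hf.isSelfAdjoint.star_eq, hs.isSelfAdjoint.star_eq, star_zero] at h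
  have hfe : f * e = f := dix_right he hf.isSelfAdjoint hef
  have hvs : v * s = v := (pi_norm_le hs hv1).2
  have hfv : f * v = v := dix_left hf hv2
  have hsv : s * v = 0 := by rw [← hfv, ← mul_assoc, hsf, zero_mul]
  have hvf : v * f = 0 := by rw [← hvs, mul_assoc, hsf, mul_zero]
  have hev : e * v = v := by rw [← hfv, ← mul_assoc, hef]
  have hve : v * e = v := by rw [← hvs, mul_assoc, hse]
  have hvv : v * v = 0 := by
    calc v * v = v * s * (f * v) := by rw [hvs, hfv]
      _ = v * (s * f) * v := by noncomm_ring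
      _ = 0 := by rw [hsf, mul_zero, zero_mul]
  have a1 : s * star v = star v := by
    have h := congrArg star hvs
    rwa [star_mul, hs.isSelfAdjoint.star_eq] at h
  have a2 : star v * f = star v := by
    have h := congrArg star hfv
    rwa [star_mul, hf.isSelfAdjoint.star_eq] at h
  have a3 : star v * s = 0 := by
    have h := congrArg star hsv
    rwa [star_mul, hs.isSelfAdjoint.star_eq, star_zero] at h
  have a4 : f * star v = 0 := by
    have h := congrArg star hvf
    rwa [star_mul, hf.isSelfAdjoint.star_eq, star_zero] at h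
  have a5 : star v * e = star v := by
    have h := congrArg star hev
    rwa [star_mul, he.isSelfAdjoint.star_eq] at h
  have a6 : e * star v = star v := by
    have h := congrArg star hve
    rwa [star_mul, he.isSelfAdjoint.star_eq] at h
  have a7 : star v * star v = 0 := by rw [← star_mul, hvv, star_zero]
  obtain ⟨u, hu⟩ : ∃ u, u = v + star v + (e - s - f) := ⟨_, rfl⟩
  have hus : star u = u := by
    rw [hu, star_add, star_add, star_star, star_sub, star_sub, he.isSelfAdjoint.star_eq,
      hs.isSelfAdjoint.star_eq, hf.isSelfAdjoint.star_eq, add_comm (star v) v]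
  have huu : u * u = e := by
    rw [hu]
    simp only [mul_add, add_mul, mul_sub, sub_mul, hvv, hv1, hv2, a1, a2, a3, a4, a5, a6, a7, hev,
      hve, hsv, hvs, hfv, hvf, hee, hes, hse, hef, hfe, hss, hff, hsf, hfs]
    abel
  have hsus : s * u * s = 0 := by
    rw [hu]
    simp only [mul_add, add_mul, mul_sub, sub_mul, hsv, a1, a3, hse, hss, hsf, zero_mul]
    abel
  have hcs : c * c * s = c * c := by
    have h := congrArg star hsc
    rwa [star_mul, star_mul, hc.star_eq, hs.isSelfAdjoint.star_eq] at h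
  have hdd : IsSelfAdjoint (d * d) := by
    rw [IsSelfAdjoint, star_mul, hd.star_eq]
  refine ⟨u, ⟨by rw [hus, huu], by rw [hus, huu]⟩, ?_⟩
  have b4 := F.dix_cs (u := u) (e := e) (by rw [hus, huu]) hdd hed
  rw [hus] at b4 ⊢
  have b1 : c * c * (u * (c * c) * u) = 0 := by
    calc c * c * (u * (c * c) * u) = c * c * s * (u * (s * (c * c)) * u) := by rw [hcs, hsc]
      _ = c * c * (s * u * s) * (c * c) * u := by noncomm_ring
      _ = 0 := by rw [hsus, mul_zero, zero_mul, zero_mul]
  have b0 : ∀ p q : A, IsSelfAdjoint p → IsSelfAdjoint q →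
      0 ≤ F.t (p * p * (u * (q * q) * u)) := by
    intro p q hp hq
    have h := F.t_pos (q * u * p)
    rw [star_mul, star_mul, hp.star_eq, hq.star_eq, hus] at h
    have h1 : p * p * (u * (q * q) * u) = p * (p * (u * q) * (q * u)) := by noncomm_ring
    have h2 : p * (u * q) * (q * u * p) = p * (u * q) * (q * u) * p := by noncomm_ring
    rw [h1, F.t_comm, ← h2]
    exact h
  have b2 := b0 c d hc hd
  have b3 := b0 d c hd hc
  have b5 : (c * c - d * d) * (u * (c * c - d * d) * u) = c * c * (u * (c * c) * u)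
      - c * c * (u * (d * d) * u) - d * d * (u * (c * c) * u) + d * d * (u * (d * d) * u) := by
    noncomm_ring
  rw [b5, b1, map_add, map_sub, map_sub, map_zero]
  linarith

theorem Fac.dix_swap {e z : A} (he : IsStarProjection e) (hz : IsSelfAdjoint z) (hez : e * z = z)
    (ht : F.t z = 0) {B : ℝ} (hB : ‖z‖ ≤ B) : ∃ u, (star u * u = e ∧ u * star u = e) ∧
      F.t (z * z) ^ 2 ≤ 4 * B ^ 2 * (F.t (z * z) - F.t (z * (star u * z * u))) := by
  obtain ⟨c, d, hc, hd, hzz, hcd, hdc, nc, nd⟩ := exists_pm hz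
  have hcc : IsSelfAdjoint (c * c) := by rw [IsSelfAdjoint, star_mul, hc.star_eq]
  have hdd : IsSelfAdjoint (d * d) := by rw [IsSelfAdjoint, star_mul, hd.star_eq]
  have hze : z * (1 - e) = 0 := by rw [mul_sub, mul_one, dix_right he hz hez, sub_self]
  have h1 : c * c * (1 - e) = 0 := by
    have h2 : c * (c * c) * (1 - e) = 0 := by
      have h3 : c * z = c * (c * c) := by
        rw [hzz, mul_sub, ← mul_assoc c d, hcd, zero_mul, sub_zero]
      rw [← h3, mul_assoc, hze, mul_zero]
    apply F.eq_zero_of_t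
    have h4 : star (c * c * (1 - e)) * (c * c * (1 - e))
        = star (1 - e) * c * (c * (c * c) * (1 - e)) := by
      rw [star_mul, hcc.star_eq]; noncomm_ring
    rw [h4, h2, mul_zero, map_zero]
  have h1' : (1 - e) * (c * c) = 0 := by
    have h := congrArg star h1
    rwa [star_mul, hcc.star_eq, he.one_sub.isSelfAdjoint.star_eq, star_zero] at h
  have hec : e * (c * c) = c * c := by
    rw [sub_mul, one_mul, sub_eq_zero] at h1'
    exact h1'.symm
  have hed : e * (d * d) = d * d := by
    have h : d * d = c * c - z := by rw [hzz]; abel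
    rw [h, mul_sub, hec, hez]
  have cd0 : c * c * (d * d) = 0 := by
    rw [mul_assoc, ← mul_assoc c d, hcd, zero_mul, mul_zero]
  have dc0 : d * d * (c * c) = 0 := by
    rw [mul_assoc, ← mul_assoc d c, hdc, zero_mul, mul_zero]
  obtain ⟨p, hp, p1, p2, -⟩ := F.rng (c * c)
  obtain ⟨q, hq, q1, q2, -⟩ := F.rng (d * d)
  have hep : e * p = p := by
    have h := p2 (1 - e) (by rw [sub_mul, one_mul, hec, sub_self])
    rw [sub_mul, one_mul, sub_eq_zero] at h
    exact h.symm
  have heq : e * q = q := by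
    have h := q2 (1 - e) (by rw [sub_mul, one_mul, hed, sub_self])
    rw [sub_mul, one_mul, sub_eq_zero] at h
    exact h.symm
  have hpq : p * q = 0 := by
    apply q2
    have h := congrArg star (p2 _ dc0)
    rwa [star_mul, hdd.star_eq, hp.isSelfAdjoint.star_eq, star_zero] at h
  have hsum : F.t p + F.t q ≤ F.t e := by
    have h := F.t_proj_nonneg ((hp.add hq hpq).sub_of_mul_eq_right he
      (by rw [mul_add, hep, heq]))
    rw [map_sub, map_add] at h
    linarith
  have tz : F.t (z * z) = F.t (c * c * (c * c)) + F.t (d * d * (d * d)) := by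
    rw [hzz, sub_mul, mul_sub, mul_sub, cd0, dc0, sub_zero, zero_sub, sub_neg_eq_add, map_add]
  have ts : F.t (c * c) = F.t (d * d) := by
    rw [hzz, map_sub] at ht
    linarith
  have est : ∀ g : A, IsSelfAdjoint g → ‖g * g‖ ≤ ‖z‖ → 0 ≤ F.t (g * g) ∧
      0 ≤ F.t (g * g * (g * g)) ∧ F.t (g * g * (g * g)) ≤ B * F.t (g * g) ∧
      F.t (g * g) ^ 2 ≤ F.t (g * g * (g * g)) := by
    intro g hg ng
    have hgg : star (g * g) = g * g := by rw [star_mul, hg.star_eq]
    have e0 := F.t_pos g
    have e1 := F.t_pos (g * g)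
    have e2 := F.t_bound g (g * g)
    have e3 := F.t_cs 1 (g * g)
    rw [hg.star_eq] at e0 e2
    rw [hgg] at e1
    rw [hgg, star_one, one_mul, one_mul, F.t_one, one_mul] at e3
    refine ⟨e0, e1, ?_, e3⟩
    exact (le_abs_self _).trans (e2.trans (mul_le_mul_of_nonneg_right (ng.trans hB) e0))
  obtain ⟨c0, c1, c2, c3⟩ := est c hc nc
  obtain ⟨d0, d1, d2, d3⟩ := est d hd nd
  have hB0 : 0 ≤ B := (norm_nonneg z).trans hB
  have key : F.t (z * z) ^ 2 ≤ 4 * B ^ 2 * F.t (c * c) ^ 2 := by
    have h : F.t (z * z) ≤ 2 * B * F.t (c * c) := by rw [tz]; rw [← ts] at d2; linarith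
    have h' : 0 ≤ F.t (z * z) := by rw [tz]; linarith
    calc F.t (z * z) ^ 2 ≤ (2 * B * F.t (c * c)) ^ 2 := pow_le_pow_left₀ h' h 2
      _ = 4 * B ^ 2 * F.t (c * c) ^ 2 := by ring
  have hB2 : 0 ≤ 4 * B ^ 2 := by positivity
  rcases le_total (F.t p) (F.t q) with hle | hle
  · obtain ⟨u, hu, h⟩ := F.dix_half he hc hd hp p1 hep hed (by linarith)
    rw [← hzz] at h
    exact ⟨u, hu, key.trans (mul_le_mul_of_nonneg_left (by linarith) hB2)⟩
  · obtain ⟨u, hu, h⟩ := F.dix_half he hd hc hq q1 heq hec (by linarith)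
    have hn : d * d - c * c = -z := by rw [hzz]; abel
    rw [hn, mul_neg (star u), neg_mul (star u * z), neg_mul_neg] at h
    rw [ts] at key
    exact ⟨u, hu, key.trans (mul_le_mul_of_nonneg_left (by linarith) hB2)⟩

theorem Fac.dix_avg {e u w : A} (hu : u * star u = e) (h : e * w = w) :
    F.t ((1 / 2 : ℝ) • (w + star u * w * u) * (1 / 2 : ℝ) • (w + star u * w * u))
      = (F.t (w * w) + F.t (w * (star u * w * u))) / 2 := by
  rw [smul_mul_smul_comm, map_smul, add_mul, mul_add, mul_add, map_add, map_add, map_add,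
    F.dix_sq hu h, F.t_comm (star u * w * u) w, smul_eq_mul]
  ring

theorem Fac.dix_am {w : A} (hw : IsSelfAdjoint w) (y : A) (ε : ℝ) :
    2 * ε * F.t (w * y) ≤ F.t (w * w) + ε ^ 2 * F.t (star y * y) := by
  have h0 := F.t_pos (w - ε • y)
  have h1 : F.t (star y * w) = F.t (w * y) := by
    rw [← F.t_star, star_mul, star_star, hw.star_eq]
  rw [star_sub, star_smul, star_trivial ε, hw.star_eq, sub_mul, mul_sub, mul_sub, map_sub, map_sub,
    map_sub, mul_smul_comm, smul_mul_assoc, smul_mul_smul_comm, map_smul, map_smul, map_smul,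
    h1, smul_eq_mul, smul_eq_mul] at h0
  nlinarith

theorem Fac.dix_zero {ι : Type} [Fintype ι] {e : A} (he : IsStarProjection e)
    (z y : ι → A) (hz : ∀ a, IsSelfAdjoint (z a) ∧ e * z a = z a ∧ F.t (z a) = 0) {κ : ℝ}
    (hκ : 0 < κ) : ∃ u, star u * u = e ∧ u * star u = e ∧
      ∑ a, F.t (star u * z a * u * y a) ≤ κ := by
  obtain ⟨B, hB⟩ : ∃ B : ℝ, B = ‖z‖ + 1 := ⟨_, rfl⟩
  have hB0 : 0 < B := by rw [hB]; positivity
  let C : (ι → A) → Prop := fun w =>
    (∀ a, IsSelfAdjoint (w a) ∧ e * w a = w a ∧ F.t (w a) = 0 ∧ ‖w a‖ ≤ B) ∧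
    ∀ v, star v * v = e ∧ v * star v = e → ∃ u, (star u * u = e ∧ u * star u = e) ∧
      ∑ a, F.t (star u * z a * u * y a) ≤ ∑ a, F.t (star v * w a * v * y a)
  have Cz : C z := ⟨fun a => ⟨(hz a).1, (hz a).2.1, (hz a).2.2, by
    rw [hB]; linarith [norm_le_pi_norm z a]⟩, fun v hv => ⟨v, hv, le_rfl⟩⟩
  have Cs : ∀ w u, C w → star u * u = e ∧ u * star u = e →
      C fun a => (1 / 2 : ℝ) • (w a + star u * w a * u) := by
    intro w u hw hu
    refine ⟨fun a => ?_, fun v hv => ?_⟩
    · obtain ⟨w1, w2, w3, w4⟩ := hw.1 a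
      have nu : ‖u‖ ≤ 1 := (pi_norm_le he hu.1).1
      have eu : e * star u = star u := dix_left he (by rw [star_star, hu.1])
      refine ⟨?_, ?_, ?_, ?_⟩
      · show IsSelfAdjoint ((1 / 2 : ℝ) • (w a + star u * w a * u))
        rw [IsSelfAdjoint, star_smul, star_trivial (1 / 2 : ℝ), star_add, star_mul, star_mul,
          star_star, w1.star_eq, mul_assoc]
      · rw [mul_smul_comm, mul_add, w2, ← mul_assoc, ← mul_assoc, eu]
      · rw [map_smul, map_add, F.dix_t hu.2 w2, w3, add_zero, smul_zero]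
      · have n1 : ‖star u * w a * u‖ ≤ B := by
          calc ‖star u * w a * u‖ ≤ ‖star u‖ * ‖w a‖ * ‖u‖ :=
                (norm_mul_le _ _).trans (mul_le_mul_of_nonneg_right (norm_mul_le _ _)
                  (norm_nonneg _))
            _ ≤ 1 * B * 1 := by
                rw [norm_star]
                gcongr
            _ = B := by ring
        have n2 := norm_add_le (w a) (star u * w a * u)
        rw [norm_smul, Real.norm_eq_abs, abs_of_pos (by norm_num)]
        linarith
    · have hs : ∑ a, F.t (star v * (1 / 2 : ℝ) • (w a + star u * w a * u) * v * y a)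
          = (∑ a, F.t (star v * w a * v * y a)
            + ∑ a, F.t (star (u * v) * w a * (u * v) * y a)) / 2 := by
        rw [← Finset.sum_add_distrib, Finset.sum_div]
        refine Finset.sum_congr rfl fun a _ => ?_
        have h : star v * (w a + star u * w a * u) * v * y a
            = star v * w a * v * y a + star (u * v) * w a * (u * v) * y a := by
          rw [star_mul]; noncomm_ring
        rw [mul_smul_comm, smul_mul_assoc, smul_mul_assoc, map_smul, h, map_add, smul_eq_mul]
        ring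
      obtain ⟨u1, k1, l1⟩ := hw.2 v hv
      obtain ⟨u2, k2, l2⟩ := hw.2 (u * v) (dix_mul he hu hv)
      rcases le_total (∑ a, F.t (star u1 * z a * u1 * y a))
        (∑ a, F.t (star u2 * z a * u2 * y a)) with hle | hle
      · exact ⟨u1, k1, by rw [hs]; linarith⟩
      · exact ⟨u2, k2, by rw [hs]; linarith⟩
  have small : ∀ δ : ℝ, 0 < δ → ∃ w, C w ∧ ∑ a, F.t (w a * w a) < δ := by
    intro δ hδ
    by_contra hcon
    have hge : ∀ w, C w → δ ≤ ∑ a, F.t (w a * w a) := fun w hw =>
      not_lt.1 fun h => hcon ⟨w, hw, h⟩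
    obtain ⟨η, hη⟩ : ∃ η : ℝ, η = δ / (Fintype.card ι + 1) := ⟨_, rfl⟩
    have hη0 : 0 < η := by rw [hη]; positivity
    obtain ⟨g, hg⟩ : ∃ g : ℝ, g = η ^ 2 / (8 * B ^ 2) := ⟨_, rfl⟩
    have hg0 : 0 < g := by rw [hg]; positivity
    have step : ∀ w, C w → ∃ w', C w' ∧
        ∑ a, F.t (w' a * w' a) + g ≤ ∑ a, F.t (w a * w a) := by
      intro w hw
      obtain ⟨a, ha⟩ : ∃ a, η ≤ F.t (w a * w a) := by
        by_contra hn
        have h1 : ∑ a, F.t (w a * w a) ≤ ∑ _a : ι, η :=
          Finset.sum_le_sum fun a _ => (not_le.1 fun h => hn ⟨a, h⟩).le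
        rw [Finset.sum_const, Finset.card_univ, nsmul_eq_mul] at h1
        have h2 : η * (Fintype.card ι + 1) = δ := by rw [hη]; field_simp
        have h3 := hge w hw
        nlinarith
      obtain ⟨w1, w2, w3, w4⟩ := hw.1 a
      obtain ⟨u, hu, h⟩ := F.dix_swap he w1 w2 w3 w4
      refine ⟨_, Cs w u hw hu, ?_⟩
      have h4 : g ≤ (F.t (w a * w a) - F.t (w a * (star u * w a * u))) / 2 := by
        rw [hg, div_le_iff₀ (by positivity)]
        have h5 : η ^ 2 ≤ F.t (w a * w a) ^ 2 := pow_le_pow_left₀ hη0.le ha 2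
        linarith
      have h6 : (F.t (w a * w a) - F.t (w a * (star u * w a * u))) / 2
          ≤ ∑ b, (F.t (w b * w b) - F.t (w b * (star u * w b * u))) / 2 :=
        Finset.single_le_sum (f := fun b => (F.t (w b * w b)
          - F.t (w b * (star u * w b * u))) / 2) (fun b _ => by
            have h7 := F.dix_cs hu.2 (hw.1 b).1 (hw.1 b).2.1
            linarith) (Finset.mem_univ a)
      have h8 : ∑ b, F.t (w b * w b) = ∑ b, F.t ((1 / 2 : ℝ) • (w b + star u * w b * u)
          * (1 / 2 : ℝ) • (w b + star u * w b * u))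
          + ∑ b, (F.t (w b * w b) - F.t (w b * (star u * w b * u))) / 2 := by
        rw [← Finset.sum_add_distrib]
        refine Finset.sum_congr rfl fun b _ => ?_
        rw [F.dix_avg hu.2 (hw.1 b).2.1]
        ring
      rw [h8]
      linarith
    have iter : ∀ n : ℕ, ∃ w, C w ∧ ∑ a, F.t (w a * w a) + n * g ≤ ∑ a, F.t (z a * z a) := by
      intro n
      induction n with
      | zero => exact ⟨z, Cz, by simp⟩
      | succ n ih =>
        obtain ⟨w, hw, h⟩ := ih
        obtain ⟨w', hw', h'⟩ := step w hw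
        refine ⟨w', hw', ?_⟩
        push_cast
        linarith
    obtain ⟨n, hn⟩ := exists_nat_gt ((∑ a, F.t (z a * z a)) / g)
    obtain ⟨w, hw, h⟩ := iter n
    rw [div_lt_iff₀ hg0] at hn
    have h9 := hge w hw
    linarith
  obtain ⟨Y, hY⟩ : ∃ Y : ℝ, Y = ∑ a, F.t (star (y a) * y a) := ⟨_, rfl⟩
  have hY0 : 0 ≤ Y := by
    rw [hY]
    exact Finset.sum_nonneg fun a _ => F.t_pos _
  obtain ⟨ε, hε⟩ : ∃ ε : ℝ, ε = κ / (Y + 1) := ⟨_, rfl⟩
  have hε0 : 0 < ε := by rw [hε]; positivity
  have hε1 : ε * (Y + 1) = κ := by rw [hε]; field_simp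
  obtain ⟨w, hw, hJ⟩ := small (ε * κ) (by positivity)
  have hee : star e * e = e := by rw [he.isSelfAdjoint.star_eq]; exact he.isIdempotentElem
  have hee' : e * star e = e := by rw [he.isSelfAdjoint.star_eq]; exact he.isIdempotentElem
  obtain ⟨u, hu, h⟩ := hw.2 e ⟨hee, hee'⟩
  refine ⟨u, hu.1, hu.2, h.trans ?_⟩
  have h1 : ∑ a, F.t (star e * w a * e * y a) = ∑ a, F.t (w a * y a) :=
    Finset.sum_congr rfl fun a _ => by
      rw [he.isSelfAdjoint.star_eq, (hw.1 a).2.1, dix_right he (hw.1 a).1 (hw.1 a).2.1]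
  have h2 : 2 * ε * ∑ a, F.t (w a * y a) ≤ ∑ a, F.t (w a * w a) + ε ^ 2 * Y := by
    rw [hY, Finset.mul_sum, Finset.mul_sum, ← Finset.sum_add_distrib]
    exact Finset.sum_le_sum fun a _ => F.dix_am (hw.1 a).1 (y a) ε
  rw [h1]
  refine le_of_mul_le_mul_left ?_ (show 0 < 2 * ε by positivity)
  nlinarith

theorem Fac.dix {ι : Type} [Fintype ι] {e : A} (he : IsStarProjection e) (h0 : 0 < F.t e)
    (x y : ι → A) (hx : ∀ a, IsSelfAdjoint (x a) ∧ e * x a = x a) {κ : ℝ} (hκ : 0 < κ) :
    ∃ u, star u * u = e ∧ u * star u = e ∧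
      ∑ a, F.t (star u * x a * u * y a) ≤ ∑ a, F.t (x a) * F.t (e * y a) / F.t e + κ := by
  have hee : e * e = e := he.isIdempotentElem
  obtain ⟨u, u1, u2, h⟩ := F.dix_zero he (fun a => x a - (F.t (x a) / F.t e) • e) y (fun a => by
    refine ⟨?_, ?_, ?_⟩
    · rw [IsSelfAdjoint, star_sub, star_smul, star_trivial (F.t (x a) / F.t e), (hx a).1.star_eq,
        he.isSelfAdjoint.star_eq]
    · rw [mul_sub, mul_smul_comm, hee, (hx a).2]
    · rw [map_sub, map_smul, smul_eq_mul, div_mul_cancel₀ _ h0.ne', sub_self]) hκ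
  refine ⟨u, u1, u2, ?_⟩
  have h1 : ∑ a, F.t (star u * (x a - (F.t (x a) / F.t e) • e) * u * y a)
      = ∑ a, F.t (star u * x a * u * y a) - ∑ a, F.t (x a) * F.t (e * y a) / F.t e := by
    rw [← Finset.sum_sub_distrib]
    refine Finset.sum_congr rfl fun a _ => ?_
    rw [mul_sub, sub_mul, sub_mul, map_sub, mul_smul_comm, smul_mul_assoc, smul_mul_assoc,
      map_smul, mul_assoc (star u) e u, dix_left he u2, u1, smul_eq_mul]
    ring
  rw [h1] at h
  linarith

end Pool.Agent.Lib.MP_64d6f1_an.II
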