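import Pool.Agent.Lib.MP_64d6f1_an.II.Spec1
import Pool.Agent.Lib.MP_64d6f1_an.JointCFC

/-! A spectral partition for a unitary; unitaries with finite spectrum. -/

open Filter Topology

namespace Pool.Agent.Lib.MP_64d6f1_an.II

theorem spec2_succ (e : ℤ) : (fourier (e + 1) : CT) = fourier e * fourier 1 := by
  ext x; exact fourier_add

theorem spec2_pred (e : ℤ) : (fourier (e - 1) : CT) = fourier e * star (fourier 1) := by
  ext x; rw [sub_eq_add_neg, fourier_add, fourier_neg]; rfl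

theorem spec2_zero : (fourier 0 : CT) = 1 := by ext x; exact fourier_zero

theorem spec2_unitary : (fourier 1 : CT) ∈ unitary CT := by
  have : star (fourier 1 : CT) * fourier 1 = 1 := by
    rw [mul_comm, ← spec2_pred, sub_self, spec2_zero]
  exact ⟨this, by rwa [mul_comm]⟩

/-- The conclusion of the first step for the function `k`, with index set `ι`. -/
def spec2P (k : CT) (ρ : ℝ) (ι : Type) [Fintype ι] : Prop :=
  ∀ ε : ℝ, 0 < ε → ∃ G : Set CT, G.Finite ∧ (∀ g ∈ G, ‖g‖ ≤ 1) ∧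
    ∀ (A : Type) [CStarAlgebra A] (F : Fac A) (Φ : CT →⋆ₐ[ℂ] A),
      ∃ (s : ι → A) (lam : ι → ℝ), PVM s ∧
        (∀ i y, (∀ g, Φ g * y = y * Φ g) → s i * y = y * s i) ∧
        (∀ i, ‖(Φ k - (lam i : ℂ) • 1) * s i‖ ≤ ρ) ∧
        ∀ i, ∃ g ∈ G, ∀ y, ‖F.τ ((s i - Φ g) * y)‖ ≤ ε * ‖y‖

theorem spec2_pad {k : CT} {ρ : ℝ} (hρ : 0 ≤ ρ) {ι κ : Type} [Fintype ι] [Fintype κ] {e : ι → κ}
    (he : Function.Injective e) (h : spec2P k ρ ι) : spec2P k ρ κ := by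
  intro ε hε
  obtain ⟨G, h1, h2, h3⟩ := h ε hε
  refine ⟨insert 0 G, h1.insert _, ?_, fun A _ F Φ => ?_⟩
  · rintro g (rfl | hg)
    · simp
    · exact h2 g hg
  obtain ⟨s, lam, hs, a1, a2, a3⟩ := h3 A F Φ
  have c : ∀ j, (∃ i, j = e i ∧ Function.extend e s 0 j = s i ∧
      Function.extend e lam 0 j = lam i) ∨ (j ∉ Set.range e ∧ Function.extend e s 0 j = 0) := by
    intro j
    by_cases hj : ∃ i, e i = j
    · obtain ⟨i, rfl⟩ := hj
      exact Or.inl ⟨i, rfl, he.extend_apply _ _ _, he.extend_apply _ _ _⟩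
    · exact Or.inr ⟨hj, Function.extend_apply' _ _ _ hj⟩
  refine ⟨Function.extend e s 0, Function.extend e lam 0, ⟨fun j => ?_, fun j j' hj => ?_, ?_⟩,
    fun j y hy => ?_, fun j => ?_, fun j => ?_⟩
  · rcases c j with ⟨i, -, h4, -⟩ | ⟨-, h4⟩ <;> rw [h4]
    exacts [hs.proj i, .zero _]
  · rcases c j with ⟨i, rfl, h4, -⟩ | ⟨-, h4⟩
    · rcases c j' with ⟨i', rfl, h5, -⟩ | ⟨-, h5⟩
      · rw [h4, h5]
        exact hs.orth i i' fun h => hj (h ▸ rfl)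
      · rw [h5, mul_zero]
    · rw [h4, zero_mul]
  · rw [← hs.sum]
    exact (Fintype.sum_of_injective e he s (Function.extend e s 0)
      (fun j hj => Function.extend_apply' s (0 : κ → A) j hj)
      fun i => (he.extend_apply s 0 i).symm).symm
  · rcases c j with ⟨i, -, h4, -⟩ | ⟨-, h4⟩ <;> rw [h4]
    exacts [a1 i y hy, by rw [zero_mul, mul_zero]]
  · rcases c j with ⟨i, -, h4, h5⟩ | ⟨-, h4⟩ <;> rw [h4]
    · rw [h5]
      exact a2 i
    · rwa [mul_zero, norm_zero]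
  · rcases c j with ⟨i, -, h4, -⟩ | ⟨-, h4⟩ <;> rw [h4]
    · obtain ⟨g, hg, h6⟩ := a3 i
      exact ⟨g, Or.inr hg, h6⟩
    · refine ⟨0, Or.inl rfl, fun y => ?_⟩
      rw [map_zero, sub_zero, zero_mul, map_zero, norm_zero]
      positivity

section

variable {A : Type} [CStarAlgebra A]

theorem spec2_circle {U : A} (hU : U ∈ unitary A) (z : ℂ) {p : A} :
    ∃ ω : Circle, ‖(U - (ω : ℂ) • 1) * p‖ ≤ 2 * ‖(U - z • 1) * p‖ := by
  refine ⟨Circle.exp z.arg, ?_⟩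
  have h1 : z - (Circle.exp z.arg : ℂ) = ((‖z‖ - 1 : ℝ) : ℂ) * (Circle.exp z.arg : ℂ) := by
    rw [Circle.coe_exp, Complex.ofReal_sub, sub_mul, Complex.norm_mul_exp_arg_mul_I,
      Complex.ofReal_one, one_mul]
  have h2 : (U - (Circle.exp z.arg : ℂ) • 1) * p =
      (U - z • 1) * p + (z - (Circle.exp z.arg : ℂ)) • p := by
    simp only [sub_mul, smul_mul_assoc, one_mul, sub_smul]
    abel
  have h3 : ‖(z - (Circle.exp z.arg : ℂ)) • p‖ = |‖U * p‖ - ‖z • p‖| := by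
    rw [h1, norm_smul, norm_mul, Circle.norm_coe, mul_one, Complex.norm_real, Real.norm_eq_abs,
      CStarRing.norm_mem_unitary_mul p hU, norm_smul, abs_sub_comm ‖p‖, ← sub_one_mul, abs_mul,
      abs_norm]
  have h4 : (U - z • 1) * p = U * p - z • p := by rw [sub_mul, smul_mul_assoc, one_mul]
  have h5 := abs_norm_sub_norm_le (U * p) (z • p)
  rw [h2]
  refine (norm_add_le _ _).trans ?_
  rw [h3, h4]
  linarith

theorem spec2_dist (F : Fac A) {ι : Type} [Fintype ι] {p : ι → A} (hp : PVM p) (U : A)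
    (ω : ι → ℂ) {δ : ℝ} (h : ∀ a, ‖(U - ω a • 1) * p a‖ ≤ δ) :
    F.t (star (U - ∑ a, ω a • p a) * (U - ∑ a, ω a • p a)) ≤ δ ^ 2 := by
  obtain ⟨D, hD⟩ : ∃ D, D = U - ∑ a, ω a • p a := ⟨_, rfl⟩
  rw [← hD]
  have h1 : ∀ a, D * p a = (U - ω a • 1) * p a := fun a => by
    rw [hD, sub_mul, sub_mul, Finset.sum_mul, Finset.sum_eq_single a, smul_mul_assoc,
      smul_mul_assoc, one_mul, (hp.proj a).isIdempotentElem.eq]
    · intro b _ hb
      rw [smul_mul_assoc, hp.orth b a hb, smul_zero]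
    · exact fun h => absurd (Finset.mem_univ a) h
  have h2 : ∀ a, F.t (star D * D * p a) ≤ δ ^ 2 * F.t (p a) := fun a => by
    have e1 : F.t (star D * D * p a) = F.t (p a * (star (D * p a) * (D * p a))) := by
      rw [star_mul, (hp.proj a).isSelfAdjoint.star_eq, ← mul_assoc (p a), ← mul_assoc (p a),
        (hp.proj a).isIdempotentElem.eq, mul_assoc (p a), F.t_comm (p a)]
      simp only [mul_assoc, (hp.proj a).isIdempotentElem.eq]
    rw [e1]
    refine (le_abs_self _).trans ((F.t_proj_bound (hp.proj a) _).trans ?_)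
    refine mul_le_mul_of_nonneg_right ?_ (F.t_proj_nonneg (hp.proj a))
    rw [CStarRing.norm_star_mul_self, h1, ← sq]
    exact pow_le_pow_left₀ (norm_nonneg _) (h a) 2
  calc F.t (star D * D) = ∑ a, F.t (star D * D * p a) := by
        rw [← map_sum, ← Finset.mul_sum, hp.sum, mul_one]
    _ ≤ ∑ a, δ ^ 2 * F.t (p a) := Finset.sum_le_sum fun a _ => h2 a
    _ = δ ^ 2 := by rw [← Finset.mul_sum, ← map_sum, hp.sum, F.t_one, mul_one]

theorem spec2_prod {ι : Type} [Fintype ι] {s r : ι → A} (hs : PVM s) (hr : PVM r)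
    (hc : ∀ i j, s i * r j = r j * s i) : PVM fun a : ι × ι => s a.1 * r a.2 := by
  refine ⟨fun a => (hs.proj _).mul (hr.proj _) (hc _ _), fun a b hab => ?_, ?_⟩
  · by_cases h : a.1 = b.1
    · have h2 : a.2 ≠ b.2 := fun h2 => hab (Prod.ext h h2)
      rw [hc b.1, mul_assoc, ← mul_assoc (r a.2), hr.orth _ _ h2, zero_mul, mul_zero]
    · rw [hc a.1, mul_assoc, ← mul_assoc (s a.1), hs.orth _ _ h, zero_mul, mul_zero]
  · rw [Fintype.sum_prod_type, ← Finset.sum_mul_sum, hs.sum, hr.sum, mul_one]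

end

theorem spec2 {ρ : ℝ} (hρ : 0 < ρ) :
    ∃ m : ℕ, ∀ ε : ℝ, 0 < ε → ∃ G : Set CT, G.Finite ∧ (∀ g ∈ G, ‖g‖ ≤ 1) ∧
      ∀ (A : Type) [CStarAlgebra A] (F : Fac A) (Φ : CT →⋆ₐ[ℂ] A),
        ∃ (p : Fin m × Fin m → A) (ω : Fin m × Fin m → Circle), PVM p ∧
          F.t (star (Φ (fourier 1) - ∑ a, (ω a : ℂ) • p a) *
            (Φ (fourier 1) - ∑ a, (ω a : ℂ) • p a)) ≤ ρ ∧
          ∀ a, ∃ g ∈ G, ∀ y, ‖F.τ ((p a - Φ g) * y)‖ ≤ ε * ‖y‖ := by
  have hδ : 0 < √ρ / 4 := by positivity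
  have hn : ∀ x : AddCircle (1 : ℝ), ‖fourier 1 x‖ = 1 := fun x => by
    rw [fourier_apply, Circle.norm_coe]
  obtain ⟨m₁, h₁⟩ := spec1 ⟨fun x => (fourier 1 x).re, by fun_prop⟩
    (fun x => (Complex.abs_re_le_norm _).trans (hn x).le) hδ
  obtain ⟨m₂, h₂⟩ := spec1 ⟨fun x => (fourier 1 x).im, by fun_prop⟩
    (fun x => (Complex.abs_im_le_norm _).trans (hn x).le) hδ
  obtain ⟨k₁, k₂, hk, a₁, a₂⟩ : ∃ k₁ k₂ : CT, fourier 1 = k₁ + Complex.I • k₂ ∧
      spec2P k₁ (√ρ / 4) (Fin m₁) ∧ spec2P k₂ (√ρ / 4) (Fin m₂) := by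
    refine ⟨_, _, ?_, h₁, h₂⟩
    ext x
    change fourier 1 x = ((fourier 1 x).re : ℂ) + Complex.I * ((fourier 1 x).im : ℂ)
    rw [mul_comm, Complex.re_add_im]
  refine ⟨m₁ + m₂, fun ε hε => ?_⟩
  obtain ⟨G₁, f₁, n₁, b₁⟩ := spec2_pad hδ.le (Fin.castAdd_injective m₁ m₂) a₁ (ε / 2) (half_pos hε)
  obtain ⟨G₂, f₂, n₂, b₂⟩ := spec2_pad hδ.le (Fin.natAdd_injective m₂ m₁) a₂ (ε / 2) (half_pos hε)
  refine ⟨Set.image2 (· * ·) G₁ G₂, f₁.image2 _ f₂, ?_, fun A _ F Φ => ?_⟩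
  · rintro _ ⟨g, hg, g', hg', rfl⟩
    exact (norm_mul_le _ _).trans (mul_le_one₀ (n₁ g hg) (norm_nonneg _) (n₂ g' hg'))
  obtain ⟨s, lam, hs, c₁, d₁, e₁⟩ := b₁ A F Φ
  obtain ⟨r, mu, hr, c₂, d₂, e₂⟩ := b₂ A F Φ
  have hc : ∀ i j, s i * r j = r j * s i := fun i j => c₁ i _ fun g =>
    (c₂ j _ fun g' => by rw [← map_mul, mul_comm, map_mul]).symm
  have hU : Φ (fourier 1) ∈ unitary A := Unitary.map_mem Φ spec2_unitary
  have hz : ∀ a : Fin (m₁ + m₂) × Fin (m₁ + m₂), ∃ ω : Circle,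
      ‖(Φ (fourier 1) - (ω : ℂ) • 1) * (s a.1 * r a.2)‖ ≤ √ρ := fun a => by
    obtain ⟨ω, hω⟩ := spec2_circle hU (lam a.1 + Complex.I * mu a.2) (p := s a.1 * r a.2)
    refine ⟨ω, hω.trans ?_⟩
    have e : (Φ (fourier 1) - ((lam a.1 : ℂ) + Complex.I * mu a.2) • 1) * (s a.1 * r a.2) =
        (Φ k₁ - (lam a.1 : ℂ) • 1) * s a.1 * r a.2 +
          Complex.I • ((Φ k₂ - (mu a.2 : ℂ) • 1) * r a.2 * s a.1) := by
      rw [mul_assoc, mul_assoc, ← hc, ← smul_mul_assoc, ← add_mul, hk, map_add, map_smul,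
        add_smul, mul_smul, smul_sub]
      congr 1
      abel
    have t1 := (norm_mul_le _ (r a.2)).trans (mul_le_mul (d₁ a.1)
      ((hr.proj a.2).norm_le _) (norm_nonneg _) hδ.le)
    have t2 := (norm_mul_le _ (s a.1)).trans (mul_le_mul (d₂ a.2)
      ((hs.proj a.1).norm_le _) (norm_nonneg _) hδ.le)
    have t3 := norm_add_le ((Φ k₁ - (lam a.1 : ℂ) • 1) * s a.1 * r a.2)
      (Complex.I • ((Φ k₂ - (mu a.2 : ℂ) • 1) * r a.2 * s a.1))
    rw [norm_smul, Complex.norm_I, one_mul] at t3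
    rw [e]
    linarith
  choose ω hω using hz
  refine ⟨fun a => s a.1 * r a.2, ω, spec2_prod hs hr hc, ?_, fun a => ?_⟩
  · exact (spec2_dist F (spec2_prod hs hr hc) _ (fun a => (ω a : ℂ)) hω).trans_eq
      (Real.sq_sqrt hρ.le)
  · obtain ⟨g, hg, t1⟩ := e₁ a.1
    obtain ⟨g', hg', t2⟩ := e₂ a.2
    refine ⟨g * g', ⟨g, hg, g', hg', rfl⟩, fun y => ?_⟩
    have e : F.τ ((s a.1 * r a.2 - Φ (g * g')) * y) =
        F.τ ((s a.1 - Φ g) * (r a.2 * y)) + F.τ ((r a.2 - Φ g') * (y * Φ g)) := by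
      rw [← mul_assoc _ y, F.comm _ (Φ g), ← map_add, map_mul Φ]
      congr 1
      noncomm_ring
    have t3 : ‖r a.2 * y‖ ≤ ‖y‖ := (norm_mul_le _ _).trans
      (mul_le_of_le_one_left (norm_nonneg _) ((hr.proj a.2).norm_le _))
    have t4 : ‖y * Φ g‖ ≤ ‖y‖ := (norm_mul_le _ _).trans
      (mul_le_of_le_one_right (norm_nonneg _) ((norm_starAlgHom_le Φ g).trans (n₁ g hg)))
    have t5 := (t1 _).trans (mul_le_mul_of_nonneg_left t3 (half_pos hε).le)
    have t6 := (t2 _).trans (mul_le_mul_of_nonneg_left t4 (half_pos hε).le)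
    rw [e]
    refine (norm_add_le _ _).trans ?_
    linarith

variable {A : Type} [CStarAlgebra A]

theorem exists_fc (u : unitary A) :
    ∃ Φ : CT →⋆ₐ[ℂ] A, ∀ e : ℤ, Φ (fourier e) = (u ^ e : unitary A) := by
  obtain ⟨Φ, h1, -⟩ := exists_jointCFC u.1 u.1 u.2 u.2 rfl
  let p : C(T2, AddCircle (1 : ℝ)) :=
    ⟨fun z => (AddCircle.homeomorphCircle one_ne_zero).symm z.1, by fun_prop⟩
  let Ψ : CT →⋆ₐ[ℂ] A := Φ.comp (ContinuousMap.compStarAlgHom' ℂ ℂ p)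
  have h2 : Ψ (fourier 1) = u := by
    rw [← h1]
    change Φ _ = _
    congr 1
    ext z
    change fourier 1 ((AddCircle.homeomorphCircle one_ne_zero).symm z.1) = z.1
    rw [fourier_one, ← AddCircle.homeomorphCircle_apply one_ne_zero, Homeomorph.apply_symm_apply]
  refine ⟨Ψ, fun e => ?_⟩
  induction e using Int.induction_on with
  | zero => rw [spec2_zero, map_one, zpow_zero]; rfl
  | succ e ih => rw [spec2_succ, map_mul, ih, h2, zpow_add_one]; rfl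
  | pred e ih => rw [spec2_pred, map_mul, ih, map_star, h2, zpow_sub_one]; rfl

theorem spec2_mul {ι : Type} [Fintype ι] {p : ι → A} (hp : PVM p) (c d : ι → ℂ) :
    (∑ a, c a • p a) * ∑ a, d a • p a = ∑ a, (c a * d a) • p a := by
  rw [Finset.sum_mul]
  refine Finset.sum_congr rfl fun a _ => ?_
  rw [Finset.mul_sum, Finset.sum_eq_single a, smul_mul_smul_comm, (hp.proj a).isIdempotentElem.eq]
  · intro b _ hb
    rw [smul_mul_smul_comm, hp.orth a b hb.symm, smul_zero]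
  · exact fun h => absurd (Finset.mem_univ a) h

theorem spec2_mem {ι : Type} [Fintype ι] {p : ι → A} (hp : PVM p) (ω : ι → Circle) :
    ∑ a, (ω a : ℂ) • p a ∈ unitary A := by
  have h1 : star (∑ a, (ω a : ℂ) • p a) = ∑ a, (((ω a)⁻¹ : Circle) : ℂ) • p a := by
    rw [star_sum]
    refine Finset.sum_congr rfl fun a _ => ?_
    rw [star_smul, (hp.proj a).isSelfAdjoint.star_eq, Circle.coe_inv_eq_conj]
    rfl
  constructor <;> rw [h1, spec2_mul hp, ← hp.sum] <;> refine Finset.sum_congr rfl fun a _ => ?_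
  · rw [← Circle.coe_mul, inv_mul_cancel, Circle.coe_one, one_smul]
  · rw [← Circle.coe_mul, mul_inv_cancel, Circle.coe_one, one_smul]

theorem PVM.exists_unitary {ι : Type} [Fintype ι] {p : ι → A} (hp : PVM p) (ω : ι → Circle) :
    ∃ u : unitary A, ∀ e : ℤ, ((u ^ e : unitary A) : A) = ∑ a, ((ω a : ℂ) ^ e) • p a := by
  let φ : (ι → Circle) →* unitary A := MonoidHom.mk' (fun ω => ⟨_, spec2_mem hp ω⟩)
    fun a b => Subtype.ext (spec2_mul hp (fun i => (a i : ℂ)) fun i => (b i : ℂ)).symm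
  refine ⟨φ ω, fun e => ?_⟩
  rw [← map_zpow]
  rfl

theorem spec2_lin {l : Filter ℕ} (T : ℕ → CT →ₗ[ℂ] ℂ) (C : ℝ) (hT : ∀ n f, ‖T n f‖ ≤ C * ‖f‖)
    (h : ∀ e, Tendsto (fun n => T n (fourier e)) l (𝓝 0)) (f : CT) :
    Tendsto (fun n => T n f) l (𝓝 0) := by
  let S : Submodule ℂ CT :=
    { carrier := {f | Tendsto (fun n => T n f) l (𝓝 0)}
      add_mem' := fun ha hb => by simpa using Tendsto.add ha hb
      zero_mem' := by simpa using tendsto_const_nhds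
      smul_mem' := fun c f hf => by simpa using Tendsto.const_mul c hf }
  have hS : IsClosed (S : Set CT) := by
    refine isClosed_of_closure_subset fun f hf => ?_
    refine Metric.tendsto_nhds.mpr fun ε hε => ?_
    obtain ⟨g, hg, hfg⟩ := Metric.mem_closure_iff.mp hf (ε / 2 / (|C| + 1)) (by positivity)
    filter_upwards [Metric.tendsto_nhds.mp hg (ε / 2) (by positivity)] with n hn
    rw [dist_zero_right] at hn ⊢
    have h1 := norm_add_le (T n (f - g)) (T n g)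
    rw [← map_add, sub_add_cancel] at h1
    rw [dist_eq_norm, lt_div_iff₀ (by positivity)] at hfg
    have h2 := hT n (f - g)
    nlinarith [le_abs_self C, norm_nonneg (f - g)]
  have : (Submodule.span ℂ (Set.range (@fourier 1))).topologicalClosure ≤ S :=
    Submodule.topologicalClosure_minimal _ (Submodule.span_le.mpr (by
      rintro _ ⟨e, rfl⟩; exact h e)) hS
  rw [span_fourier_closure_eq_top] at this
  exact this trivial

theorem spec2_half (F : Fac A) {l : Filter ℕ} (Φ : ℕ → CT →⋆ₐ[ℂ] A) (y : ℕ → A) (C : ℝ)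
    (hy : ∀ n, ‖y n‖ ≤ C) (h : ∀ e : ℤ, Tendsto (fun n => F.τ (Φ n (fourier e) * y n) -
      F.τ (Φ n (fourier e)) * F.τ (y n)) l (𝓝 0)) (g : CT) :
    Tendsto (fun n => F.τ (Φ n g * y n) - F.τ (Φ n g) * F.τ (y n)) l (𝓝 0) := by
  refine spec2_lin (fun n => F.τ ∘ₗ LinearMap.mulRight ℂ (y n) ∘ₗ (Φ n).toAlgHom.toLinearMap -
    LinearMap.mulRight ℂ (F.τ (y n)) ∘ₗ F.τ ∘ₗ (Φ n).toAlgHom.toLinearMap) (2 * C)
    (fun n f => ?_) h g
  change ‖F.τ (Φ n f * y n) - F.τ (Φ n f) * F.τ (y n)‖ ≤ _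
  have h1 := norm_starAlgHom_le (Φ n) f
  have h2 := (F.norm_τ_le _).trans ((norm_mul_le (Φ n f) (y n)).trans
    (mul_le_mul h1 (hy n) (norm_nonneg _) (norm_nonneg _)))
  have h3 := mul_le_mul ((F.norm_τ_le _).trans h1) ((F.norm_τ_le _).trans (hy n))
    (norm_nonneg _) (norm_nonneg _)
  refine (norm_sub_le _ _).trans ?_
  rw [norm_mul]
  linarith

theorem Fac.indep_fc (F : Fac A) {l : Filter ℕ} (Φ Ψ : ℕ → CT →⋆ₐ[ℂ] A)
    (h : ∀ e f : ℤ, Tendsto (fun n => F.τ (Φ n (fourier e) * Ψ n (fourier f)) -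
      F.τ (Φ n (fourier e)) * F.τ (Ψ n (fourier f))) l (𝓝 0)) (g g' : CT) :
    Tendsto (fun n => F.τ (Φ n g * Ψ n g') - F.τ (Φ n g) * F.τ (Ψ n g')) l (𝓝 0) := by
  refine spec2_half F Φ _ ‖g'‖ (fun n => norm_starAlgHom_le (Ψ n) g') (fun e => ?_) g
  refine (spec2_half F Ψ (fun n => Φ n (fourier e)) _ (fun n => norm_starAlgHom_le (Φ n) _)
    (fun f => (h e f).congr fun n => ?_) g').congr fun n => ?_
  · rw [F.comm, mul_comm (F.τ _)]
  · rw [F.comm, mul_comm (F.τ _)]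

end Pool.Agent.Lib.MP_64d6f1_an.II
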