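import Pool.Agent.Lib.MP_64d6f1_an.II.Core
import Pool.Agent.Lib.MP_64d6f1_an.II.Spec2

/-! Lifting of asymptotically independent unitaries. -/

open Filter Topology

namespace Pool.Agent.Lib.MP_64d6f1_an.II

variable {A : Type} [CStarAlgebra A] (F : Fac A)

theorem lift_τ_proj {p : A} (hp : IsStarProjection p) : F.τ p = (F.t p : ℂ) := by
  simpa using (F.τ_proj_mul hp (IsStarProjection.one A)).1

theorem lift_dist {ι : Type} [Fintype ι] (p P : ι → A) (ω : ι → Circle) (x : A) {ρ σ : ℝ}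
    (h1 : F.t (star (x - ∑ a, (ω a : ℂ) • p a) * (x - ∑ a, (ω a : ℂ) • p a)) ≤ ρ)
    (h2 : ∀ a, F.t (star (P a - p a) * (P a - p a)) ≤ σ) :
    F.t (star (∑ a, (ω a : ℂ) • P a - x) * (∑ a, (ω a : ℂ) • P a - x)) ≤
      2 * (Fintype.card ι * (Fintype.card ι * σ)) + 2 * ρ := by
  have e1 : ∑ a, (ω a : ℂ) • P a - x =
      ∑ a, (ω a : ℂ) • (P a - p a) + -(x - ∑ a, (ω a : ℂ) • p a) := by
    simp only [smul_sub, Finset.sum_sub_distrib]
    abel
  have h3 := F.tri (∑ a, (ω a : ℂ) • (P a - p a)) (-(x - ∑ a, (ω a : ℂ) • p a))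
  rw [star_neg, neg_mul_neg] at h3
  have h4 := F.tri_sum fun a => (ω a : ℂ) • (P a - p a)
  have h5 : ∑ a, F.t (star ((ω a : ℂ) • (P a - p a)) * ((ω a : ℂ) • (P a - p a))) ≤
      Fintype.card ι * σ := by
    refine (Finset.sum_le_card_nsmul _ _ σ fun a _ => ?_).trans (by simp)
    have e2 : star (ω a : ℂ) * (ω a : ℂ) = 1 := by
      rw [Complex.star_def, Complex.conj_mul', Circle.norm_coe]
      simp
    rw [star_smul, smul_mul_smul_comm, e2, one_smul]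
    exact h2 a
  have h6 := mul_le_mul_of_nonneg_left h5 (Nat.cast_nonneg (α := ℝ) (Fintype.card ι))
  rw [e1]
  linarith

theorem lift_cov {p q x y : A} (hp : IsStarProjection p) (hq : IsStarProjection q)
    (hx : ‖x‖ ≤ 1) {ε : ℝ} (hε : 0 ≤ ε) (h1 : ∀ z, ‖F.τ ((p - x) * z)‖ ≤ ε * ‖z‖)
    (h2 : ∀ z, ‖F.τ ((q - y) * z)‖ ≤ ε * ‖z‖) (h3 : ‖F.τ (x * y) - F.τ x * F.τ y‖ ≤ ε) :
    |F.t (p * q) - F.t p * F.t q| ≤ 5 * ε := by
  have e1 : ((F.t (p * q) - F.t p * F.t q : ℝ) : ℂ) =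
      F.τ ((p - x) * q) + F.τ ((q - y) * x) + (F.τ (x * y) - F.τ x * F.τ y)
        - F.τ ((p - x) * 1) * F.τ q - F.τ x * F.τ ((q - y) * 1) := by
    push_cast
    rw [← (F.τ_proj_mul hp hq).1, ← lift_τ_proj F hp, ← lift_τ_proj F hq, F.comm (q - y) x]
    simp only [mul_one, sub_mul, mul_sub, map_sub]
    ring
  have n1 : ‖(1 : A)‖ ≤ 1 := (IsStarProjection.one A).norm_le
  have n2 : ‖q‖ ≤ 1 := hq.norm_le
  have b1 := (h1 q).trans (mul_le_of_le_one_right hε n2)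
  have b2 := (h2 x).trans (mul_le_of_le_one_right hε hx)
  have b3 := (h1 1).trans (mul_le_of_le_one_right hε n1)
  have b4 := (h2 1).trans (mul_le_of_le_one_right hε n1)
  have b5 : ‖F.τ ((p - x) * 1) * F.τ q‖ ≤ ε := by
    rw [norm_mul]
    exact (mul_le_of_le_one_right (norm_nonneg _) ((F.norm_τ_le q).trans n2)).trans b3
  have b6 : ‖F.τ x * F.τ ((q - y) * 1)‖ ≤ ε := by
    rw [norm_mul]
    exact (mul_le_of_le_one_left (norm_nonneg _) ((F.norm_τ_le x).trans hx)).trans b4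
  rw [← Real.norm_eq_abs, ← Complex.norm_real, e1]
  refine (norm_sub_le _ _).trans ?_
  have c1 := norm_sub_le (F.τ ((p - x) * q) + F.τ ((q - y) * x) + (F.τ (x * y) - F.τ x * F.τ y))
    (F.τ ((p - x) * 1) * F.τ q)
  have c2 := norm_add₃_le (a := F.τ ((p - x) * q)) (b := F.τ ((q - y) * x))
    (c := F.τ (x * y) - F.τ x * F.τ y)
  linarith

theorem lift_one {l : Filter ℕ} (u v : ℕ → unitary A)
    (h : ∀ e f : ℤ, Tendsto (fun n => F.τ ((u n ^ e : unitary A) * (v n ^ f : unitary A)) -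
      F.τ (u n ^ e : unitary A) * F.τ (v n ^ f : unitary A)) l (𝓝 0)) {ρ : ℝ} (hρ : 0 < ρ) :
    ∀ᶠ n in l, ∃ u' v' : unitary A,
      (∀ e f : ℤ, F.τ ((u' ^ e : unitary A) * (v' ^ f : unitary A)) =
        F.τ (u' ^ e : unitary A) * F.τ (v' ^ f : unitary A)) ∧
      F.t (star ((u' : A) - u n) * ((u' : A) - u n)) ≤ ρ ∧
      F.t (star ((v' : A) - v n) * ((v' : A) - v n)) ≤ ρ := by
  choose Φ hΦ using fun n => exists_fc (u n)
  choose Ψ hΨ using fun n => exists_fc (v n)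
  obtain ⟨m, hm⟩ := spec2 (ρ := ρ / 4) (by positivity)
  set c : ℝ := (Fintype.card (Fin m × Fin m) : ℝ) with hc
  have hc0 : 0 ≤ c := Nat.cast_nonneg _
  obtain ⟨ε, hε, hcore⟩ := core (Fin m × Fin m) (Fin m × Fin m)
    (ρ := ρ / (4 * (c * c + 1))) (by positivity)
  obtain ⟨G, hG, hG1, hspec⟩ := hm (ε / 5) (by positivity)
  have hev : ∀ᶠ n in l, ∀ g ∈ G, ∀ g' ∈ G,
      ‖F.τ (Φ n g * Ψ n g') - F.τ (Φ n g) * F.τ (Ψ n g')‖ ≤ ε / 5 := by
    refine (eventually_all_finite hG).2 fun g _ => (eventually_all_finite hG).2 fun g' _ => ?_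
    have h1 := F.indep_fc Φ Ψ (by simpa only [hΦ, hΨ] using h) g g'
    filter_upwards [Metric.tendsto_nhds.1 h1 (ε / 5) (by positivity)] with n hn
    rw [dist_zero_right] at hn
    exact hn.le
  filter_upwards [hev] with n hn
  obtain ⟨p, ω, hp, hp1, hp2⟩ := hspec A F (Φ n)
  obtain ⟨q, ω', hq, hq1, hq2⟩ := hspec A F (Ψ n)
  obtain ⟨P, Q, hP, hQ, hPQ, hPd, hQd⟩ := hcore A F p q hp hq fun a b => by
    obtain ⟨g, hg, h1⟩ := hp2 a
    obtain ⟨g', hg', h2⟩ := hq2 b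
    have := lift_cov F (hp.proj a) (hq.proj b)
      ((norm_starAlgHom_le (Φ n) g).trans (hG1 g hg)) (by positivity) h1 h2 (hn g hg g' hg')
    linarith
  obtain ⟨u', hu'⟩ := hP.exists_unitary ω
  obtain ⟨v', hv'⟩ := hQ.exists_unitary ω'
  have hb : 2 * (c * (c * (ρ / (4 * (c * c + 1))))) + 2 * (ρ / 4) ≤ ρ := by
    have e1 : (c * c + 1) * (ρ / (4 * (c * c + 1))) = ρ / 4 := by field_simp
    have e2 : 0 < ρ / (4 * (c * c + 1)) := by positivity
    nlinarith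
  refine ⟨u', v', fun e f => ?_, ?_, ?_⟩
  · rw [hu', hv', Finset.sum_mul_sum, map_sum, map_sum, map_sum, Finset.sum_mul_sum]
    refine Finset.sum_congr rfl fun a _ => ?_
    rw [map_sum]
    refine Finset.sum_congr rfl fun b _ => ?_
    rw [smul_mul_smul_comm, map_smul, map_smul, map_smul, (F.τ_proj_mul (hP.proj a) (hQ.proj b)).1,
      hPQ, lift_τ_proj F (hP.proj a), lift_τ_proj F (hQ.proj b)]
    simp only [smul_eq_mul]
    push_cast
    ring
  · have h1 := lift_dist F p P ω _ hp1 hPd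
    have h2 := hu' 1
    rw [hΦ, zpow_one] at h1
    simp only [zpow_one] at h2
    rw [h2]
    exact h1.trans hb
  · have h1 := lift_dist F q Q ω' _ hq1 hQd
    have h2 := hv' 1
    rw [hΨ, zpow_one] at h1
    simp only [zpow_one] at h2
    rw [h2]
    exact h1.trans hb

theorem Fac.lift {A : Type} [CStarAlgebra A] (F : Fac A) {l : Filter ℕ} (hl : l ≤ cofinite)
    (u v : ℕ → unitary A)
    (h : ∀ e f : ℤ, Tendsto (fun n => F.τ ((u n ^ e : unitary A) * (v n ^ f : unitary A)) -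
      F.τ (u n ^ e : unitary A) * F.τ (v n ^ f : unitary A)) l (𝓝 0)) :
    ∃ u' v' : ℕ → unitary A,
      Tendsto (fun n => F.τ (star ((u' n : A) - u n) * ((u' n : A) - u n))) l (𝓝 0) ∧
      Tendsto (fun n => F.τ (star ((v' n : A) - v n) * ((v' n : A) - v n))) l (𝓝 0) ∧
      ∀ (n : ℕ) (e f : ℤ), F.τ ((u' n ^ e : unitary A) * (v' n ^ f : unitary A)) =
        F.τ (u' n ^ e : unitary A) * F.τ (v' n ^ f : unitary A) := by
  classical
  let I : unitary A → unitary A → Prop := fun u' v' =>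
    ∀ e f : ℤ, F.τ ((u' ^ e : unitary A) * (v' ^ f : unitary A)) =
      F.τ (u' ^ e : unitary A) * F.τ (v' ^ f : unitary A)
  let Gd : ℕ → ℕ → Prop := fun n j => ∃ u' v' : unitary A, I u' v' ∧
    F.t (star ((u' : A) - u n) * ((u' : A) - u n)) ≤ 1 / ((j : ℝ) + 1) ∧
    F.t (star ((v' : A) - v n) * ((v' : A) - v n)) ≤ 1 / ((j : ℝ) + 1)
  have key : ∀ n, ∃ u' v' : unitary A, I u' v' ∧ ∀ j ≤ n, Gd n j →
      F.t (star ((u' : A) - u n) * ((u' : A) - u n)) ≤ 1 / ((j : ℝ) + 1) ∧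
      F.t (star ((v' : A) - v n) * ((v' : A) - v n)) ≤ 1 / ((j : ℝ) + 1) := by
    intro n
    by_cases hex : ∃ j ≤ n, Gd n j
    · obtain ⟨j₀, h0, h1⟩ := hex
      obtain ⟨u', v', h2, h3, h4⟩ := Nat.findGreatest_spec (P := Gd n) h0 h1
      refine ⟨u', v', h2, fun j hj hg => ?_⟩
      have h5 := Nat.one_div_le_one_div (α := ℝ) (Nat.le_findGreatest hj hg)
      exact ⟨h3.trans h5, h4.trans h5⟩
    · exact ⟨1, 1, fun e f => by simp [F.one], fun j hj hg => absurd ⟨j, hj, hg⟩ hex⟩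
  choose u' v' hI hd using key
  have hev : ∀ j : ℕ, ∀ᶠ n in l,
      F.t (star ((u' n : A) - u n) * ((u' n : A) - u n)) ≤ 1 / ((j : ℝ) + 1) ∧
      F.t (star ((v' n : A) - v n) * ((v' n : A) - v n)) ≤ 1 / ((j : ℝ) + 1) := by
    intro j
    have h1 : ∀ᶠ n in l, j ≤ n := hl (Nat.cofinite_eq_atTop ▸ eventually_ge_atTop j)
    filter_upwards [h1, lift_one F u v h (ρ := 1 / ((j : ℝ) + 1)) (by positivity)] with n h2 h3
    exact hd n j h2 h3
  have fin : ∀ x : ℕ → A, (∀ j : ℕ, ∀ᶠ n in l, F.t (star (x n) * x n) ≤ 1 / ((j : ℝ) + 1)) →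
      Tendsto (fun n => F.τ (star (x n) * x n)) l (𝓝 0) := by
    intro x hx
    refine Metric.tendsto_nhds.2 fun ε hε => ?_
    obtain ⟨j, hj⟩ := exists_nat_one_div_lt hε
    filter_upwards [hx j] with n hn
    rw [dist_zero_right, F.τ_star_mul_self, Complex.norm_real, Real.norm_of_nonneg (F.t_pos _)]
    exact hn.trans_lt hj
  exact ⟨u', v', fin _ fun j => (hev j).mono fun _ h => h.1,
    fin _ fun j => (hev j).mono fun _ h => h.2, hI⟩

end Pool.Agent.Lib.MP_64d6f1_an.II
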