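import Pool.Agent.Lib.MP_64d6f1_an.II.Defs

/-! The normal trace, strong limits and maximal elements. -/

open Filter Topology
open scoped ComplexConjugate InnerProductSpace

namespace Pool.Agent.Lib.MP_64d6f1_an.II

variable {H : Type} [NormedAddCommGroup H] [InnerProductSpace ℂ H] [CompleteSpace H]
  {N : VonNeumannAlgebra H} {ξ : ℕ → H} {τ : (H →L[ℂ] H) → ℂ}

omit [CompleteSpace H] in
theorem lim_bound {x : H →L[ℂ] H} {C : ℝ} (hx : ‖x‖ ≤ C) (ζ : H) :
    ‖⟪ζ, x ζ⟫_ℂ‖ ≤ C * ‖ζ‖ ^ 2 := by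
  refine (norm_inner_le_norm _ _).trans ?_
  have h1 := x.le_of_opNorm_le hx ζ
  have h2 := norm_nonneg ζ
  nlinarith

theorem lim_summ (h : II1 N ξ τ) (x : H →L[ℂ] H) : Summable fun i => ⟪ξ i, x (ξ i)⟫_ℂ :=
  Summable.of_norm_bounded (h.summ.mul_left ‖x‖) fun i => lim_bound le_rfl (ξ i)

theorem II1.lin (h : II1 N ξ τ) : ∃ T : (H →L[ℂ] H) →ₗ[ℂ] ℂ, ∀ x, τ x = T x := by
  refine ⟨⟨⟨τ, fun x y => ?_⟩, fun c x => ?_⟩, fun _ => rfl⟩
  · rw [h.eq, h.eq, h.eq, ← (lim_summ h x).tsum_add (lim_summ h y)]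
    exact tsum_congr fun i => by rw [add_apply, inner_add_right]
  · change τ (c • x) = c * τ x
    rw [h.eq, h.eq, ← tsum_mul_left]
    exact tsum_congr fun i => by rw [smul_apply, inner_smul_right]

theorem II1.herm (h : II1 N ξ τ) (x : H →L[ℂ] H) : τ (star x) = conj (τ x) := by
  rw [h.eq, h.eq, Complex.conj_tsum]
  refine tsum_congr fun i => ?_
  rw [ContinuousLinearMap.star_eq_adjoint, ContinuousLinearMap.adjoint_inner_right,
    inner_conj_symm]

theorem lim_inner (x : H →L[ℂ] H) (ζ : H) :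
    ⟪ζ, (star x * x) ζ⟫_ℂ = ((‖x ζ‖ ^ 2 : ℝ) : ℂ) := by
  rw [mul_apply_eq_comp, ContinuousLinearMap.star_eq_adjoint,
    ContinuousLinearMap.adjoint_inner_right, inner_self_eq_norm_sq_to_K]
  simp

theorem lim_sq (h : II1 N ξ τ) (x : H →L[ℂ] H) :
    τ (star x * x) = ((∑' i, ‖x (ξ i)‖ ^ 2 : ℝ) : ℂ) := by
  rw [h.eq, Complex.ofReal_tsum]
  exact tsum_congr fun i => lim_inner x (ξ i)

theorem II1.pos (h : II1 N ξ τ) (x : H →L[ℂ] H) : 0 ≤ (τ (star x * x)).re := by
  rw [lim_sq h, Complex.ofReal_re]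
  exact tsum_nonneg fun i => sq_nonneg _

theorem lim_faith (h : II1 N ξ τ) {x : H →L[ℂ] H} (hx : x ∈ N)
    (h0 : (τ (star x * x)).re ≤ 0) : x = 0 := by
  refine h.faith x hx ?_
  have h1 := le_antisymm h0 (h.pos x)
  rw [lim_sq h] at h1 ⊢
  rw [Complex.ofReal_re] at h1
  rw [h1, Complex.ofReal_zero]

theorem II1.proj_zero (h : II1 N ξ τ) {p : H →L[ℂ] H} (hp : p ∈ N) (hp' : IsStarProjection p)
    (h0 : (τ p).re ≤ 0) : p = 0 := by
  refine lim_faith h hp ?_
  rwa [hp'.isSelfAdjoint.star_eq, hp'.isIdempotentElem.eq]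

theorem II1.proj_mono (h : II1 N ξ τ) {p q : H →L[ℂ] H} (hp : IsStarProjection p)
    (hq : IsStarProjection q) (hpq : q * p = p) : (τ p).re ≤ (τ q).re := by
  obtain ⟨T, hT⟩ := h.lin
  have h1 := hp.sub_of_mul_eq_right hq hpq
  have h2 := h.pos (q - p)
  rw [h1.isSelfAdjoint.star_eq, h1.isIdempotentElem.eq, hT, map_sub, Complex.sub_re, ← hT,
    ← hT] at h2
  linarith

theorem II1.normal (h : II1 N ξ τ) {ι : Type} {l : Filter ι} (x : ι → H →L[ℂ] H) (C : ℝ)
    (hx : ∀ i, ‖x i‖ ≤ C) (y : H →L[ℂ] H) (hy : ∀ ζ, Tendsto (fun i => x i ζ) l (𝓝 (y ζ))) :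
    Tendsto (fun i => τ (x i)) l (𝓝 (τ y)) := by
  simp only [h.eq]
  exact tendsto_tsum_of_dominated_convergence (h.summ.mul_left C)
    (fun k => tendsto_const_nhds.inner (hy (ξ k)))
    (Eventually.of_forall fun i k => lim_bound (hx i) (ξ k))

section alg

variable {u v w : H →L[ℂ] H}

theorem lim_fe (hv : v * star v * v = v) (hw : w * star w * w = w) (h : w * (star v * v) = v) :
    star w * v = star v * v := by
  have h1 : star v * v * star w = star v := by
    have e := congrArg star h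
    rwa [star_mul, star_mul, star_star] at e
  have h2 : w * (star w * v) = v := by
    calc w * (star w * v) = w * (star w * (w * (star v * v))) := by rw [h]
      _ = w * star w * w * (star v * v) := by simp only [mul_assoc]
      _ = v := by rw [hw, h]
  have h3 : star v * v * (star v * v) = star v * v := by
    calc star v * v * (star v * v) = star v * (v * star v * v) := by simp only [mul_assoc]
      _ = star v * v := by rw [hv]
  symm
  rw [← sub_eq_zero, ← CStarRing.star_mul_self_eq_zero_iff, star_sub, star_mul, star_mul,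
    star_star, star_star, sub_mul, mul_sub, mul_sub, h3, ← mul_assoc (star v * v), h1,
    mul_assoc (star v) w, mul_assoc (star v) w, h, h2, sub_self]

theorem lim_diff (hv : v * star v * v = v) (hw : w * star w * w = w) (h : w * (star v * v) = v) :
    star (w - v) * (w - v) = star w * w - star v * v := by
  have h1 := lim_fe hv hw h
  have h2 : star v * w = star v * v := by
    have e := congrArg star h1
    rwa [star_mul, star_mul, star_star, star_star] at e
  rw [star_sub, sub_mul, mul_sub, mul_sub, h1, h2, sub_self, sub_zero]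

theorem lim_star (hv : v * star v * v = v) : star v * star (star v) * star v = star v := by
  have e := congrArg star hv
  rwa [star_mul, star_mul, ← mul_assoc] at e

theorem lim_le_star (hv : v * star v * v = v) (hw : w * star w * w = w)
    (h : w * (star v * v) = v) : star w * (star (star v) * star v) = star v := by
  have e := lim_star hv
  rw [star_star] at e ⊢
  rw [← mul_assoc, lim_fe hv hw h, e]

theorem lim_trans (hv : v * star v * v = v) (hw : w * star w * w = w)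
    (h : w * (star v * v) = v) (h' : u * (star w * w) = w) : u * (star v * v) = v := by
  calc u * (star v * v) = u * (star w * (w * (star v * v))) := by rw [h, lim_fe hv hw h]
    _ = u * (star w * w) * (star v * v) := by simp only [mul_assoc]
    _ = v := by rw [h', h]

theorem lim_proj (hv : v * star v * v = v) : IsStarProjection (star v * v) := by
  refine ⟨?_, IsSelfAdjoint.star_mul_self v⟩
  calc star v * v * (star v * v) = star v * (v * star v * v) := by simp only [mul_assoc]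
    _ = star v * v := by rw [hv]

theorem lim_norm (hv : v * star v * v = v) : ‖v‖ ≤ 1 := by
  have h1 := IsStarProjection.norm_le _ (lim_proj hv)
  rw [CStarRing.norm_star_mul_self] at h1
  have h2 := norm_nonneg v
  nlinarith

theorem lim_pyth (hv : v * star v * v = v) (hw : w * star w * w = w) (h : w * (star v * v) = v)
    (ζ : H) : ‖w ζ - v ζ‖ ^ 2 = ‖w ζ‖ ^ 2 - ‖v ζ‖ ^ 2 := by
  have h1 := lim_inner (w - v) ζ
  rw [lim_diff hv hw h, sub_apply, inner_sub_right, lim_inner, lim_inner,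
    sub_apply] at h1
  exact_mod_cast h1.symm

end alg

omit [InnerProductSpace ℂ H] [CompleteSpace H] in
theorem lim_cauchy (u : ℕ → H) (C : ℝ) (hC : ∀ n, ‖u n‖ ^ 2 ≤ C)
    (h : ∀ n m, n ≤ m → ‖u m - u n‖ ^ 2 = ‖u m‖ ^ 2 - ‖u n‖ ^ 2) : CauchySeq u := by
  have h1 : Monotone fun n => ‖u n‖ ^ 2 := fun n m hnm => by
    have h2 := h n m hnm
    have h3 := sq_nonneg ‖u m - u n‖
    change ‖u n‖ ^ 2 ≤ ‖u m‖ ^ 2
    linarith
  have h2 := (tendsto_atTop_ciSup h1 ⟨C, by
    rintro _ ⟨n, rfl⟩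
    exact hC n⟩).cauchySeq
  rw [Metric.cauchySeq_iff'] at h2 ⊢
  intro ε hε
  obtain ⟨n, hn⟩ := h2 (ε ^ 2) (by positivity)
  refine ⟨n, fun m hm => ?_⟩
  have h3 := hn m hm
  rw [Real.dist_eq, ← h n m hm, abs_of_nonneg (sq_nonneg _)] at h3
  rw [dist_eq_norm]
  exact lt_of_pow_lt_pow_left₀ 2 hε.le h3

theorem lim_op (v : ℕ → H →L[ℂ] H) (hv : ∀ n, v n * star (v n) * v n = v n)
    (hle : ∀ n m, n ≤ m → v m * (star (v n) * v n) = v n) :
    ∃ w : H →L[ℂ] H, ∀ ζ, Tendsto (fun n => v n ζ) atTop (𝓝 (w ζ)) := by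
  have h1 : ∀ ζ, ∃ η, Tendsto (fun n => v n ζ) atTop (𝓝 η) := fun ζ =>
    cauchySeq_tendsto_of_complete (lim_cauchy _ (‖ζ‖ ^ 2) (fun n => by
      have h2 := (v n).le_of_opNorm_le (lim_norm (hv n)) ζ
      rw [one_mul] at h2
      exact pow_le_pow_left₀ (norm_nonneg _) h2 2)
      fun n m hnm => lim_pyth (hv n) (hv m) (hle n m hnm) ζ)
  choose f hf using h1
  refine ⟨ContinuousLinearMap.ofTendstoOfBoundedRange f v (tendsto_pi_nhds.2 hf) ?_, hf⟩
  refine isBounded_iff_forall_norm_le.2 ⟨1, ?_⟩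
  rintro _ ⟨n, rfl⟩
  exact lim_norm (hv n)

theorem lim_chain (v : ℕ → H →L[ℂ] H) (hN : ∀ n, v n ∈ N)
    (hv : ∀ n, v n * star (v n) * v n = v n)
    (hle : ∀ n m, n ≤ m → v m * (star (v n) * v n) = v n) :
    ∃ w : H →L[ℂ] H, w ∈ N ∧ w * star w * w = w ∧ (∀ n, w * (star (v n) * v n) = v n) ∧
      (∀ ζ, Tendsto (fun n => v n ζ) atTop (𝓝 (w ζ))) ∧
      ∀ ζ, Tendsto (fun n => star (v n) ζ) atTop (𝓝 (star w ζ)) := by
  obtain ⟨w, hw⟩ := lim_op v hv hle
  obtain ⟨w', hw'⟩ := lim_op (fun n => star (v n)) (fun n => lim_star (hv n))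
    fun n m hnm => lim_le_star (hv n) (hv m) (hle n m hnm)
  have h1 : w' = star w := by
    rw [ContinuousLinearMap.star_eq_adjoint, ContinuousLinearMap.eq_adjoint_iff]
    intro x y
    refine tendsto_nhds_unique ((hw' x).inner (𝕜 := ℂ) (tendsto_const_nhds (x := y))) ?_
    refine (tendsto_const_nhds.inner (𝕜 := ℂ) (hw y)).congr fun n => ?_
    rw [ContinuousLinearMap.star_eq_adjoint, ContinuousLinearMap.adjoint_inner_left]
  subst h1
  have h2 : ∀ n, w * (star (v n) * v n) = v n := fun n => by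
    ext ζ
    refine tendsto_nhds_unique (hw ((star (v n) * v n) ζ)) (tendsto_const_nhds.congr' ?_)
    filter_upwards [eventually_ge_atTop n] with m hm
    exact (congrArg (fun a : H →L[ℂ] H => a ζ) (hle n m hm)).symm
  have h3 : ∀ n, star w * v n = star (v n) * v n := fun n => by
    ext ζ
    refine tendsto_nhds_unique (hw' (v n ζ)) (tendsto_const_nhds.congr' ?_)
    filter_upwards [eventually_ge_atTop n] with m hm
    exact (congrArg (fun a : H →L[ℂ] H => a ζ) (lim_fe (hv n) (hv m) (hle n m hm))).symm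
  refine ⟨w, ?_, ?_, h2, hw, hw'⟩
  · rw [← N.commutant_commutant, VonNeumannAlgebra.mem_commutant_iff]
    intro g hg
    ext ζ
    refine tendsto_nhds_unique ((g.continuous.tendsto _).comp (hw ζ)) ((hw (g ζ)).congr fun n => ?_)
    exact congrArg (fun a : H →L[ℂ] H => a ζ)
      (VonNeumannAlgebra.mem_commutant_iff.1 hg (v n) (hN n))
  · ext ζ
    refine tendsto_nhds_unique (((w * star w).continuous.tendsto _).comp (hw ζ))
      ((hw ζ).congr fun n => ?_)
    have e : w * star w * v n = v n := by rw [mul_assoc, h3, h2]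
    exact (congrArg (fun a : H →L[ℂ] H => a ζ) e).symm

/-- A family of isometries between subspaces that is closed under strong limits has a maximal
element for the extension order. -/
theorem II1.exists_max (h : II1 N ξ τ) (S : Set (H →L[ℂ] H)) (hne : S.Nonempty)
    (hS : ∀ v ∈ S, v ∈ N ∧ v * star v * v = v)
    (hlim : ∀ (v : ℕ → H →L[ℂ] H) (w : H →L[ℂ] H), (∀ n, v n ∈ S) → w ∈ N →
      w * star w * w = w → (∀ ζ, Tendsto (fun n => v n ζ) atTop (𝓝 (w ζ))) →
      (∀ ζ, Tendsto (fun n => star (v n) ζ) atTop (𝓝 (star w ζ))) → w ∈ S) :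
    ∃ v ∈ S, ∀ w ∈ S, w * (star v * v) = v → w = v := by
  obtain ⟨T, hT⟩ := h.lin
  have hd : ∀ v ∈ S, ∀ w ∈ S, w * (star v * v) = v → (τ (star (w - v) * (w - v))).re =
      (τ (star w * w)).re - (τ (star v * v)).re := fun v hv w hw e => by
    rw [lim_diff (hS v hv).2 (hS w hw).2 e, hT, map_sub, Complex.sub_re, ← hT, ← hT]
  have h1 : ∀ (n : ℕ) (v : S), ∃ v' : S, v'.1 * (star v.1 * v.1) = v.1 ∧ ∀ w ∈ S,
      w * (star v.1 * v.1) = v.1 →
        (τ (star w * w)).re ≤ (τ (star v'.1 * v'.1)).re + 1 / ((n : ℝ) + 1) := fun n v => by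
    let A : Set ℝ := {r | ∃ w ∈ S, w * (star v.1 * v.1) = v.1 ∧ r = (τ (star w * w)).re}
    have hA : A.Nonempty := ⟨_, v.1, v.2, by rw [← mul_assoc, (hS _ v.2).2], rfl⟩
    have hB : BddAbove A := ⟨(τ 1).re, by
      rintro _ ⟨w, hw, -, rfl⟩
      exact h.proj_mono (lim_proj (hS w hw).2) (IsStarProjection.one _) (one_mul _)⟩
    obtain ⟨_, ⟨v', hv', e, rfl⟩, hlt⟩ := exists_lt_of_lt_csSup hA
      (sub_lt_self (sSup A) (Nat.one_div_pos_of_nat (n := n)))
    refine ⟨⟨v', hv'⟩, e, fun w hw e' => ?_⟩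
    have h2 := le_csSup hB ⟨w, hw, e', rfl⟩
    change _ ≤ (τ (star v' * v')).re + _
    linarith
  choose g hg hg' using h1
  obtain ⟨v₀, hv₀⟩ := hne
  let v : ℕ → S := fun n => Nat.rec ⟨v₀, hv₀⟩ g n
  have hle : ∀ n m, n ≤ m → (v m).1 * (star (v n).1 * (v n).1) = (v n).1 := fun n m hnm => by
    induction m, hnm using Nat.le_induction with
    | base => rw [← mul_assoc, (hS _ (v n).2).2]
    | succ m _ ih => exact lim_trans (hS _ (v n).2).2 (hS _ (v m).2).2 ih (hg m (v m))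
  obtain ⟨w, hwN, hw, hvw, ht, ht'⟩ := lim_chain (N := N) (fun n => (v n).1)
    (fun n => (hS _ (v n).2).1) (fun n => (hS _ (v n).2).2) hle
  have hwS : w ∈ S := hlim _ w (fun n => (v n).2) hwN hw ht ht'
  refine ⟨w, hwS, fun u hu e => ?_⟩
  rw [← sub_eq_zero]
  refine lim_faith h (sub_mem (hS u hu).1 hwN) ?_
  rw [hd w hwS u hu e]
  refine le_of_forall_pos_le_add fun ε hε => ?_
  obtain ⟨n, hn⟩ := exists_nat_one_div_lt hε
  have h2 := hg' n (v n) u hu (lim_trans (hS _ (v n).2).2 hw (hvw n) e)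
  have h3 := h.pos (w - (v (n + 1)).1)
  rw [hd _ (v (n + 1)).2 w hwS (hvw (n + 1))] at h3
  change _ ≤ (τ (star (v (n + 1)).1 * (v (n + 1)).1)).re + _ at h2
  linarith

end Pool.Agent.Lib.MP_64d6f1_an.II
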