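import Pool.Agent.Lib.MP_64d6f1_an.II.Lim

/-! Range projections and spectral cuts. -/

open Filter Topology

namespace Pool.Agent.Lib.MP_64d6f1_an.II

variable {H : Type} [NormedAddCommGroup H] [InnerProductSpace ℂ H] [CompleteSpace H]
  {N : VonNeumannAlgebra H} {ξ : ℕ → H} {τ : (H →L[ℂ] H) → ℂ}

theorem vn_isClosed (N : VonNeumannAlgebra H) : IsClosed (N : Set (H →L[ℂ] H)) := by
  rw [← N.centralizer_centralizer]
  exact Set.isClosed_centralizer _

theorem exists_rng {x : H →L[ℂ] H} (hx : x ∈ N) : ∃ R ∈ N, IsStarProjection R ∧ R * x = x ∧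
    (∀ y : H →L[ℂ] H, y * x = 0 → y * R = 0) ∧ ∀ ζ, R ζ ∈ closure (Set.range x) := by
  set K : Submodule ℂ H := (LinearMap.range (x : H →ₗ[ℂ] H)).topologicalClosure with hK
  have hKc : IsClosed (K : Set H) := Submodule.isClosed_topologicalClosure _
  have : CompleteSpace K := hKc.completeSpace_coe
  have hmem : ∀ ζ, ζ ∈ K ↔ ζ ∈ closure (Set.range x) := by
    intro ζ
    rw [← SetLike.mem_coe, hK, Submodule.topologicalClosure_coe, LinearMap.coe_range]
    rfl
  have hP : IsStarProjection K.starProjection := isStarProjection_starProjection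
  refine ⟨K.starProjection, ?_, hP, ?_, ?_, fun ζ => (hmem _).1 (K.starProjection_apply_mem ζ)⟩
  · rw [VonNeumannAlgebra.IsStarProjection.mem_iff hP]
    intro y hy
    rw [Submodule.range_starProjection, Module.End.mem_invtSubmodule]
    intro ζ hζ
    have hxy : x * y = y * x := VonNeumannAlgebra.mem_commutant_iff.1 hy x hx
    have hm : Set.MapsTo y (Set.range x) (Set.range x) := by
      rintro _ ⟨η, rfl⟩
      refine ⟨y η, ?_⟩
      have := congrArg (fun T : H →L[ℂ] H => T η) hxy
      simpa using this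
    exact (hmem _).2 (hm.closure y.continuous ((hmem _).1 hζ))
  · ext ζ
    rw [mul_apply_eq_comp, Submodule.starProjection_eq_self_iff]
    exact (hmem _).2 (subset_closure ⟨ζ, rfl⟩)
  · intro y hy
    ext ζ
    have h1 : closure (Set.range x) ⊆ {η | y η = 0} := by
      refine closure_minimal ?_ (isClosed_eq y.continuous continuous_const)
      rintro _ ⟨η, rfl⟩
      have := congrArg (fun T : H →L[ℂ] H => T η) hy
      simpa using this
    exact h1 ((hmem _).1 (K.starProjection_apply_mem ζ))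

theorem rng_cfc_mem {a : H →L[ℂ] H} (ha : a ∈ N) (f : ℝ → ℝ) : cfc f a ∈ N := by
  have : IsClosed (N.toStarSubalgebra : Set (H →L[ℂ] H)) := vn_isClosed N
  exact cfc_mem (𝕜' := ℂ) (s := N.toStarSubalgebra) f ha

theorem rng_norm_one_sub {s : H →L[ℂ] H} (hs : IsStarProjection s) : ‖1 - s‖ ≤ 1 :=
  hs.one_sub.norm_le

theorem exists_cut {x : H →L[ℂ] H} (hx : x ∈ N) {c : ℝ} (hc : 0 < c) :
    ∃ s ∈ N, ∃ v ∈ N, IsStarProjection s ∧ star v * v = s ∧
      (∀ y : H →L[ℂ] H, y * x = 0 → y * s = 0) ∧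
      (∀ y : H →L[ℂ] H, y * star x = 0 → y * v = 0) ∧ ‖(1 - s) * x‖ ^ 2 ≤ c := by
  set a : H →L[ℂ] H := x * star x with ha
  have haN : a ∈ N := mul_mem hx (star_mem hx)
  have hsa : IsSelfAdjoint a := IsSelfAdjoint.mul_star_self x
  have hpos : ∀ t ∈ spectrum ℝ a, 0 ≤ t := fun t ht =>
    spectrum_nonneg_of_nonneg (mul_star_self_nonneg x) ht
  have hmax : ∀ t : ℝ, 0 < max t c := fun t => lt_max_of_lt_right hc
  let f : ℝ → ℝ := fun t => max (t - c) 0
  let g : ℝ → ℝ := fun t => (Real.sqrt (max t c))⁻¹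
  let k : ℝ → ℝ := fun t => max (t - c) 0 / max t c
  have hf : Continuous f := by fun_prop
  have hg : Continuous g :=
    Continuous.inv₀ (by fun_prop) fun t => (Real.sqrt_pos.2 (hmax t)).ne'
  have hk : Continuous k := Continuous.div (by fun_prop) (by fun_prop) fun t => (hmax t).ne'
  obtain ⟨s, hsN, hs, hsb, hys, -⟩ := exists_rng (rng_cfc_mem haN f)
  have hgsa : IsSelfAdjoint (cfc g a) := cfc_predicate g a
  have e1 : cfc g a * a * cfc g a * cfc f a = cfc f a := by
    have h1 : cfc g a * a * cfc g a * cfc f a = cfc (fun t => g t * t * g t * f t) a := by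
      rw [cfc_mul (fun t => g t * t * g t) f a (by fun_prop) (by fun_prop),
        cfc_mul (fun t => g t * t) g a (by fun_prop) (by fun_prop),
        cfc_mul g (fun t => t) a (by fun_prop) (by fun_prop), cfc_id' ℝ a]
    rw [h1]
    refine congrArg (fun u => cfc u a) (funext fun t => ?_)
    rcases le_total t c with h | h
    · simp only [f, max_eq_right (sub_nonpos.2 h), mul_zero]
    · have ht : 0 < t := hc.trans_le h
      have : g t * t * g t = 1 := by
        simp only [g, max_eq_left h]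
        have h2 := Real.mul_self_sqrt ht.le
        have h3 := (Real.sqrt_pos.2 ht).ne'
        field_simp
        nlinarith
      rw [this, one_mul]
  have e2 : a * cfc k a = cfc f a := by
    have h1 : a * cfc k a = cfc (fun t => t * k t) a := by
      rw [cfc_mul (fun t => t) k a (by fun_prop) (by fun_prop), cfc_id' ℝ a]
    rw [h1]
    refine congrArg (fun u => cfc u a) (funext fun t => ?_)
    rcases le_total t c with h | h
    · simp only [f, k, max_eq_right (sub_nonpos.2 h), zero_div, mul_zero]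
    · have ht : t ≠ 0 := (hc.trans_le h).ne'
      simp only [f, k, max_eq_left h]
      field_simp
  have e3 : ‖a - cfc f a‖ ≤ c := by
    have h1 : a - cfc f a = cfc (fun t => t - f t) a := by
      rw [cfc_sub (fun t => t) f a (by fun_prop) (by fun_prop), cfc_id' ℝ a]
    rw [h1]
    refine norm_cfc_le hc.le fun t ht => ?_
    have h0 := hpos t ht
    rw [Real.norm_eq_abs, abs_le]
    rcases le_total t c with h | h
    · simp only [f, max_eq_right (sub_nonpos.2 h)]
      constructor <;> linarith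
    · simp only [f, max_eq_left (sub_nonneg.2 h)]
      constructor <;> linarith
  refine ⟨s, hsN, star x * cfc g a * s,
    mul_mem (mul_mem (star_mem hx) (rng_cfc_mem haN g)) hsN, hs, ?_, ?_, ?_, ?_⟩
  · have h1 : (cfc g a * a * cfc g a - 1) * s = 0 := hys _ (by rw [sub_mul, e1, one_mul, sub_self])
    rw [sub_mul, one_mul, sub_eq_zero] at h1
    rw [star_mul, star_mul, star_star, hs.isSelfAdjoint.star_eq, hgsa.star_eq]
    calc s * (cfc g a * x) * (star x * cfc g a * s) = s * (cfc g a * a * cfc g a * s) := by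
          rw [ha]; simp only [mul_assoc]
      _ = s := by rw [h1, hs.isIdempotentElem.eq]
  · intro y hy
    refine hys y ?_
    rw [← e2, ha, ← mul_assoc, ← mul_assoc, hy, zero_mul, zero_mul]
  · intro y hy
    rw [← mul_assoc, ← mul_assoc, hy, zero_mul, zero_mul]
  · have h1 : (1 - s) * cfc f a = 0 := by rw [sub_mul, one_mul, hsb, sub_self]
    have h2 : (1 - s) * x * star ((1 - s) * x) = (1 - s) * (a - cfc f a) * (1 - s) := by
      rw [star_mul, hs.one_sub.isSelfAdjoint.star_eq, mul_sub (1 - s) a, h1, sub_zero, ha]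
      simp only [mul_assoc]
    have h3 := rng_norm_one_sub hs
    rw [sq, ← CStarRing.norm_self_mul_star, h2]
    calc ‖(1 - s) * (a - cfc f a) * (1 - s)‖ ≤ ‖1 - s‖ * ‖a - cfc f a‖ * ‖1 - s‖ :=
          norm_mul₃_le
      _ ≤ 1 * c * 1 := by gcongr
      _ = c := by ring

theorem rng_final {v s : H →L[ℂ] H} (hs : IsStarProjection s) (hv : star v * v = s) :
    IsStarProjection (v * star v) := by
  have hss := hs.isIdempotentElem.eq
  have h1 : v - v * s = 0 := by
    rw [← CStarRing.star_mul_self_eq_zero_iff, star_sub, star_mul, hs.isSelfAdjoint.star_eq]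
    calc (star v - s * star v) * (v - v * s)
        = star v * v - star v * v * s - s * (star v * v) + s * (star v * v) * s := by
          noncomm_ring
      _ = 0 := by rw [hv, hss, hss]; abel
  refine ⟨?_, IsSelfAdjoint.mul_star_self v⟩
  rw [IsIdempotentElem]
  calc v * star v * (v * star v) = v * (star v * v) * star v := by simp only [mul_assoc]
    _ = v * star v := by rw [hv, ← sub_eq_zero.1 h1]

theorem II1.rng (h : II1 N ξ τ) {x : H →L[ℂ] H} (hx : x ∈ N) :
    ∃ R ∈ N, IsStarProjection R ∧ R * x = x ∧ (∀ y : H →L[ℂ] H, y * x = 0 → y * R = 0) ∧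
      ∀ e ∈ N, IsStarProjection e → x * e = x → (τ R).re ≤ (τ e).re := by
  obtain ⟨R, hRN, hR, hRx, hyR, hcl⟩ := exists_rng hx
  refine ⟨R, hRN, hR, hRx, hyR, fun e _ he hxe => ?_⟩
  have hc : ∀ n : ℕ, (0 : ℝ) < (1 / ((n : ℝ) + 1)) ^ 2 := fun n => by positivity
  choose s hsN v hvN hs hv hys hyv hn using fun n : ℕ => exists_cut hx (hc n)
  have hle : ∀ n, (τ (s n)).re ≤ (τ e).re := by
    intro n
    have h1 : (1 - e) * v n = 0 := by
      refine hyv n _ ?_
      rw [← he.one_sub.isSelfAdjoint.star_eq, ← star_mul, mul_sub, mul_one, hxe, sub_self,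
        star_zero]
    rw [sub_mul, one_mul, sub_eq_zero] at h1
    rw [← hv n, h.comm _ (star_mem (hvN n)) _ (hvN n)]
    refine h.proj_mono (rng_final (hs n) (hv n)) he ?_
    rw [← mul_assoc, ← h1]
  have hsR : ∀ n, s n * R = s n := by
    intro n
    have h1 : (1 - R) * s n = 0 := hys n _ (by rw [sub_mul, one_mul, hRx, sub_self])
    rw [sub_mul, one_mul, sub_eq_zero] at h1
    have h2 := congrArg star h1
    rw [star_mul, (hs n).isSelfAdjoint.star_eq, hR.isSelfAdjoint.star_eq] at h2
    exact h2.symm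
  have hnx : ∀ n : ℕ, ‖(1 - s n) * x‖ ≤ 1 / ((n : ℝ) + 1) := fun n =>
    (pow_le_pow_iff_left₀ (norm_nonneg _) (by positivity) two_ne_zero).1 (hn n)
  have hlim : ∀ ζ, Tendsto (fun n => s n ζ) atTop (𝓝 (R ζ)) := by
    intro ζ
    rw [Metric.tendsto_atTop]
    intro ε hε
    obtain ⟨_, ⟨η, rfl⟩, hη⟩ := Metric.mem_closure_iff.1 (hcl ζ) (ε / 2) (by positivity)
    have ht : Tendsto (fun n : ℕ => 1 / ((n : ℝ) + 1) * ‖η‖) atTop (𝓝 0) := by
      simpa using (tendsto_one_div_add_atTop_nhds_zero_nat (𝕜 := ℝ)).mul_const ‖η‖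
    obtain ⟨n₀, hn₀⟩ := eventually_atTop.1 (ht.eventually (gt_mem_nhds (half_pos hε)))
    refine ⟨n₀, fun n hnn => ?_⟩
    have h1 : R ζ - s n ζ = (1 - s n) (R ζ - x η) + ((1 - s n) * x) η := by
      have h2 : s n (R ζ) = s n ζ := by
        rw [← mul_apply_eq_comp, hsR n]
      simp only [mul_apply_eq_comp, sub_apply,
        one_apply_eq_self, map_sub, h2]
      abel
    rw [dist_comm, dist_eq_norm, h1]
    rw [dist_eq_norm] at hη
    have h3 : ‖(1 - s n) (R ζ - x η)‖ ≤ ‖R ζ - x η‖ := by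
      refine ((1 - s n).le_opNorm _).trans ?_
      have := rng_norm_one_sub (hs n)
      calc ‖1 - s n‖ * ‖R ζ - x η‖ ≤ 1 * ‖R ζ - x η‖ := by gcongr
        _ = _ := one_mul _
    have h4 : ‖((1 - s n) * x) η‖ ≤ 1 / ((n : ℝ) + 1) * ‖η‖ := by
      refine (((1 - s n) * x).le_opNorm _).trans ?_
      have := hnx n
      gcongr
    have h5 := hn₀ n hnn
    have h6 := norm_add_le ((1 - s n) (R ζ - x η)) (((1 - s n) * x) η)
    linarith
  have ht := h.normal s 1 (fun n => (hs n).norm_le) R hlim
  exact le_of_tendsto' ((Complex.continuous_re.tendsto _).comp ht) hle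

end Pool.Agent.Lib.MP_64d6f1_an.II
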