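import Pool.Agent.Lib.MP_64d6f1_an.II.Basic

/-! A spectral partition for one real function. -/

namespace Pool.Agent.Lib.MP_64d6f1_an.II

/-- Real functions on the circle. -/
abbrev spec1R : Type := C(AddCircle (1 : ℝ), ℝ)

/-- A real function as a complex one. -/
noncomputable def spec1c (f : spec1R) : CT := ⟨fun x => (f x : ℂ), by fun_prop⟩

/-- The positive part of `h - c`. -/
noncomputable def spec1up (h : spec1R) (c : ℝ) : spec1R := ⟨fun x => max (h x - c) 0, by fun_prop⟩

/-- The ramp from `a` to `b`. -/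
noncomputable def spec1rp (h : spec1R) (a b : ℝ) : spec1R :=
  ⟨fun x => max 0 (min 1 ((h x - a) / (b - a))), by fun_prop⟩

theorem spec1_mul (f g : spec1R) : spec1c (f * g) = spec1c f * spec1c g := by
  ext x
  simp [spec1c]

theorem spec1_sub (f g : spec1R) : spec1c (f - g) = spec1c f - spec1c g := by
  ext x
  simp [spec1c]

theorem spec1_one : spec1c 1 = 1 := by
  ext x
  simp [spec1c]

theorem spec1_zero : spec1c 0 = 0 := by
  ext x
  simp [spec1c]

theorem spec1_norm {f : spec1R} {r : ℝ} (hr : 0 ≤ r) (h : ∀ x, |f x| ≤ r) : ‖spec1c f‖ ≤ r :=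
  (ContinuousMap.norm_le _ hr).2 fun x => by simpa [spec1c] using h x

variable {A : Type} [CStarAlgebra A] {Φ : CT →⋆ₐ[ℂ] A} {h : spec1R} {S : ℝ → A}

/-- `S c` is the range projection of the positive part of `h - c`. -/
structure spec1P (Φ : CT →⋆ₐ[ℂ] A) (h : spec1R) (S : ℝ → A) : Prop where
  proj : ∀ c, IsStarProjection (S c)
  fix : ∀ c, S c * Φ (spec1c (spec1up h c)) = Φ (spec1c (spec1up h c))
  ann : ∀ c y, y * Φ (spec1c (spec1up h c)) = 0 → y * S c = 0

theorem spec1P.comm (P : spec1P Φ h S) (c : ℝ) {y : A} (hy : ∀ g, Φ g * y = y * Φ g) :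
    S c * y = y * S c := by
  have key : ∀ z : A, (∀ g, Φ g * z = z * Φ g) → z * S c = S c * z * S c := fun z hz => by
    have := P.ann c ((1 - S c) * z) (by
      rw [mul_assoc, ← hz, ← mul_assoc, sub_mul, one_mul, P.fix, sub_self, zero_mul])
    rw [sub_mul, sub_mul, one_mul] at this
    exact sub_eq_zero.1 this
  have h2 := congrArg star (key (star y) fun g => by
    have := congrArg star (hy (star g))
    simp only [star_mul, ← map_star, star_star] at this
    exact this.symm)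
  simp only [star_mul, star_star, (P.proj c).isSelfAdjoint.star_eq] at h2
  rw [h2, ← mul_assoc, ← key y hy]

theorem spec1P.comm' (P : spec1P Φ h S) (c : ℝ) (g : CT) : S c * Φ g = Φ g * S c :=
  P.comm c fun g' => by rw [← map_mul, ← map_mul, mul_comm]

theorem spec1P.abs (P : spec1P Φ h S) {a b : ℝ} (hab : a < b) (f g : spec1R)
    (hf : ∀ x, f x * max (h x - a) (b - a) = max (h x - a) 0 * g x) :
    S a * Φ (spec1c f) = Φ (spec1c f) := by
  have hp : ∀ x, 0 < max (h x - a) (b - a) := fun x => lt_max_of_lt_right (sub_pos.2 hab)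
  let k : spec1R := ⟨fun x => g x / max (h x - a) (b - a),
    g.continuous.div (by fun_prop) fun x => (hp x).ne'⟩
  have e : f = spec1up h a * k := by
    ext x
    change f x = max (h x - a) 0 * (g x / max (h x - a) (b - a))
    rw [← mul_div_assoc, ← hf, mul_div_cancel_right₀ _ (hp x).ne']
  rw [e, spec1_mul, map_mul, ← mul_assoc, P.fix]

theorem spec1P.kill (P : spec1P Φ h S) (c : ℝ) (f : spec1R) (hf : ∀ x, c < h x → f x = 0) :
    Φ (spec1c f) * S c = 0 := by
  refine P.ann c _ ?_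
  have e : f * spec1up h c = 0 := by
    ext x
    change f x * max (h x - c) 0 = 0
    rcases lt_or_ge c (h x) with hx | hx
    · rw [hf x hx, zero_mul]
    · rw [max_eq_right (sub_nonpos.2 hx), mul_zero]
  rw [← map_mul, ← spec1_mul, e, spec1_zero, map_zero]

theorem spec1P.up (P : spec1P Φ h S) {a b : ℝ} (hab : a ≤ b) :
    S a * Φ (spec1c (spec1up h b)) = Φ (spec1c (spec1up h b)) := by
  rcases hab.eq_or_lt with rfl | hab
  · exact P.fix a
  refine P.abs hab _ (spec1up h b) fun x => ?_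
  change max (h x - b) 0 * _ = _ * max (h x - b) 0
  rcases le_total (h x) b with hx | hx
  · rw [max_eq_right (sub_nonpos.2 hx), zero_mul, mul_zero]
  · rw [max_eq_left (show b - a ≤ h x - a by linarith),
      max_eq_left (show 0 ≤ h x - a by linarith), mul_comm]

theorem spec1P.mono (P : spec1P Φ h S) {a b : ℝ} (hab : a ≤ b) : S a * S b = S b := by
  have := P.ann b (1 - S a) (by rw [sub_mul, one_mul, P.up hab, sub_self])
  rw [sub_mul, one_mul] at this
  exact (sub_eq_zero.1 this).symm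

theorem spec1P.mono' (P : spec1P Φ h S) {a b : ℝ} (hab : a ≤ b) : S b * S a = S b :=
  proj_comm_of_mul (P.proj a) (P.proj b) (P.mono hab)

theorem spec1P.sub (P : spec1P Φ h S) {a b : ℝ} (hab : a ≤ b) : IsStarProjection (S a - S b) := by
  refine ⟨?_, (P.proj a).isSelfAdjoint.sub (P.proj b).isSelfAdjoint⟩
  rw [IsIdempotentElem, sub_mul, mul_sub, mul_sub, P.mono hab, P.mono' hab, P.mono le_rfl,
    P.mono le_rfl, sub_self, sub_zero]

theorem spec1_phi (Φ : CT →⋆ₐ[ℂ] A) {g : CT} {r : ℝ} (hg : ‖g‖ ≤ r) : ‖Φ g‖ ≤ r :=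
  (NonUnitalStarAlgHom.norm_apply_le Φ g).trans hg

theorem spec1_rp (h : spec1R) (a b : ℝ) (x : AddCircle (1 : ℝ)) :
    0 ≤ spec1rp h a b x ∧ spec1rp h a b x ≤ 1 :=
  ⟨le_max_left _ _, max_le zero_le_one (min_le_left _ _)⟩

theorem spec1P.ramp (P : spec1P Φ h S) (F : Fac A) {a b : ℝ} (hab : a < b) (y : A) :
    ‖F.τ ((S a - Φ (spec1c (spec1rp h a b))) * y)‖ ≤ 2 * ‖y‖ * F.t (S a - S b) := by
  have hd : 0 < b - a := sub_pos.2 hab
  have h1 : S a * Φ (spec1c (spec1rp h a b)) = Φ (spec1c (spec1rp h a b)) := by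
    refine P.abs hab _ 1 fun x => ?_
    change max 0 (min 1 ((h x - a) / (b - a))) * _ = _ * 1
    rcases le_total (h x) b with hx | hx
    · rw [min_eq_right ((div_le_one hd).2 (by linarith)),
        max_eq_right (show h x - a ≤ b - a by linarith), mul_one]
      rcases le_total (h x) a with hx' | hx'
      · rw [max_eq_left (div_nonpos_of_nonpos_of_nonneg (by linarith) hd.le),
          max_eq_right (by linarith), zero_mul]
      · rw [max_eq_right (div_nonneg (by linarith) hd.le), max_eq_left (by linarith),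
          div_mul_cancel₀ _ hd.ne']
    · rw [min_eq_left ((one_le_div hd).2 (by linarith)), max_eq_right zero_le_one,
        max_eq_left (show b - a ≤ h x - a by linarith), max_eq_left (by linarith), mul_comm]
  have h2 := P.kill b (1 - spec1rp h a b) fun x hx => by
    change 1 - max 0 (min 1 ((h x - a) / (b - a))) = 0
    rw [min_eq_left ((one_le_div hd).2 (by linarith)), max_eq_right zero_le_one, sub_self]
  rw [spec1_sub, spec1_one, map_sub, map_one, sub_mul, one_mul, ← P.comm'] at h2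
  have h3 : (S a - S b) * (S a - Φ (spec1c (spec1rp h a b))) =
      S a - Φ (spec1c (spec1rp h a b)) := by
    rw [sub_mul, mul_sub, mul_sub, P.mono le_rfl, h1, P.mono' hab.le, h2, sub_zero]
  have h4 : ‖S a - Φ (spec1c (spec1rp h a b))‖ ≤ 2 := by
    have := spec1_phi Φ (spec1_norm zero_le_one fun x =>
      abs_le.2 ⟨by linarith [(spec1_rp h a b x).1], (spec1_rp h a b x).2⟩)
    linarith [norm_sub_le (S a) (Φ (spec1c (spec1rp h a b))), (P.proj a).norm_le]
  rw [← h3, mul_assoc]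
  refine (F.proj_bound (P.sub hab.le) _).trans
    (mul_le_mul_of_nonneg_right ?_ (F.t_proj_nonneg (P.sub hab.le)))
  exact (norm_mul_le _ _).trans (mul_le_mul_of_nonneg_right h4 (norm_nonneg y))

theorem spec1P.clamp (P : spec1P Φ h S) {a b : ℝ} (hab : a ≤ b) :
    ‖(Φ (spec1c h) - (a : ℂ) • 1) * (S a - S b)‖ ≤ b - a := by
  let k : spec1R := ⟨fun x => max 0 (min (h x - a) (b - a)), by fun_prop⟩
  let w : spec1R := ⟨fun x => max (a - h x) 0, by fun_prop⟩
  have e : spec1c h - (a : ℂ) • 1 = spec1c k + spec1c (spec1up h b) - spec1c w := by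
    ext x
    have : h x - a = max 0 (min (h x - a) (b - a)) + max (h x - b) 0 - max (a - h x) 0 := by
      simp only [max_def, min_def]
      split_ifs <;> linarith
    simp only [spec1c, spec1up, k, w, ContinuousMap.sub_apply, ContinuousMap.add_apply,
      ContinuousMap.smul_apply, ContinuousMap.one_apply, ContinuousMap.coe_mk, smul_eq_mul, mul_one]
    exact_mod_cast this
  have h1 : Φ (spec1c w) * S a = 0 := P.kill a w fun x hx => max_eq_right (by linarith)
  have h2 : Φ (spec1c w) * S b = 0 := P.kill b w fun x hx => max_eq_right (by linarith)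
  have h3 : (Φ (spec1c h) - (a : ℂ) • 1) * (S a - S b) = Φ (spec1c k) * (S a - S b) := by
    rw [← map_one Φ, ← map_smul, ← map_sub, e, map_sub, map_add, sub_mul, add_mul,
      mul_sub (Φ (spec1c w)), h1, h2, mul_sub (Φ (spec1c (spec1up h b))), ← P.comm', ← P.comm',
      P.up hab, P.fix]
    simp
  have h4 : ‖Φ (spec1c k)‖ ≤ b - a := spec1_phi Φ (spec1_norm (sub_nonneg.2 hab) fun x =>
    abs_le.2 ⟨le_max_of_le_left (by linarith), max_le (sub_nonneg.2 hab) (min_le_right _ _)⟩)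
  rw [h3]
  refine (norm_mul_le _ _).trans ?_
  exact (mul_le_mul h4 (P.sub hab).norm_le (norm_nonneg _) (sub_nonneg.2 hab)).trans
    (mul_one _).le

theorem spec1P.pick (P : spec1P Φ h S) (F : Fac A) (c : ℕ → ℝ) {L : ℕ} (hL : 0 < L) :
    ∃ l < L, F.t (S (c l) - S (c (l + 1))) ≤ 1 / L := by
  have h1 : ∑ l ∈ Finset.range L, F.t (S (c l) - S (c (l + 1))) ≤
      ∑ _l ∈ Finset.range L, (1 / L : ℝ) := by
    rw [← map_sum, Finset.sum_range_sub' (fun l => S (c l)), map_sub]
    have : (L : ℝ) ≠ 0 := by positivity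
    simp only [Finset.sum_const, Finset.card_range, nsmul_eq_mul, mul_one_div_cancel this]
    linarith [F.t_proj_le_one (P.proj (c 0)), F.t_proj_nonneg (P.proj (c L))]
  obtain ⟨l, hl, h2⟩ := Finset.exists_le_of_sum_le ⟨0, Finset.mem_range.2 hL⟩ h1
  exact ⟨l, Finset.mem_range.1 hl, h2⟩

theorem spec1 (h : C(AddCircle (1 : ℝ), ℝ)) (hh : ∀ x, |h x| ≤ 1) {ρ : ℝ} (hρ : 0 < ρ) :
    ∃ m : ℕ, ∀ ε : ℝ, 0 < ε → ∃ G : Set CT, G.Finite ∧ (∀ g ∈ G, ‖g‖ ≤ 1) ∧
      ∀ (A : Type) [CStarAlgebra A] (F : Fac A) (Φ : CT →⋆ₐ[ℂ] A),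
        ∃ (s : Fin m → A) (lam : Fin m → ℝ), PVM s ∧
          (∀ i y, (∀ g, Φ g * y = y * Φ g) → s i * y = y * s i) ∧
          (∀ i, ‖(Φ ⟨fun x => (h x : ℂ), by fun_prop⟩ - (lam i : ℂ) • 1) * s i‖ ≤ ρ) ∧
          ∀ i, ∃ g ∈ G, ∀ y, ‖F.τ ((s i - Φ g) * y)‖ ≤ ε * ‖y‖ := by
  obtain ⟨δ, hδ, hδ1, hδ2⟩ : ∃ δ : ℝ, 0 < δ ∧ δ ≤ 1 / 2 ∧ 2 * δ ≤ ρ :=
    ⟨min (1 / 2) (ρ / 2), by positivity, min_le_left _ _,
      by linarith [min_le_right (1 / 2) (ρ / 2)]⟩
  obtain ⟨m, hm⟩ := exists_nat_ge (3 / δ)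
  refine ⟨m, fun ε hε => ?_⟩
  obtain ⟨L, hL⟩ := exists_nat_gt (4 / ε)
  have hL0 : (0 : ℝ) < L := lt_trans (by positivity) hL
  let c : ℕ → ℕ → ℝ := fun i l => -2 + δ * (i + l / L)
  have hc : ∀ i l, c i l < c i (l + 1) := fun i l => by
    simp only [c]
    push_cast
    gcongr
    linarith
  let γ : Fin m × Fin L × Fin L → CT := fun p =>
    spec1c (spec1rp h (c p.1 p.2.1) (c p.1 (p.2.1 + 1)) -
      spec1rp h (c (p.1 + 1) p.2.2) (c (p.1 + 1) (p.2.2 + 1)))
  refine ⟨Set.range γ, Set.finite_range _, ?_, fun A _ F Φ => ?_⟩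
  · rintro _ ⟨p, rfl⟩
    refine spec1_norm zero_le_one fun x => ?_
    have h1 := spec1_rp h (c p.1 p.2.1) (c p.1 (p.2.1 + 1)) x
    have h2 := spec1_rp h (c (p.1 + 1) p.2.2) (c (p.1 + 1) (p.2.2 + 1)) x
    rw [ContinuousMap.sub_apply]
    exact abs_le.2 ⟨by linarith, by linarith⟩
  choose S h1 h2 h3 _ using fun a : ℝ => F.rng (Φ (spec1c (spec1up h a)))
  have P : spec1P Φ h S := ⟨h1, h2, h3⟩
  choose l hl hl' using fun i => P.pick F (c i) (show 0 < L by exact_mod_cast hL0)
  let a : ℕ → ℝ := fun i => c i (l i)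
  have ha : ∀ i, -2 + δ * i ≤ a i ∧ a i ≤ -2 + δ * (i + 1) := fun i => by
    have h4 : (l i : ℝ) / L ≤ 1 := (div_le_one hL0).2 (by exact_mod_cast (hl i).le)
    have h5 : 0 ≤ (l i : ℝ) / L := by positivity
    simp only [a, c]
    constructor <;> nlinarith
  have hmono : Monotone a := monotone_nat_of_le_succ fun i => by
    have := (ha (i + 1)).1
    push_cast at this
    linarith [(ha i).2]
  have e0 : S (a 0) = 1 := by
    have h4 := (ha 0).2
    have := P.abs (a := a 0) (b := -1) (by simp at h4; linarith) 1 1 fun x => by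
      have h5 := (abs_le.1 (hh x)).1
      simp at h4
      rw [ContinuousMap.one_apply, one_mul, mul_one, max_eq_left (by linarith),
        max_eq_left (by linarith)]
    rwa [spec1_one, map_one, mul_one] at this
  have e1 : S (a m) = 0 := by
    have h4 := (ha m).1
    have h5 : 3 ≤ δ * m := by rwa [div_le_iff₀' hδ] at hm
    have := P.kill (a m) 1 fun x hx => absurd (abs_le.1 (hh x)).2 (by linarith)
    rwa [spec1_one, map_one, one_mul] at this
  have ho : ∀ i j : ℕ, i < j →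
      (S (a i) - S (a (i + 1))) * (S (a j) - S (a (j + 1))) = 0 := fun i j hij => by
    rw [sub_mul, mul_sub, mul_sub, P.mono (hmono hij.le), P.mono (hmono (by omega : i ≤ j + 1)),
      P.mono (hmono (by omega : i + 1 ≤ j)), P.mono (hmono (by omega : i + 1 ≤ j + 1)), sub_self]
  refine ⟨fun i => S (a i) - S (a (i + 1)), fun i => a i,
    ⟨fun i => P.sub (hmono (Nat.le_succ _)), fun i j hij => ?_, ?_⟩, fun i y hy => ?_,
    fun i => ?_, fun i => ⟨_, ⟨(i, ⟨l i, hl i⟩, ⟨l (i + 1), hl _⟩), rfl⟩, fun y => ?_⟩⟩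
  · rcases lt_or_gt_of_ne hij with hij | hij
    · exact ho i j hij
    · have := congrArg star (ho j i hij)
      rwa [star_mul, (P.sub (hmono (Nat.le_succ _))).isSelfAdjoint.star_eq,
        (P.sub (hmono (Nat.le_succ _))).isSelfAdjoint.star_eq, star_zero] at this
  · rw [Fin.sum_univ_eq_sum_range (fun i => S (a i) - S (a (i + 1))),
      Finset.sum_range_sub' (fun i => S (a i)), e0, e1, sub_zero]
  · rw [sub_mul, mul_sub, P.comm _ hy, P.comm _ hy]
  · refine (P.clamp (hmono (Nat.le_succ (i : ℕ)))).trans ?_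
    have h4 := (ha (i + 1)).2
    push_cast at h4
    have h5 := (ha i).1
    simp only [Nat.succ_eq_add_one]
    linarith
  · have h4 := P.ramp F (hc i (l i)) y
    have h5 := P.ramp F (hc (i + 1) (l (i + 1))) y
    have h6 : 4 * (1 / L : ℝ) ≤ ε := by
      rw [div_lt_iff₀ hε] at hL
      rw [mul_one_div, div_le_iff₀ hL0]
      linarith
    simp only [γ, spec1_sub, map_sub Φ]
    rw [sub_sub_sub_comm, sub_mul, map_sub]
    refine (norm_sub_le _ _).trans ?_
    have h7 := mul_le_mul_of_nonneg_left (hl' i) (norm_nonneg y)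
    have h8 := mul_le_mul_of_nonneg_left (hl' (i + 1)) (norm_nonneg y)
    have h9 := mul_le_mul_of_nonneg_left h6 (norm_nonneg y)
    simp only [a]
    linarith

end Pool.Agent.Lib.MP_64d6f1_an.II
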