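import Pool.Agent.Lib.MP_64d6f1_an.II.Basic

/-! Splitting a projection, choosing a good piece, filling a corner, merging small cells. -/

namespace Pool.Agent.Lib.MP_64d6f1_an.II

variable {A : Type} [CStarAlgebra A] (F : Fac A)

theorem split_finset {ι : Type} (c : ι → ℝ) (hc : ∀ i, 0 ≤ c i) (s : Finset ι) :
    ∀ r : A, IsStarProjection r → ∑ i ∈ s, c i = F.t r →
      ∃ E : ι → A, (∀ i ∈ s, IsStarProjection (E i) ∧ r * E i = E i ∧ F.t (E i) = c i) ∧
        (∀ i ∈ s, ∀ j ∈ s, i ≠ j → E i * E j = 0) ∧ ∑ i ∈ s, E i = r := by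
  classical
  induction s using Finset.induction_on with
  | empty =>
    intro r hr h
    exact ⟨fun _ => 0, by simp, by simp, (F.t_proj_eq_zero hr (by simpa using h.symm)).symm⟩
  | insert a s ha ih =>
    intro r hr h
    rw [Finset.sum_insert ha] at h
    have h0 : 0 ≤ ∑ i ∈ s, c i := Finset.sum_nonneg fun i _ => hc i
    obtain ⟨e, he, re, te⟩ := F.div r hr (c a) (hc a) (by rw [← F.t_apply]; linarith)
    rw [← F.t_apply] at te
    have er := proj_comm_of_mul hr he re
    have hr' := he.sub_of_mul_eq_right hr re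
    obtain ⟨E, h1, h2, h3⟩ := ih (r - e) hr' (by rw [map_sub]; linarith)
    have k1 : ∀ i ∈ s, e * E i = 0 := fun i hi => by
      rw [← (h1 i hi).2.1, ← mul_assoc, mul_sub, er, he.isIdempotentElem.eq, sub_self, zero_mul]
    have k2 : ∀ i ∈ s, E i * e = 0 := fun i hi => by
      simpa [he.isSelfAdjoint.star_eq, (h1 i hi).1.isSelfAdjoint.star_eq] using
        congrArg star (k1 i hi)
    have k3 : ∀ i ∈ s, Function.update E a e i = E i := fun i hi =>
      Function.update_of_ne (fun k : i = a => ha (k ▸ hi)) _ _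
    refine ⟨Function.update E a e, fun i hi => ?_, fun i hi j hj n => ?_, ?_⟩
    · rcases Finset.mem_insert.1 hi with rfl | hi
      · rw [Function.update_self]
        exact ⟨he, re, te⟩
      · rw [k3 i hi]
        refine ⟨(h1 i hi).1, ?_, (h1 i hi).2.2⟩
        have := (h1 i hi).2.1
        rwa [sub_mul, k1 i hi, sub_zero] at this
    · rcases Finset.mem_insert.1 hi with e1 | hi <;> rcases Finset.mem_insert.1 hj with e2 | hj
      · exact absurd (e1.trans e2.symm) n
      · rw [e1, Function.update_self, k3 j hj, k1 j hj]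
      · rw [e2, Function.update_self, k3 i hi, k2 i hi]
      · rw [k3 i hi, k3 j hj, h2 i hi j hj n]
    · rw [Finset.sum_insert ha, Function.update_self, Finset.sum_congr rfl k3, h3, add_sub_cancel]

theorem Fac.split {ι : Type} [Fintype ι] {r : A} (hr : IsStarProjection r) (c : ι → ℝ)
    (hc : ∀ i, 0 ≤ c i) (hs : ∑ i, c i = F.t r) :
    ∃ E : ι → A, (∀ i, IsStarProjection (E i) ∧ r * E i = E i ∧ F.t (E i) = c i) ∧
      (∀ i j, i ≠ j → E i * E j = 0) ∧ ∑ i, E i = r := by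
  obtain ⟨E, h1, h2, h3⟩ := split_finset F c hc Finset.univ r hr hs
  exact ⟨E, fun i => h1 i (Finset.mem_univ _),
    fun i j => h2 i (Finset.mem_univ _) j (Finset.mem_univ _), h3⟩

theorem Fac.sel {r₀ r : A} (h₀ : IsStarProjection r₀) (hr : IsStarProjection r) (h : r₀ * r = r)
    {n j : ℕ} (hj : j < n) {s : ℝ} (hs : 0 ≤ s) (e₀ : F.t r₀ = n * s)
    (e₁ : ((n : ℝ) - j) * s ≤ F.t r) (Z : A) :
    ∃ f, IsStarProjection f ∧ r * f = f ∧ F.t f = s ∧
      F.t (r₀ * Z) / n - 2 * ‖Z‖ * j * s / n ≤ F.t (f * Z) := by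
  obtain ⟨m, rfl⟩ : ∃ m, n = m + 1 + j := ⟨n - j - 1, by omega⟩
  have n0 : (0 : ℝ) < (m + 1 + j : ℕ) := by positivity
  obtain ⟨r', hr', k1, k2⟩ := F.div r hr (((m + 1 : ℕ) : ℝ) * s) (by positivity)
    (by rw [← F.t_apply]; push_cast at e₁ ⊢; linarith)
  rw [← F.t_apply] at k2
  obtain ⟨E, h1, -, h3⟩ := F.split (ι := Fin (m + 1)) hr' (fun _ => s) (fun _ => hs) (by simp [k2])
  obtain ⟨i, -, hi⟩ := Finset.exists_max_image Finset.univ (fun i => F.t (E i * Z))
    Finset.univ_nonempty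
  have a1 : F.t (r' * Z) ≤ ((m + 1 : ℕ) : ℝ) * F.t (E i * Z) := by
    rw [← h3, Finset.sum_mul, map_sum]
    simpa using Finset.sum_le_card_nsmul _ _ _ hi
  have a2 := abs_le.1 (F.t_proj_bound (h1 i).1 Z)
  have a3 := abs_le.1 (F.t_proj_bound (hr'.sub_of_mul_eq_right h₀
    (by rw [← k1, ← mul_assoc, h])) Z)
  rw [sub_mul, map_sub, map_sub, e₀, k2] at a3
  rw [(h1 i).2.2] at a2
  refine ⟨E i, (h1 i).1, by rw [← (h1 i).2.1, ← mul_assoc, k1], (h1 i).2.2, ?_⟩
  rw [← sub_div, div_le_iff₀ n0]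
  have a4 := mul_le_mul_of_nonneg_left a2.1 (Nat.cast_nonneg (α := ℝ) j)
  push_cast at *
  linarith [a3.2]

theorem split_proj {ι : Type} {e : ι → A} (s : Finset ι) (he : ∀ a, IsStarProjection (e a))
    (ho : ∀ a b, a ≠ b → e a * e b = 0) : IsStarProjection (∑ a ∈ s, e a) := by
  rw [← Finset.sum_coe_sort]
  exact proj_sum (fun a => he a) fun a b h => ho a b fun k => h (Subtype.ext k)

theorem split_fill {ι : Type} [Fintype ι] {p S : ι → A} (hp : PVM p) {g : A}
    (hg : IsStarProjection g) (hgp : ∀ a, g * p a = p a * g) (h1 : ∀ a, IsStarProjection (S a))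
    (h2 : ∀ a b, a ≠ b → S a * S b = 0) (h3 : ∀ a, g * S a = 0) (h4 : ∑ a, S a = 1 - g) :
    PVM (fun a => g * p a + S a) ∧
      ∀ a, F.t (star (g * p a + S a - p a) * (g * p a + S a - p a)) ≤ 4 * F.t (1 - g) := by
  have k1 : ∀ a, S a * g = 0 := fun a => by
    simpa [hg.isSelfAdjoint.star_eq, (h1 a).isSelfAdjoint.star_eq] using congrArg star (h3 a)
  have k2 : ∀ a b, g * p a * S b = 0 := fun a b => by rw [hgp, mul_assoc, h3, mul_zero]
  have k3 : ∀ a, IsStarProjection (g * p a + S a) := fun a =>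
    (hg.mul (hp.proj a) (hgp a)).add (h1 a) (k2 a a)
  refine ⟨⟨k3, fun a b n => ?_, ?_⟩, fun a => ?_⟩
  · rw [add_mul, mul_add, mul_add, k2, h2 a b n, ← mul_assoc (S a), k1, hgp b, ← mul_assoc,
      mul_assoc g, hp.orth a b n]
    simp
  · rw [Finset.sum_add_distrib, ← Finset.mul_sum, hp.sum, h4, mul_one, add_sub_cancel]
  · obtain ⟨d, hd⟩ : ∃ d, d = g * p a + S a - p a := ⟨_, rfl⟩
    have d1 : (1 - g) * d = d := by
      rw [sub_mul, one_mul, sub_eq_self, hd, mul_sub, mul_add, h3, ← mul_assoc,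
        hg.isIdempotentElem.eq, add_zero, sub_self]
    have d2 : ‖d‖ ≤ 2 := by
      have := norm_sub_le (g * p a + S a) (p a)
      rw [← hd] at this
      linarith [(k3 a).norm_le, (hp.proj a).norm_le]
    have d3 : ‖d * star d‖ ≤ 4 := by
      rw [CStarRing.norm_self_mul_star]
      nlinarith [norm_nonneg d]
    have d4 := (abs_le.1 (F.t_proj_bound hg.one_sub (d * star d))).2
    rw [← mul_assoc, d1] at d4
    rw [← hd, F.t_comm]
    exact d4.trans (mul_le_mul_of_nonneg_right d3 (F.t_proj_nonneg hg.one_sub))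

/-- The corner `1 - g` is filled so that the two partitions become independent. -/
theorem Fac.fill {ι κ : Type} [Fintype ι] [Fintype κ] {p : ι → A} {q : κ → A} (hp : PVM p)
    (hq : PVM q) {g : A} (hg : IsStarProjection g) (hgp : ∀ a, g * p a = p a * g)
    (hgq : ∀ b, g * q b = q b * g) (α : ι → ℝ) (β : κ → ℝ) (hα : ∑ a, α a = 1)
    (hβ : ∑ b, β b = 1) (h : ∀ a b, F.t (g * p a * q b) ≤ α a * β b) :
    ∃ (P : ι → A) (Q : κ → A), PVM P ∧ PVM Q ∧
      (∀ a b, F.t (P a * Q b) = F.t (P a) * F.t (Q b)) ∧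
      (∀ a, F.t (star (P a - p a) * (P a - p a)) ≤ 4 * F.t (1 - g)) ∧
      ∀ b, F.t (star (Q b - q b) * (Q b - q b)) ≤ 4 * F.t (1 - g) := by
  classical
  obtain ⟨E, h1, h2, h3⟩ := F.split (ι := ι × κ) hg.one_sub
    (fun x => α x.1 * β x.2 - F.t (g * p x.1 * q x.2)) (fun x => sub_nonneg.2 (h _ _)) (by
      rw [Finset.sum_sub_distrib, ← map_sum]
      simp only [Fintype.sum_prod_type, ← Finset.mul_sum, hα, hβ, hq.sum, hp.sum,
        mul_one, map_sub, F.t_one])
  have k0 : ∀ x, g * E x = 0 := fun x => by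
    rw [← (h1 x).2.1, ← mul_assoc, hg.mul_one_sub_self, zero_mul]
  have k1 : ∀ x, E x * g = 0 := fun x => by
    simpa [hg.isSelfAdjoint.star_eq, (h1 x).1.isSelfAdjoint.star_eq] using congrArg star (k0 x)
  obtain ⟨a1, a2⟩ := split_fill F (S := fun a => ∑ b, E (a, b)) hp hg hgp
    (fun a => proj_sum (fun b => (h1 _).1) fun b b' n => h2 _ _ fun k => n (congrArg Prod.snd k))
    (fun a a' n => by
      rw [Finset.sum_mul_sum]
      exact Finset.sum_eq_zero fun b _ => Finset.sum_eq_zero fun b' _ =>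
        h2 _ _ fun k => n (congrArg Prod.fst k))
    (fun a => by simp [Finset.mul_sum, k0]) (by rw [← h3, Fintype.sum_prod_type])
  obtain ⟨b1, b2⟩ := split_fill F (S := fun b => ∑ a, E (a, b)) hq hg hgq
    (fun b => proj_sum (fun a => (h1 _).1) fun a a' n => h2 _ _ fun k => n (congrArg Prod.fst k))
    (fun b b' n => by
      rw [Finset.sum_mul_sum]
      exact Finset.sum_eq_zero fun a _ => Finset.sum_eq_zero fun a' _ =>
        h2 _ _ fun k => n (congrArg Prod.snd k))
    (fun b => by simp [Finset.mul_sum, k0]) (by rw [← h3, Fintype.sum_prod_type_right])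
  have c0 : ∀ a b, F.t ((g * p a + ∑ b, E (a, b)) * (g * q b + ∑ a, E (a, b))) = α a * β b := by
    intro a b
    have e1 : g * p a * (g * q b) = g * p a * q b := by
      rw [← mul_assoc, mul_assoc g, ← hgp, ← mul_assoc, hg.isIdempotentElem.eq]
    have e2 : g * p a * ∑ a, E (a, b) = 0 := by simp [hgp, mul_assoc, Finset.mul_sum, k0]
    have e3 : (∑ b, E (a, b)) * (g * q b) = 0 := by simp [← mul_assoc, Finset.sum_mul, k1]
    have e4 : (∑ b, E (a, b)) * ∑ a, E (a, b) = E (a, b) := by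
      rw [Finset.sum_mul_sum, Finset.sum_eq_single b, Finset.sum_eq_single a,
        (h1 _).1.isIdempotentElem.eq]
      · exact fun a' _ n => h2 _ _ fun k => n (congrArg Prod.fst k).symm
      · simp
      · exact fun b' _ n => Finset.sum_eq_zero fun a' _ => h2 _ _ fun k => n (congrArg Prod.snd k)
      · simp
    rw [add_mul, mul_add, mul_add, e1, e2, e3, e4, add_zero, zero_add, map_add, (h1 _).2.2]
    simp
  refine ⟨_, _, a1, b1, fun a b => ?_, a2, b2⟩
  have c1 := Finset.sum_congr (s₁ := Finset.univ) rfl fun b _ => c0 a b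
  have c2 := Finset.sum_congr (s₁ := Finset.univ) rfl fun a _ => c0 a b
  rw [← map_sum, ← Finset.mul_sum, b1.sum, ← Finset.mul_sum, hβ, mul_one, mul_one] at c1
  rw [← map_sum, ← Finset.sum_mul, a1.sum, ← Finset.sum_mul, hα, one_mul, one_mul] at c2
  rw [c0, c1, c2]

/-- Cells of small trace are merged into a large one. -/
theorem Fac.merge {ι : Type} [Fintype ι] [DecidableEq ι] {p : ι → A} (hp : PVM p) {j : ℕ}
    (hj : Fintype.card ι ≤ j) :
    ∃ (π : ι → ι) (P : ι → A), PVM P ∧ (∀ a, P a = ∑ a' with π a' = a, p a') ∧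
      (∀ a, F.t (P a) = 0 ∨ 1 ≤ j * F.t (P a)) ∧
      ∀ a, F.t (star (P a - p a) * (P a - p a)) ≤ Fintype.card ι / j := by
  rcases isEmpty_or_nonempty ι with h | h
  · exact ⟨id, p, hp, fun a => h.elim a, fun a => h.elim a, fun a => h.elim a⟩
  have t0 : ∀ a, 0 ≤ F.t (p a) := fun a => F.t_proj_nonneg (hp.proj a)
  have j1 : (Fintype.card ι : ℝ) ≤ j := by exact_mod_cast hj
  have j0 : (0 : ℝ) < j := lt_of_lt_of_le (by exact_mod_cast Fintype.card_pos) j1
  obtain ⟨o, -, ho⟩ := Finset.exists_max_image Finset.univ (fun a => F.t (p a)) Finset.univ_nonempty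
  have o1 : 1 ≤ j * F.t (p o) := by
    have := Finset.sum_le_card_nsmul _ _ _ ho
    rw [← map_sum, hp.sum, F.t_one, nsmul_eq_mul, Finset.card_univ] at this
    exact this.trans (mul_le_mul_of_nonneg_right j1 (t0 o))
  obtain ⟨π, hπ⟩ : ∃ π : ι → ι, ∀ a, π a = if 1 ≤ j * F.t (p a) then a else o := ⟨_, fun _ => rfl⟩
  have k1 : ∀ a, 1 ≤ j * F.t (p (π a)) := fun a => by
    rw [hπ]
    split_ifs with k
    exacts [k, o1]
  have k2 : ∀ s : Finset ι, (∀ a ∈ s, ¬ 1 ≤ j * F.t (p a)) →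
      F.t (star (∑ a ∈ s, p a) * ∑ a ∈ s, p a) ≤ Fintype.card ι / j := fun s hs => by
    have q := split_proj s hp.proj hp.orth
    rw [q.isSelfAdjoint.star_eq, q.isIdempotentElem.eq, map_sum, le_div_iff₀ j0, Finset.sum_mul]
    have := Finset.sum_le_card_nsmul s (fun a => F.t (p a) * j) 1 fun a ha => by
      linarith [not_le.1 (hs a ha)]
    rw [nsmul_eq_mul, mul_one] at this
    exact this.trans (by exact_mod_cast s.card_le_univ)
  refine ⟨π, _, ⟨fun a => split_proj _ hp.proj hp.orth, fun a b n => ?_, ?_⟩, fun a => rfl,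
    fun a => ?_, fun a => ?_⟩
  · rw [Finset.sum_mul_sum]
    exact Finset.sum_eq_zero fun x hx => Finset.sum_eq_zero fun y hy => hp.orth _ _ fun k =>
      n ((Finset.mem_filter.1 hx).2.symm.trans (k ▸ (Finset.mem_filter.1 hy).2))
  · rw [Finset.sum_fiberwise, hp.sum]
  · by_cases k : 1 ≤ j * F.t (p a)
    · refine Or.inr (k.trans (mul_le_mul_of_nonneg_left ?_ j0.le))
      rw [map_sum]
      exact Finset.single_le_sum (f := fun a => F.t (p a)) (fun x _ => t0 x)
        (Finset.mem_filter.2 ⟨Finset.mem_univ _, by rw [hπ, if_pos k]⟩)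
    · rw [Finset.filter_eq_empty_iff.2 fun x _ (e : π x = a) => k (e ▸ k1 x)]
      simp
  · by_cases k : 1 ≤ j * F.t (p a)
    · rw [← Finset.sum_erase_add _ _ (Finset.mem_filter.2 ⟨Finset.mem_univ a,
        by rw [hπ, if_pos k]⟩), add_sub_cancel_right]
      refine k2 _ fun x hx c => (Finset.mem_erase.1 hx).1 ?_
      have := (Finset.mem_filter.1 (Finset.mem_erase.1 hx).2).2
      rwa [hπ, if_pos c] at this
    · rw [Finset.filter_eq_empty_iff.2 fun x _ (e : π x = a) => k (e ▸ k1 x)]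
      simpa using k2 {a} (by simpa using k)

end Pool.Agent.Lib.MP_64d6f1_an.II
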