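import Pool.Agent.Lib.MP_64d6f1_an.II.Basic

/-! Rotation of a small projection onto another one. -/

namespace Pool.Agent.Lib.MP_64d6f1_an.II

variable {A : Type} [CStarAlgebra A]

/-- The data of a rotation inside the corner `g`. -/
structure Rot (g e f v : A) : Prop where
  hg : IsStarProjection g
  he : IsStarProjection e
  hf : IsStarProjection f
  ge : g * e = e
  gf : g * f = f
  ef : e * f = 0
  vv : star v * v = e
  vv' : v * star v = f

/-- The rotation. -/
def rot (e f v : A) : A := v - star v + (1 - e - f)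

variable (F : Fac A) {g e f v : A}

theorem surg_ee (h : Rot g e f v) : e * e = e := h.he.isIdempotentElem

theorem surg_ff (h : Rot g e f v) : f * f = f := h.hf.isIdempotentElem

theorem surg_gg (h : Rot g e f v) : g * g = g := h.hg.isIdempotentElem

theorem surg_eg (h : Rot g e f v) : e * g = e := proj_comm_of_mul h.hg h.he h.ge

theorem surg_fg (h : Rot g e f v) : f * g = f := proj_comm_of_mul h.hg h.hf h.gf

theorem surg_fe (h : Rot g e f v) : f * e = 0 := by
  have := congrArg star h.ef
  rwa [star_mul, h.he.isSelfAdjoint.star_eq, h.hf.isSelfAdjoint.star_eq, star_zero] at this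

theorem surg_ve (h : Rot g e f v) : v * e = v := (pi_norm_le h.he h.vv).2

theorem surg_es (h : Rot g e f v) : e * star v = star v := by
  have := congrArg star (surg_ve h)
  rwa [star_mul, h.he.isSelfAdjoint.star_eq] at this

theorem surg_fv (h : Rot g e f v) : f * v = v := by
  rw [← h.vv', mul_assoc, h.vv, surg_ve h]

theorem surg_sf (h : Rot g e f v) : star v * f = star v := by
  rw [← h.vv', ← mul_assoc, h.vv, surg_es h]

theorem surg_ev (h : Rot g e f v) : e * v = 0 := by
  rw [← surg_fv h, ← mul_assoc, h.ef, zero_mul]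

theorem surg_se (h : Rot g e f v) : star v * e = 0 := by
  rw [← surg_sf h, mul_assoc, surg_fe h, mul_zero]

theorem surg_vf (h : Rot g e f v) : v * f = 0 := by
  rw [← surg_ve h, mul_assoc, h.ef, mul_zero]

theorem surg_fs (h : Rot g e f v) : f * star v = 0 := by
  rw [← surg_es h, ← mul_assoc, surg_fe h, zero_mul]

theorem surg_vv (h : Rot g e f v) : v * v = 0 := by
  calc v * v = v * e * v := by rw [surg_ve h]
    _ = 0 := by rw [mul_assoc, surg_ev h, mul_zero]

theorem surg_ss (h : Rot g e f v) : star v * star v = 0 := by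
  rw [← star_mul, surg_vv h, star_zero]

theorem surg_gv (h : Rot g e f v) : g * v = v := by
  rw [← surg_fv h, ← mul_assoc, h.gf]

theorem surg_vg (h : Rot g e f v) : v * g = v := by
  rw [← surg_ve h, mul_assoc, surg_eg h]

theorem surg_gs (h : Rot g e f v) : g * star v = star v := by
  rw [← surg_es h, ← mul_assoc, h.ge]

theorem surg_sg (h : Rot g e f v) : star v * g = star v := by
  rw [← surg_sf h, mul_assoc, surg_fg h]

theorem surg_star (h : Rot g e f v) : star (rot e f v) = star v - v + (1 - e - f) := by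
  rw [rot, star_add, star_sub, star_sub, star_sub, star_star, star_one, h.he.isSelfAdjoint.star_eq,
    h.hf.isSelfAdjoint.star_eq]

theorem Rot.unit (h : Rot g e f v) :
    star (rot e f v) * rot e f v = 1 ∧ rot e f v * star (rot e f v) = 1 := by
  rw [surg_star h, rot]
  constructor <;>
    simp only [mul_add, add_mul, mul_sub, sub_mul, mul_one, one_mul, surg_ee h, surg_ff h, h.ef,
      surg_fe h, h.vv, h.vv', surg_ve h, surg_es h, surg_fv h, surg_sf h, surg_ev h, surg_se h,
      surg_vf h, surg_fs h, surg_vv h, surg_ss h] <;>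
    abel

theorem surg_left (h : Rot g e f v) : rot e f v * (g - e) = g - e - f - star v := by
  rw [rot]
  simp only [add_mul, mul_sub, sub_mul, one_mul, surg_ee h, surg_fe h, surg_ve h, surg_se h,
    surg_eg h, surg_fg h, surg_vg h, surg_sg h]
  abel

theorem surg_left' (h : Rot g e f v) : (g - f) * rot e f v = g - e - f - star v := by
  rw [rot]
  simp only [mul_add, mul_sub, sub_mul, mul_one, surg_ff h, surg_fe h, surg_fv h, surg_fs h,
    h.ge, h.gf, surg_gv h, surg_gs h]
  abel

theorem surg_right (h : Rot g e f v) : (g - e) * star (rot e f v) = g - e - f - v := by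
  rw [surg_star h]
  simp only [mul_add, mul_sub, sub_mul, mul_one, surg_ee h, h.ef, surg_ev h, surg_es h,
    h.ge, h.gf, surg_gv h, surg_gs h]
  abel

theorem surg_right' (h : Rot g e f v) : star (rot e f v) * (g - f) = g - e - f - v := by
  rw [surg_star h]
  simp only [add_mul, mul_sub, sub_mul, one_mul, surg_ff h, h.ef, surg_vf h, surg_sf h,
    surg_eg h, surg_fg h, surg_vg h, surg_sg h]
  abel

theorem surg_idem (h : Rot g e f v) : (g - e) * (g - e) = g - e := by
  simp only [mul_sub, sub_mul, surg_gg h, surg_ee h, h.ge, surg_eg h]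
  abel

theorem surg_tf (h : Rot g e f v) : F.t f = F.t e := by
  rw [← h.vv, ← h.vv', F.t_comm]

theorem Rot.pvm (h : Rot g e f v) {κ : Type} [Fintype κ] {q : κ → A} (hq : PVM q) :
    PVM fun b => star (rot e f v) * q b * rot e f v := by
  obtain ⟨h1, h2⟩ := h.unit
  generalize rot e f v = w at h1 h2
  have key : ∀ a b, star w * q a * w * (star w * q b * w) = star w * (q a * q b) * w := by
    intro a b
    calc star w * q a * w * (star w * q b * w) = star w * q a * (w * star w) * q b * w := by
          simp only [mul_assoc]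
      _ = star w * (q a * q b) * w := by rw [h2, mul_one, mul_assoc (star w)]
  refine ⟨fun a => ⟨?_, ?_⟩, fun a b hab => ?_, ?_⟩
  · rw [IsIdempotentElem, key, (hq.proj a).isIdempotentElem]
  · rw [IsSelfAdjoint, star_mul, star_mul, star_star, (hq.proj a).isSelfAdjoint.star_eq, mul_assoc]
  · rw [key, hq.orth a b hab, mul_zero, zero_mul]
  · rw [← Finset.sum_mul, ← Finset.mul_sum, hq.sum, mul_one, h1]

theorem Rot.comm (h : Rot g e f v) {q : A} (hgq : g * q = q * g) (hfq : f * q = q * f) :
    (g - e) * (star (rot e f v) * q * rot e f v) = star (rot e f v) * q * rot e f v * (g - e) := by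
  have h1 : (g - f) * q = q * (g - f) := by rw [sub_mul, mul_sub, hgq, hfq]
  calc (g - e) * (star (rot e f v) * q * rot e f v)
      = (g - e) * star (rot e f v) * q * rot e f v := by simp only [mul_assoc]
    _ = star (rot e f v) * ((g - f) * q) * rot e f v := by
        rw [surg_right h, ← surg_right' h, mul_assoc _ _ q]
    _ = star (rot e f v) * q * ((g - f) * rot e f v) := by rw [h1]; simp only [mul_assoc]
    _ = star (rot e f v) * q * rot e f v * (g - e) := by
        rw [surg_left' h, ← surg_left h, ← mul_assoc]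

theorem Rot.loss (h : Rot g e f v) {p q : A} (hp : IsSelfAdjoint p) (hq : IsSelfAdjoint q)
    (hgp : g * p = p * g) (hep : e * p = p * e) (hgq : g * q = q * g) (hfq : f * q = q * f) :
    F.t ((g - e) * p * (star (rot e f v) * q * rot e f v)) =
      F.t (g * p * q) - F.t (e * p * q) - F.t (f * q * p) + F.t (star v * p * v * q)
        - 2 * F.t (star v * p * q) := by
  have _ := hgq
  have c1 : (g - e) * p = p * (g - e) := by rw [sub_mul, mul_sub, hgp, hep]
  have c2 : (g - e) * p * (g - e) = (g - e) * p := by rw [mul_assoc, ← c1, ← mul_assoc, surg_idem h]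
  have c3 : (g - e) * f = f := by rw [sub_mul, h.gf, h.ef, sub_zero]
  have c4 : f * (g - e) = f := by rw [mul_sub, surg_fg h, surg_fe h, sub_zero]
  have c5 : star v * (g - e) = star v := by rw [mul_sub, surg_sg h, surg_se h, sub_zero]
  have e0 : F.t ((g - e) * p * (star (rot e f v) * q * rot e f v)) =
      F.t ((g - e - f - star v) * p * (g - e - f - v) * q) := by
    rw [← mul_assoc, F.t_comm, ← c2, ← surg_left h, ← surg_right h]
    simp only [mul_assoc]
  have e1 : F.t (star v * p * (g - e - f) * q) = F.t (star v * p * q) := by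
    have a1 : star v * p * (g - e) = star v * p := by rw [mul_assoc, ← c1, ← mul_assoc, c5]
    have a2 : F.t (star v * p * f * q) = 0 := by
      rw [mul_assoc _ f, hfq, ← mul_assoc, F.t_comm, ← mul_assoc, ← mul_assoc, surg_fs h, zero_mul,
        zero_mul, map_zero]
    rw [mul_sub, sub_mul, map_sub, a1, a2, sub_zero]
  have e2 : F.t ((g - e - f) * p * v * q) = F.t (star v * p * q) := by
    rw [← e1, ← F.t_star, star_mul, star_mul, star_mul, hp.star_eq, hq.star_eq, star_sub, star_sub,
      h.hg.isSelfAdjoint.star_eq, h.he.isSelfAdjoint.star_eq, h.hf.isSelfAdjoint.star_eq, F.t_comm]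
    simp only [mul_assoc]
  have e3 : F.t ((g - e - f) * p * (g - e - f) * q) =
      F.t (g * p * q) - F.t (e * p * q) - F.t (f * q * p) := by
    have a1 : (g - e) * p * f = p * f := by rw [c1, mul_assoc, c3]
    have a2 : f * p * (g - e) = f * p := by rw [mul_assoc, ← c1, ← mul_assoc, c4]
    have a3 : F.t (f * p * f * q) = F.t (p * f * q) := by
      rw [mul_assoc, mul_assoc, F.t_comm, mul_assoc, mul_assoc, ← hfq, ← mul_assoc f, surg_ff h,
        mul_assoc]
    have a4 : F.t (f * p * q) = F.t (f * q * p) := by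
      rw [mul_assoc, F.t_comm, mul_assoc, ← hfq, F.t_comm]
    have a5 : (g - e - f) * p * (g - e - f) =
        (g - e) * p * (g - e) - (g - e) * p * f - f * p * (g - e) + f * p * f := by
      generalize g - e = u
      noncomm_ring
    rw [a5, c2, a1, a2, add_mul, sub_mul, sub_mul, sub_mul, sub_mul, map_add, map_sub, map_sub,
      map_sub, a3, a4]
    ring
  have e4 : (g - e - f - star v) * p * (g - e - f - v) * q =
      (g - e - f) * p * (g - e - f) * q - (g - e - f) * p * v * q - star v * p * (g - e - f) * q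
        + star v * p * v * q := by
    generalize g - e - f = u
    noncomm_ring
  rw [e0, e4, map_add, map_sub, map_sub, e1, e2, e3]
  ring

theorem Rot.marg (h : Rot g e f v) {q : A} (hq : IsSelfAdjoint q) (hgq : g * q = q * g)
    (hfq : f * q = q * f) :
    F.t ((g - e) * (star (rot e f v) * q * rot e f v)) = F.t (g * q) - F.t (f * q) := by
  have _ := hq
  have _ := hgq
  have _ := hfq
  have h1 : rot e f v * (g - e) * star (rot e f v) = g - f := by
    rw [surg_left h, ← surg_left' h, mul_assoc, h.unit.2, mul_one]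
  rw [← mul_assoc, F.t_comm, ← mul_assoc, ← mul_assoc, h1, sub_mul, map_sub]

theorem surg_norm {p : A} (hp : IsStarProjection p) : ‖p‖ ≤ 1 :=
  (pi_norm_le hp (by rw [hp.isSelfAdjoint.star_eq, hp.isIdempotentElem])).1

theorem surg_mul_le {a b : A} {c : ℝ} (ha : ‖a‖ ≤ 1) (hb : ‖b‖ ≤ c) : ‖a * b‖ ≤ c :=
  (norm_mul_le a b).trans (by nlinarith [norm_nonneg a, norm_nonneg b])

theorem surg_be (h : Rot g e f v) {z : A} {c : ℝ} (hz : ‖z‖ ≤ c) : |F.t (e * z)| ≤ c * F.t e :=
  (F.t_proj_bound h.he z).trans (mul_le_mul_of_nonneg_right hz (F.t_proj_nonneg h.he))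

theorem surg_bf (h : Rot g e f v) {z : A} {c : ℝ} (hz : ‖z‖ ≤ c) : |F.t (f * z)| ≤ c * F.t e := by
  rw [← surg_tf F h]
  exact (F.t_proj_bound h.hf z).trans (mul_le_mul_of_nonneg_right hz (F.t_proj_nonneg h.hf))

theorem surg_bv (h : Rot g e f v) {z : A} {c : ℝ} (hz : ‖z‖ ≤ c) : |F.t (v * z)| ≤ c * F.t e := by
  have := surg_bf F h (surg_mul_le (pi_norm_le h.he h.vv).1 hz)
  rwa [← mul_assoc, surg_fv h] at this

theorem surg_bs (h : Rot g e f v) {z : A} {c : ℝ} (hz : ‖z‖ ≤ c) :
    |F.t (star v * z)| ≤ c * F.t e := by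
  have h1 : ‖star v‖ ≤ 1 := by rw [norm_star]; exact (pi_norm_le h.he h.vv).1
  have := surg_be F h (surg_mul_le h1 hz)
  rwa [← mul_assoc, surg_es h] at this

theorem Rot.loss_le (h : Rot g e f v) {p q : A} (hp : IsStarProjection p)
    (hq : IsStarProjection q) (hgp : g * p = p * g) (hep : e * p = p * e) (hgq : g * q = q * g)
    (hfq : f * q = q * f) :
    |F.t (g * p * q) - F.t ((g - e) * p * (star (rot e f v) * q * rot e f v))| ≤ 5 * F.t e := by
  have np := surg_norm hp
  have nq := surg_norm hq
  have b1 := abs_le.1 (surg_be F h (surg_mul_le np nq))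
  have b2 := abs_le.1 (surg_bf F h (surg_mul_le nq np))
  have b3 := abs_le.1 (surg_bs F h (surg_mul_le np (surg_mul_le (pi_norm_le h.he h.vv).1 nq)))
  have b4 := abs_le.1 (surg_bs F h (surg_mul_le np nq))
  simp only [← mul_assoc] at b1 b2 b3 b4
  rw [h.loss F hp.isSelfAdjoint hq.isSelfAdjoint hgp hep hgq hfq, abs_le]
  constructor <;> linarith [b1.1, b1.2, b2.1, b2.2, b3.1, b3.2, b4.1, b4.2]

theorem Rot.move (h : Rot g e f v) {q : A} (hq : IsStarProjection q) (y : A) :
    |F.t (y * (star (rot e f v) * q * rot e f v - q))| ≤ 8 * F.t e * ‖y‖ := by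
  have nq := surg_norm hq
  have nw : ‖rot e f v‖ ≤ 1 := (pi_norm_le (IsStarProjection.one A) h.unit.1).1
  have n1 : ‖q * (rot e f v * y)‖ ≤ ‖y‖ := surg_mul_le nq (surg_mul_le nw le_rfl)
  have n2 : ‖y * q‖ ≤ ‖y‖ := (norm_mul_le y q).trans (by nlinarith [norm_nonneg y])
  have e1 : y * (star (rot e f v) * q * rot e f v - q) =
      y * ((star (rot e f v) - 1) * q * rot e f v) + y * q * (rot e f v - 1) := by
    noncomm_ring
  have e2 : (star (rot e f v) - 1) * q * rot e f v * y =
      star v * (q * (rot e f v * y)) - v * (q * (rot e f v * y)) - e * (q * (rot e f v * y))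
        - f * (q * (rot e f v * y)) := by
    rw [surg_star h]
    generalize rot e f v = w
    noncomm_ring
  have e3 : (rot e f v - 1) * (y * q) =
      v * (y * q) - star v * (y * q) - e * (y * q) - f * (y * q) := by
    rw [rot]
    noncomm_ring
  have b1 := abs_le.1 (surg_bs F h n1)
  have b2 := abs_le.1 (surg_bv F h n1)
  have b3 := abs_le.1 (surg_be F h n1)
  have b4 := abs_le.1 (surg_bf F h n1)
  have b5 := abs_le.1 (surg_bs F h n2)
  have b6 := abs_le.1 (surg_bv F h n2)
  have b7 := abs_le.1 (surg_be F h n2)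
  have b8 := abs_le.1 (surg_bf F h n2)
  rw [e1, map_add, F.t_comm y, F.t_comm (y * q), e2, e3]
  simp only [map_sub]
  rw [abs_le]
  constructor <;> linarith [b1.1, b1.2, b2.1, b2.2, b3.1, b3.2, b4.1, b4.2, b5.1, b5.2, b6.1,
    b6.2, b7.1, b7.2, b8.1, b8.2]

end Pool.Agent.Lib.MP_64d6f1_an.II
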