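import Pool.Agent.Lib.MP_64d6f1_an.II.Split
import Pool.Agent.Lib.MP_64d6f1_an.II.Dix
import Pool.Agent.Lib.MP_64d6f1_an.II.Surg

/-! One step: a small piece is cut out of the corner. -/

namespace Pool.Agent.Lib.MP_64d6f1_an.II

variable {A : Type} [CStarAlgebra A] (F : Fac A)

/-- The state of the construction. -/
structure St {ι κ : Type} [Fintype ι] [Fintype κ] (p : ι → A) (α : ι → ℝ) (β : κ → ℝ) (s : ℝ)
    (g : A) (q : κ → A) : Prop where
  hq : PVM q
  hg : IsStarProjection g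
  gp : ∀ a, g * p a = p a * g
  gq : ∀ b, g * q b = q b * g
  tp : ∀ a, F.t (g * p a) = s * α a
  tq : ∀ b, F.t (g * q b) = s * β b

theorem step_num {ι κ : Type} [Fintype ι] [Fintype κ] {α : ι → ℝ} {β : κ → ℝ}
    (sβ : ∑ b, β b = 1) {η n c : ℝ} (hn : n ≠ 0) (D γ E Φ V U : ι → κ → ℝ) (lam : ι → ℝ)
    (μ : κ → ℝ) (hμ : ∀ b, μ b = ∑ a, D a b * α a)
    (hl : ∀ a, η * lam a = ∑ b, D a b * ∑ a', E a' b)
    (γa : ∀ a, ∑ b, γ a b = n * η * α a) (γb : ∀ b, ∑ a, γ a b = n * η * β b)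
    (h1 : ∀ a, (∑ b, (D a b - μ b) * γ a b) / n ≤ ∑ b, (D a b - μ b) * E a b)
    (h2 : ∀ b, (∑ a, (D a b - lam a) * γ a b) / n - c * β b ≤ ∑ a, (D a b - lam a) * Φ a b)
    (h3 : ∑ a, ∑ b, D a b * V a b ≤ ∑ a, (∑ b, Φ a b) * lam a + η / n)
    (h4 : 0 ≤ ∑ a, ∑ b, D a b * U a b) :
    2 / n * ∑ a, ∑ b, D a b * γ a b - η * ∑ a, ∑ b, D a b * (α a * β b) - c - η / n ≤
      ∑ a, ∑ b, D a b * (E a b + Φ a b - V a b + 2 * U a b) := by
  have b1 : ∀ X : ι → κ → ℝ, ∑ a, ∑ b, (D a b - μ b) * X a b =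
      ∑ a, ∑ b, D a b * X a b - ∑ b, μ b * ∑ a, X a b := by
    intro X
    simp only [sub_mul, Finset.sum_sub_distrib, Finset.mul_sum]
    rw [Finset.sum_comm (f := fun a b => μ b * X a b)]
  have b2 : ∀ X : ι → κ → ℝ, ∑ b, ∑ a, (D a b - lam a) * X a b =
      ∑ a, ∑ b, D a b * X a b - ∑ a, (∑ b, X a b) * lam a := by
    intro X
    rw [Finset.sum_comm, ← Finset.sum_sub_distrib]
    refine Finset.sum_congr rfl fun a _ => ?_
    rw [Finset.sum_mul, ← Finset.sum_sub_distrib]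
    exact Finset.sum_congr rfl fun b _ => by ring
  have a1 : ∑ b, μ b * ∑ a, γ a b = n * (η * ∑ a, ∑ b, D a b * (α a * β b)) := by
    rw [Finset.sum_comm, Finset.mul_sum, Finset.mul_sum]
    refine Finset.sum_congr rfl fun b _ => ?_
    rw [γb, hμ, Finset.sum_mul, Finset.mul_sum, Finset.mul_sum]
    exact Finset.sum_congr rfl fun a _ => by ring
  have a2 : ∑ a, (∑ b, γ a b) * lam a = n * ∑ b, μ b * ∑ a, E a b := by
    have : ∀ a, (∑ b, γ a b) * lam a = ∑ b, n * (D a b * α a * ∑ a', E a' b) := fun a => by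
      rw [γa, show n * η * α a * lam a = n * α a * (η * lam a) by ring, hl, Finset.mul_sum]
      exact Finset.sum_congr rfl fun b _ => by ring
    simp only [this]
    rw [Finset.sum_comm, Finset.mul_sum]
    refine Finset.sum_congr rfl fun b _ => ?_
    rw [hμ, Finset.sum_mul, Finset.mul_sum]
  have s1 := Finset.sum_le_sum fun a (_ : a ∈ Finset.univ) => h1 a
  have s2 := Finset.sum_le_sum fun b (_ : b ∈ Finset.univ) => h2 b
  rw [← Finset.sum_div, b1, b1, a1, sub_div, mul_div_cancel_left₀ _ hn] at s1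
  rw [Finset.sum_sub_distrib, ← Finset.sum_div, b2, b2, a2, sub_div, mul_div_cancel_left₀ _ hn,
    ← Finset.mul_sum, sβ] at s2
  have a3 : ∑ a, ∑ b, D a b * (E a b + Φ a b - V a b + 2 * U a b) =
      ∑ a, ∑ b, D a b * E a b + ∑ a, ∑ b, D a b * Φ a b - ∑ a, ∑ b, D a b * V a b +
        2 * ∑ a, ∑ b, D a b * U a b := by
    simp only [Finset.mul_sum, ← Finset.sum_add_distrib, ← Finset.sum_sub_distrib]
    exact Finset.sum_congr rfl fun a _ => Finset.sum_congr rfl fun b _ => by ring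
  have a4 : 2 / n * ∑ a, ∑ b, D a b * γ a b = 2 * ((∑ a, ∑ b, D a b * γ a b) / n) := by ring
  rw [a3, a4]
  linarith

theorem step_two {g p x : A} (hg : IsStarProjection g) (hp : IsStarProjection p)
    (hc : g * p = p * g) (h : g * p * x = x) : g * x = x ∧ p * x = x := by
  constructor
  · rw [← h, ← mul_assoc, ← mul_assoc, hg.isIdempotentElem.eq]
  · rw [← h, hc, ← mul_assoc, ← mul_assoc, hp.isIdempotentElem.eq]

theorem step_adj {a b : A} (ha : IsStarProjection a) (hb : IsStarProjection b) {c : A}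
    (hc : IsSelfAdjoint c) (h : a * b = c) : b * a = c := by
  rw [← ha.isSelfAdjoint.star_eq, ← hb.isSelfAdjoint.star_eq, ← star_mul, h, hc.star_eq]

theorem step_fam {ι : Type} [Fintype ι] {p e : ι → A} (hp : PVM p)
    (he : ∀ a, IsStarProjection (e a)) (h : ∀ a, p a * e a = e a) :
    IsStarProjection (∑ a, e a) ∧ (∀ a, (∑ a, e a) * p a = e a) ∧
      ∀ a, p a * ∑ a, e a = e a := by
  have h1 : ∀ a, e a * p a = e a := fun a => proj_comm_of_mul (hp.proj a) (he a) (h a)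
  have h2 : ∀ a b, a ≠ b → e a * p b = 0 := fun a b hab => by
    rw [← h1, mul_assoc, hp.orth a b hab, mul_zero]
  have h3 := proj_sum he fun a b hab => by rw [← h b, ← mul_assoc, h2 a b hab, zero_mul]
  have h4 : ∀ a, (∑ a, e a) * p a = e a := fun a => by
    rw [Finset.sum_mul, Finset.sum_eq_single a (fun b _ hb => h2 b a hb) (by simp), h1]
  exact ⟨h3, h4, fun a => step_adj h3 (hp.proj a) (he a).isSelfAdjoint (h4 a)⟩

theorem step_lin {ι : Type} [Fintype ι] (x : A) (c : ι → ℝ) (y : ι → A) :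
    F.t (x * ∑ a, c a • y a) = ∑ a, c a * F.t (x * y a) := by
  simp only [Finset.mul_sum, map_sum, mul_smul_comm, map_smul, smul_eq_mul]

theorem step_tot {ι : Type} [Fintype ι] {p : ι → A} (hp : PVM p) (x : A) :
    ∑ a, F.t (x * p a) = F.t x := by
  rw [← map_sum, ← Finset.mul_sum, hp.sum, mul_one]

theorem Fac.step {ι κ : Type} [Fintype ι] [Fintype κ] {p : ι → A} (hp : PVM p) {α : ι → ℝ}
    {β : κ → ℝ} (hα : ∀ a, 0 ≤ α a) (hβ : ∀ b, 0 ≤ β b) (sα : ∑ a, α a = 1) (sβ : ∑ b, β b = 1)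
    {η : ℝ} (hη : 0 < η) {n j : ℕ} (hj : j < n) (hc : ∀ b, β b = 0 ∨ 1 ≤ j * β b) {g : A}
    {q : κ → A} (h : St F p α β (n * η) g q) (D : ι → κ → ℝ) (hD : ∀ a b, |D a b| ≤ 1) :
    ∃ g' q', St F p α β ((n - 1 : ℝ) * η) g' q' ∧
      (∀ b y, |F.t (y * (q' b - q b))| ≤ 8 * η * ‖y‖) ∧
      (∀ a b, |F.t (g * p a * q b) - F.t (g' * p a * q' b)| ≤ 5 * η) ∧
      2 / n * ∑ a, ∑ b, D a b * F.t (g * p a * q b) - η * ∑ a, ∑ b, D a b * (α a * β b)
          - (4 * Fintype.card ι * j + 1) * η / n ≤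
        ∑ a, ∑ b, D a b * (F.t (g * p a * q b) - F.t (g' * p a * q' b)) := by
  have hn0 : 0 < n := Nat.zero_lt_of_lt hj
  have hn : (0 : ℝ) < n := by exact_mod_cast hn0
  have hq := h.hq
  have hg := h.hg
  have gp : ∀ a, IsStarProjection (g * p a) := fun a => hg.mul (hp.proj a) (h.gp a)
  have gq : ∀ b, IsStarProjection (g * q b) := fun b => hg.mul (hq.proj b) (h.gq b)
  obtain ⟨μ, hμ⟩ : ∃ μ : κ → ℝ, ∀ b, μ b = ∑ a, D a b * α a := ⟨_, fun _ => rfl⟩
  choose E E1 E2 E3 E4 using fun a => F.sel (gp a) (gp a) (gp a).isIdempotentElem.eq hn0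
    (mul_nonneg hη.le (hα a)) (by rw [h.tp, mul_assoc])
    (by rw [h.tp, Nat.cast_zero, sub_zero, mul_assoc]) (∑ b, (D a b - μ b) • q b)
  have E5 := fun a => step_two hg (hp.proj a) (h.gp a) (E2 a)
  obtain ⟨he, ep, pe⟩ := step_fam hp E1 fun a => (E5 a).2
  have te : F.t (∑ a, E a) = η := by
    rw [map_sum, Finset.sum_congr rfl fun a _ => E3 a, ← Finset.mul_sum, sα, mul_one]
  have ge : g * ∑ a, E a = ∑ a, E a := by
    rw [Finset.mul_sum, Finset.sum_congr rfl fun a _ => (E5 a).1]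
  have eq : ∀ b, F.t ((∑ a, E a) * q b) = ∑ a, F.t (E a * q b) := fun b => by
    rw [Finset.sum_mul, map_sum]
  generalize ∑ a, E a = e at he ep pe te ge eq
  obtain ⟨lam, hl⟩ : ∃ lam : ι → ℝ, ∀ a, lam a = (∑ b, D a b * F.t (e * q b)) / η :=
    ⟨_, fun _ => rfl⟩
  have hl1 : ∀ a, |lam a| ≤ 1 := fun a => by
    rw [hl, abs_div, abs_of_pos hη, div_le_one hη, ← te, ← step_tot F hq e]
    refine (Finset.abs_sum_le_sum_abs _ _).trans (Finset.sum_le_sum fun b _ => ?_)
    have := (F.τ_proj_mul he (hq.proj b)).2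
    rw [abs_mul, abs_of_nonneg this]
    exact mul_le_of_le_one_left this (hD a b)
  choose R R1 R2 R3 R4 using fun b => F.rng (q b * e)
  have gqe : ∀ b, g * q b * e = q b * e := fun b => by rw [h.gq, mul_assoc, ge]
  have R5 : ∀ b, g * q b * R b = R b := fun b => by
    have := R3 b (1 - g * q b) (by
      rw [sub_mul, one_mul, ← mul_assoc, mul_assoc g, (hq.proj b).isIdempotentElem.eq, gqe,
        sub_self])
    rw [sub_mul, one_mul, sub_eq_zero] at this
    exact this.symm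
  have hr : ∀ b, IsStarProjection (g * q b - R b) := fun b =>
    (R1 b).sub_of_mul_eq_right (gq b) (R5 b)
  have r0 : ∀ b, g * q b * (g * q b - R b) = g * q b - R b := fun b => by
    rw [mul_sub, (gq b).isIdempotentElem.eq, R5]
  have re : ∀ b, (g * q b - R b) * e = 0 := fun b => by
    have := proj_comm_of_mul (hq.proj b) (R1 b) (step_two hg (hq.proj b) (h.gq b) (R5 b)).2
    rw [sub_mul, gqe, ← this, mul_assoc, R2, sub_self]
  have rt : ∀ b, ((n : ℝ) - j) * (η * β b) ≤ F.t (g * q b - R b) := fun b => by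
    rcases hc b with h0 | h0
    · rw [h0, mul_zero, mul_zero]
      exact F.t_proj_nonneg (hr b)
    · have h1 : F.t (R b) ≤ F.t e := R4 b e he (by rw [mul_assoc, he.isIdempotentElem.eq])
      have h2 := mul_le_mul_of_nonneg_left h0 hη.le
      rw [map_sub, h.tq]
      linarith
  choose Φ Φ1 Φ2 Φ3 Φ4 using fun b => F.sel (gq b) (hr b) (r0 b) hj
    (mul_nonneg hη.le (hβ b)) (by rw [h.tq, mul_assoc]) (rt b) (∑ a, (D a b - lam a) • p a)
  have Φ5 := fun b => step_two hg (hq.proj b) (h.gq b)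
    (show g * q b * Φ b = Φ b by rw [← Φ2 b, ← mul_assoc, r0])
  obtain ⟨hf, fq, qf⟩ := step_fam hq Φ1 fun b => (Φ5 b).2
  have tf : F.t (∑ b, Φ b) = η := by
    rw [map_sum, Finset.sum_congr rfl fun b _ => Φ3 b, ← Finset.mul_sum, sβ, mul_one]
  have gf : g * ∑ b, Φ b = ∑ b, Φ b := by
    rw [Finset.mul_sum, Finset.sum_congr rfl fun b _ => (Φ5 b).1]
  have ef : e * ∑ b, Φ b = 0 := by
    rw [Finset.mul_sum]
    refine Finset.sum_eq_zero fun b _ => ?_
    rw [← Φ2 b, ← mul_assoc, step_adj (hr b) he (IsSelfAdjoint.zero _) (re b), zero_mul]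
  have fp : ∀ a, F.t ((∑ b, Φ b) * p a) = ∑ b, F.t (Φ b * p a) := fun a => by
    rw [Finset.sum_mul, map_sum]
  generalize ∑ b, Φ b = f at hf fq qf tf gf ef fp
  obtain ⟨v0, v1, v2⟩ := F.cmp e f he hf (te.trans tf.symm)
  have v3 : v0 * e = v0 := (pi_norm_le he v1).2
  have v4 : e * star v0 = star v0 := by
    rw [← he.isSelfAdjoint.star_eq, ← star_mul, v3]
  obtain ⟨u, u1, u2, u3⟩ := F.dix he (by rwa [te]) (fun a => star v0 * p a * v0)
    (fun a => ∑ b, D a b • q b) (fun a => ⟨(hp.proj a).isSelfAdjoint.conjugate' v0, by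
      rw [← mul_assoc, ← mul_assoc, v4]⟩) (div_pos hη hn)
  have u4 : star u * e = star u := (pi_norm_le he (by rwa [star_star])).2
  have w1 : star (v0 * u) * (v0 * u) = e := by
    rw [star_mul, mul_assoc, ← mul_assoc (star v0), v1, ← mul_assoc, u4, u1]
  have w2 : v0 * u * star (v0 * u) = f := by
    rw [star_mul, mul_assoc, ← mul_assoc u, u2, v4, v2]
  have w3 : ∑ a, ∑ b, D a b * F.t (star (v0 * u) * p a * (v0 * u) * q b) ≤
      ∑ a, (∑ b, F.t (Φ b * p a)) * lam a + η / n := by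
    refine le_of_eq_of_le (Finset.sum_congr rfl fun a _ => ?_)
      (u3.trans_eq (congrArg (· + η / n) (Finset.sum_congr rfl fun a _ => ?_)))
    · rw [step_lin, star_mul]
      simp only [mul_assoc]
    · rw [step_lin, te, hl, mul_div_assoc, ← fp, F.t_comm _ v0, ← mul_assoc, v2]
  obtain ⟨v, x1, x2, x3, x4⟩ : ∃ v, star v * v = e ∧ v * star v = f ∧
      ∑ a, ∑ b, D a b * F.t (star v * p a * v * q b) ≤
        ∑ a, (∑ b, F.t (Φ b * p a)) * lam a + η / n ∧
      0 ≤ ∑ a, ∑ b, D a b * F.t (star v * p a * q b) := by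
    rcases le_total 0 (∑ a, ∑ b, D a b * F.t (star (v0 * u) * p a * q b)) with h0 | h0
    · exact ⟨_, w1, w2, w3, h0⟩
    · refine ⟨-(v0 * u), ?_, ?_, ?_, ?_⟩
      · rwa [star_neg, neg_mul_neg]
      · rwa [star_neg, neg_mul_neg]
      · simpa only [star_neg, neg_mul, mul_neg, neg_neg] using w3
      · simpa only [star_neg, neg_mul, map_neg, mul_neg, Finset.sum_neg_distrib, neg_nonneg]
          using h0
  have hR : Rot g e f v := ⟨hg, he, hf, ge, gf, ef, x1, x2⟩
  have epc : ∀ a, e * p a = p a * e := fun a => (ep a).trans (pe a).symm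
  have fqc : ∀ b, f * q b = q b * f := fun b => (fq b).trans (qf b).symm
  refine ⟨g - e, fun b => star (rot e f v) * q b * rot e f v, ⟨hR.pvm hq,
    he.sub_of_mul_eq_right hg ge, fun a => ?_, fun b => hR.comm (h.gq b) (fqc b), fun a => ?_,
    fun b => ?_⟩, fun b y => ?_, fun a b => ?_, ?_⟩
  · rw [sub_mul, mul_sub, h.gp, epc]
  · rw [sub_mul, map_sub, h.tp, ep, E3]
    ring
  · rw [hR.marg F (hq.proj b).isSelfAdjoint (h.gq b) (fqc b), h.tq, fq, Φ3]
    ring
  · exact te ▸ hR.move F (hq.proj b) y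
  · exact te ▸ hR.loss_le F (hp.proj a) (hq.proj b) (h.gp a) (epc a) (h.gq b) (fqc b)
  have γc : ∀ a b, F.t (g * q b * p a) = F.t (g * p a * q b) := fun a b => by
    rw [← F.t_star, star_mul, star_mul, hg.isSelfAdjoint.star_eq,
      (hp.proj a).isSelfAdjoint.star_eq, (hq.proj b).isSelfAdjoint.star_eq, ← mul_assoc,
      F.t_comm, mul_assoc]
  have key := step_num sβ (c := 4 * Fintype.card ι * j * η / n) hn.ne' D
    (fun a b => F.t (g * p a * q b)) (fun a b => F.t (E a * q b)) (fun a b => F.t (Φ b * p a))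
    (fun a b => F.t (star v * p a * v * q b)) (fun a b => F.t (star v * p a * q b)) lam μ hμ
    (fun a => by rw [hl, mul_div_cancel₀ _ hη.ne']; simp only [eq])
    (fun a => by rw [step_tot F hq, h.tp])
    (fun b => by simp only [← γc]; rw [step_tot F hp, h.tq])
    (fun a => by
      have := E4 a
      rwa [step_lin, step_lin, Nat.cast_zero, mul_zero, zero_mul, zero_div, sub_zero] at this)
    (fun b => by
      have h1 := Φ4 b
      have h2 : ‖∑ a, (D a b - lam a) • p a‖ ≤ 2 * Fintype.card ι := by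
        refine (norm_sum_le _ _).trans ((Finset.sum_le_card_nsmul _ _ 2 fun a _ => ?_).trans_eq
          (by rw [Finset.card_univ, nsmul_eq_mul, mul_comm]))
        have a1 := abs_sub (D a b) (lam a)
        rw [norm_smul, Real.norm_eq_abs]
        refine (mul_le_of_le_one_right (abs_nonneg _) ((hp.proj a).norm_le _)).trans ?_
        linarith [hD a b, hl1 a]
      have h3 : 2 * ‖∑ a, (D a b - lam a) • p a‖ * j * (η * β b) / n ≤
          2 * (2 * Fintype.card ι) * j * (η * β b) / n := by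
        have := hβ b
        gcongr
      rw [step_lin, step_lin] at h1
      simp only [γc] at h1
      refine le_trans (le_of_eq_of_le ?_ (sub_le_sub_left h3 _)) h1
      ring) x3 x4
  refine le_of_eq_of_le (by ring) (key.trans_eq ?_)
  refine Finset.sum_congr rfl fun a _ => Finset.sum_congr rfl fun b _ => ?_
  rw [hR.loss F (hp.proj a).isSelfAdjoint (hq.proj b).isSelfAdjoint (h.gp a) (epc a) (h.gq b)
    (fqc b), ep, fq]
  ring

end Pool.Agent.Lib.MP_64d6f1_an.II
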