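import Pool.Agent.Lib.MP_64d6f1_an.II.Lift
import Pool.Agent.Lib.MP_64d6f1_an.II.Cmp

/-! Lifting in a factor of type two. -/

open Filter Topology

namespace Pool.Agent.Lib.MP_64d6f1_an.II

variable {H : Type} [NormedAddCommGroup H] [InnerProductSpace ℂ H] [CompleteSpace H]
  {N : VonNeumannAlgebra H} {ξ : ℕ → H} {τ : (H →L[ℂ] H) → ℂ}

theorem wrap_proj {S : StarSubalgebra ℂ (H →L[ℂ] H)} {p : S} :
    IsStarProjection p ↔ IsStarProjection p.1 :=
  ⟨fun h => ⟨congrArg Subtype.val h.1, congrArg Subtype.val h.2⟩,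
    fun h => ⟨Subtype.ext h.1, Subtype.ext h.2⟩⟩

theorem II1.lift (h : II1 N ξ τ) {l : Filter ℕ} (hl : l ≤ cofinite)
    (u v : ℕ → unitary (H →L[ℂ] H)) (hu : ∀ n, (u n : H →L[ℂ] H) ∈ N)
    (hv : ∀ n, (v n : H →L[ℂ] H) ∈ N)
    (hi : ∀ e f : ℤ, Tendsto (fun n => τ ((u n ^ e).1 * (v n ^ f).1) -
      τ (u n ^ e).1 * τ (v n ^ f).1) l (𝓝 0)) :
    ∃ u' v' : ℕ → unitary (H →L[ℂ] H), (∀ n, (u' n : H →L[ℂ] H) ∈ N) ∧
      (∀ n, (v' n : H →L[ℂ] H) ∈ N) ∧
      Tendsto (fun n => τ (star ((u' n).1 - (u n).1) * ((u' n).1 - (u n).1))) l (𝓝 0) ∧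
      Tendsto (fun n => τ (star ((v' n).1 - (v n).1) * ((v' n).1 - (v n).1))) l (𝓝 0) ∧
      ∀ (n : ℕ) (e f : ℤ), τ ((u' n ^ e).1 * (v' n ^ f).1) = τ (u' n ^ e).1 * τ (v' n ^ f).1 := by
  have : IsClosed (N.toStarSubalgebra : Set (H →L[ℂ] H)) := vn_isClosed N
  obtain ⟨T, hT⟩ := h.lin
  let F : Fac N.toStarSubalgebra :=
    { τ :=
        { toFun := fun x => τ x.1
          map_add' := fun x y => by
            rw [hT, hT, hT]
            exact map_add T x.1 y.1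
          map_smul' := fun c x => by
            rw [hT, hT]
            exact map_smul T c x.1 }
      one := h.one
      comm := fun a b => h.comm _ a.2 _ b.2
      herm := fun a => h.herm a.1
      pos := fun a => h.pos a.1
      faith := fun a ha => Subtype.ext (h.faith _ a.2 ha)
      div := fun r hr s h0 h1 => by
        obtain ⟨e, he, h2, h3, h4⟩ := h.div r.2 (wrap_proj.1 hr) h0 h1
        exact ⟨⟨e, he⟩, wrap_proj.2 h2, Subtype.ext h3, h4⟩
      cmp := fun e f he hf hef => by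
        obtain ⟨w, hw, h2, h3⟩ := h.cmp e.2 f.2 (wrap_proj.1 he) (wrap_proj.1 hf) hef
        exact ⟨⟨w, hw⟩, Subtype.ext h2, Subtype.ext h3⟩
      rng := fun x => by
        obtain ⟨R, hR, h2, h3, h4, h5⟩ := h.rng x.2
        exact ⟨⟨R, hR⟩, wrap_proj.2 h2, Subtype.ext h3,
          fun y hy => Subtype.ext (h4 y.1 (congrArg Subtype.val hy)),
          fun e he hx => h5 e.1 e.2 (wrap_proj.1 he) (congrArg Subtype.val hx)⟩ }
  let up : unitary N.toStarSubalgebra →* unitary (H →L[ℂ] H) :=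
    { toFun := fun w => ⟨w.1.1, congrArg Subtype.val w.2.1, congrArg Subtype.val w.2.2⟩
      map_one' := rfl
      map_mul' := fun _ _ => rfl }
  have hup : ∀ (w : unitary N.toStarSubalgebra) (e : ℤ), (up w ^ e).1 = (w ^ e).1.1 :=
    fun w e => by rw [← map_zpow]; rfl
  let a : ℕ → unitary N.toStarSubalgebra := fun n =>
    ⟨⟨u n, hu n⟩, Subtype.ext (u n).2.1, Subtype.ext (u n).2.2⟩
  let b : ℕ → unitary N.toStarSubalgebra := fun n =>
    ⟨⟨v n, hv n⟩, Subtype.ext (v n).2.1, Subtype.ext (v n).2.2⟩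
  have ha : ∀ n (e : ℤ), (u n ^ e).1 = (a n ^ e).1.1 := fun n e => hup (a n) e
  have hb : ∀ n (e : ℤ), (v n ^ e).1 = (b n ^ e).1.1 := fun n e => hup (b n) e
  obtain ⟨u', v', h1, h2, h3⟩ := F.lift hl a b fun e f => by
    have := hi e f
    simp only [ha, hb] at this
    exact this
  refine ⟨fun n => up (u' n), fun n => up (v' n), fun n => (u' n).1.2, fun n => (v' n).1.2,
    h1, h2, fun n e f => ?_⟩
  rw [hup, hup]
  exact h3 n e f

end Pool.Agent.Lib.MP_64d6f1_an.II
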